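import Pool.Agent.Work.MP_7453a1_gi.Interface

set_option autoImplicit false

/-!
Block ALL: the records have density at least `25/38` for the best ellipse.
-/

namespace Pool.GI

open Finset Real
open Pool.Agent.Work.MP_7453a1_nt (rho_bounds)

theorem ALL_cos1 : (0.8691 : ℝ) ≤ Real.cos 0.5173 := by
  have h0 : (0.9979093 : ℝ) ≤ Real.cos 0.0646625 := by
    have := Real.one_sub_sq_div_two_le_cos (x := 0.0646625)
    refine le_trans ?_ this
    norm_num
  have h1 : (0.9916459 : ℝ) ≤ Real.cos 0.129325 := by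
    have e : (0.129325 : ℝ) = 2 * 0.0646625 := by norm_num
    rw [e, Real.cos_two_mul]
    have := pow_le_pow_left₀ (by norm_num) h0 2
    norm_num at this ⊢
    linarith
  have h2 : (0.9667231 : ℝ) ≤ Real.cos 0.25865 := by
    have e : (0.25865 : ℝ) = 2 * 0.129325 := by norm_num
    rw [e, Real.cos_two_mul]
    have := pow_le_pow_left₀ (by norm_num) h1 2
    norm_num at this ⊢
    linarith
  have e : (0.5173 : ℝ) = 2 * 0.25865 := by norm_num
  rw [e, Real.cos_two_mul]
  have := pow_le_pow_left₀ (by norm_num) h2 2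
  norm_num at this ⊢
  linarith

theorem ALL_cos2 : (0.5106 : ℝ) ≤ Real.cos (2 * 0.5173) := by
  rw [Real.cos_two_mul]
  have := pow_le_pow_left₀ (by norm_num) ALL_cos1 2
  norm_num at this ⊢
  linarith

theorem ALL_abs {x : ℝ} (hx : |x| ≤ 0.5173) : (0.8691 : ℝ) ≤ |Real.cos x| := by
  have h1 : Real.cos 0.5173 ≤ Real.cos |x| :=
    Real.cos_le_cos_of_nonneg_of_le_pi (abs_nonneg x) (by linarith [Real.pi_gt_three]) hx
  rw [Real.cos_abs] at h1
  exact (ALL_cos1.trans h1).trans (le_abs_self _)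

theorem ALL_shift (x : ℝ) (k : ℤ) : |Real.cos (x - k * π)| = |Real.cos x| := by
  rw [Real.cos_sub_int_mul_pi, abs_mul, abs_zpow, abs_neg, abs_one, one_zpow, one_mul]

theorem ALL_sc {u : ℂ} (hu : ‖u‖ = 1) (φ : ℝ) :
    Sc u (Complex.exp (φ * Complex.I)) = Real.cos (φ - Complex.arg u) := by
  have h1 := Complex.norm_mul_cos_arg u
  have h2 := Complex.norm_mul_sin_arg u
  rw [hu, one_mul] at h1 h2
  rw [Sc, Complex.exp_ofReal_mul_I_re, Complex.exp_ofReal_mul_I_im, ← h1, ← h2, Real.cos_sub]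
  ring

theorem ALL_one {n : Seminorm ℝ ℂ} {ρ s : ℝ} (hs : 1 ≤ s) (h : Cnt n ρ 1) : Cnt n ρ s := by
  obtain ⟨δ, h0, h1, h2, h3⟩ := h
  have key : ∀ μ : ℂ, Orb n ρ μ 1 δ → Orb n ρ μ s δ := by
    intro μ hμ ζ hζ
    obtain ⟨C, hC⟩ := hμ ζ hζ
    refine ⟨C, fun K => ?_⟩
    obtain ⟨S, hS1, hS2, hS3⟩ := hC K
    refine ⟨S, hS1, hS2, ?_⟩
    have : (K : ℝ) / s ≤ K / 1 := by
      apply div_le_div_of_nonneg_left (Nat.cast_nonneg K) one_pos hs
    linarith
  exact ⟨δ, h0, h1, key _ h2, key _ h3⟩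

theorem p_ALL (hLMB : Stmt_LMB) (hPHS : Stmt_PHS) (hCT1 : Stmt_CT1) (hSPT : Stmt_SPT)
    (hGEO : Stmt_GEO) : Stmt_ALL := by
  intro ρ hρ n d hd hn hB
  obtain ⟨hd2, hc, u, u', hu, hnu, hu', hnu', huu⟩ := hGEO ρ hρ n d hd hn hB
  obtain ⟨r1, r2⟩ := rho_bounds hρ
  have hρ0 : 0 < ρ := by linarith
  obtain ⟨-, hl0, hl2, -, -, -, -, -⟩ := hLMB ρ hρ
  have hlp : 0 < ‖lam ρ‖ := norm_pos_iff.mpr hl0
  refine ⟨fun ζ => ⟨(hn ζ).1, ?_⟩, ?_⟩
  · have h1 := (hn ζ).2
    have h2 : ‖ζ‖ ^ 2 ≤ (d * n ζ) ^ 2 := pow_le_pow_left₀ (norm_nonneg _) h1 2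
    rw [mul_pow] at h2
    exact h2.trans (mul_le_mul_of_nonneg_right hd2 (sq_nonneg _))
  by_cases hcase : d ^ 2 ≤ 1.3243
  · apply ALL_one (by norm_num)
    have hd0 : 0 < d := by linarith
    refine hCT1 ρ hρ n (‖lam ρ‖ * d) (mul_pos hlp hd0) ?_ fun ζ => ?_
    · have h1 : (‖lam ρ‖ * d) ^ 2 < 1 := by
        rw [mul_pow, hl2, one_div, inv_mul_eq_div, div_lt_one hρ0]
        linarith
      have h2 : 0 ≤ ‖lam ρ‖ * d := (mul_pos hlp hd0).le
      nlinarith
    · calc n (lam ρ * ζ) ≤ ‖lam ρ * ζ‖ := (hn _).1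
        _ = ‖lam ρ‖ * ‖ζ‖ := norm_mul _ _
        _ ≤ ‖lam ρ‖ * (d * n ζ) := mul_le_mul_of_nonneg_left (hn ζ).2 hlp.le
        _ = ‖lam ρ‖ * d * n ζ := by ring
  · push Not at hcase
    have hnle : ∀ ζ, n ζ ≤ ‖ζ‖ := fun ζ => (hn ζ).1
    set a₁ := Complex.arg u with ha₁
    set a' := Complex.arg u' with ha'
    set ω := Complex.arg (lam ρ) with hω
    set k₀ : ℤ := ⌊(a' - a₁) / π⌋ with hk₀
    set t : ℝ := a' - a₁ - k₀ * π with ht
    have hπ := Real.pi_pos
    have ht0 : 0 ≤ t := by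
      have := Int.floor_le ((a' - a₁) / π)
      rw [le_div_iff₀ hπ] at this
      rw [ht]; linarith
    have ht1 : t < π := by
      have := Int.lt_floor_add_one ((a' - a₁) / π)
      rw [div_lt_iff₀ hπ, add_mul, one_mul] at this
      rw [ht]; linarith
    -- the scalar product of the two points
    have hcos : |Real.cos t| ≤ 0.5103 := by
      have e1 : u' = Complex.exp ((a' : ℝ) * Complex.I) := by
        have := Complex.norm_mul_exp_arg_mul_I u'
        rw [hu'] at this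
        rw [← this]; simp [ha']
      have e2 : Sc u u' = Real.cos (a' - a₁) := by
        conv_lhs => rw [e1]
        exact ALL_sc hu a'
      rw [ht, ALL_shift, ← e2]
      refine huu.trans ?_
      have h3 : 2 / d ^ 2 ≤ 2 / 1.3243 :=
        div_le_div_of_nonneg_left (by norm_num) (by norm_num) hcase.le
      have h4 : (2 : ℝ) / 1.3243 ≤ 1.5103 := by norm_num
      linarith
    obtain ⟨hcl, hcr⟩ := abs_le.mp hcos
    have hC2 := ALL_cos2
    have hlo : 2 * 0.5173 < t := by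
      by_contra hcon
      push Not at hcon
      have := Real.cos_le_cos_of_nonneg_of_le_pi ht0 (by linarith [Real.pi_gt_three]) hcon
      linarith
    have hhi : t < π - 2 * 0.5173 := by
      by_contra hcon
      push Not at hcon
      have h1 : 0 ≤ π - t := by linarith
      have h2 : π - t ≤ 2 * 0.5173 := by linarith
      have := Real.cos_le_cos_of_nonneg_of_le_pi h1 (by linarith [Real.pi_gt_three]) h2
      rw [Real.cos_pi_sub] at this
      linarith
    -- lower bound for the norm near the touching points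
    have hlow : ∀ v : ℂ, ‖v‖ = 1 → n v = 1 → ∀ φ : ℝ,
        |Real.cos (φ - Complex.arg v)| ≤ n (Complex.exp (φ * Complex.I)) := by
      intro v hv hnv φ
      rw [← ALL_sc hv]
      exact hSPT n hnle v hv hnv _
    have hquot : ∀ φ : ℝ, n (Complex.exp (φ * Complex.I) / lam ρ) =
        ‖lam ρ‖⁻¹ * n (Complex.exp (((φ - ω : ℝ) : ℂ) * Complex.I)) := by
      intro φ
      have e1 : Complex.exp (φ * Complex.I) / lam ρ =
          (‖lam ρ‖⁻¹ : ℝ) • Complex.exp (((φ - ω : ℝ) : ℂ) * Complex.I) := by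
        have h1 := Complex.norm_mul_exp_arg_mul_I (lam ρ)
        rw [← hω] at h1
        rw [div_eq_iff hl0]
        conv_rhs => rw [← h1]
        rw [Complex.real_smul]
        have h2 : ((‖lam ρ‖ : ℝ) : ℂ) ≠ 0 := by exact_mod_cast hlp.ne'
        have h3 : Complex.exp (φ * Complex.I) =
            Complex.exp (((φ - ω : ℝ) : ℂ) * Complex.I) * Complex.exp (ω * Complex.I) := by
          rw [← Complex.exp_add]
          congr 1
          push_cast
          ring
        rw [h3]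
        simp only [norm_mul, Complex.norm_real, norm_norm, Complex.norm_exp_ofReal_mul_I, mul_one]
        push_cast
        field_simp
      rw [e1, map_smul_eq_mul, Real.norm_of_nonneg (inv_nonneg.mpr hlp.le)]
    have hfin : ∀ φ : ℝ, (0.8691 : ℝ) ≤ n (Complex.exp (((φ - ω : ℝ) : ℂ) * Complex.I)) →
        (1 + 0.0002) * n (Complex.exp (φ * Complex.I)) ≤
          n (Complex.exp (φ * Complex.I) / lam ρ) := by
      intro φ h
      rw [hquot]
      have h1 : n (Complex.exp (φ * Complex.I)) ≤ 1 := by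
        refine (hnle _).trans ?_
        rw [Complex.norm_exp_ofReal_mul_I]
      have h2 : (1.0002 : ℝ) * ‖lam ρ‖ ≤ 0.8691 := by
        have h3 : ((1.0002 : ℝ) * ‖lam ρ‖) ^ 2 ≤ 0.8691 ^ 2 := by
          rw [mul_pow, hl2, mul_one_div, div_le_iff₀ hρ0]
          nlinarith
        exact le_of_sq_le_sq h3 (by norm_num)
      rw [inv_mul_eq_div, le_div_iff₀ hlp]
      have h4 : 0 ≤ n (Complex.exp (φ * Complex.I)) := apply_nonneg n _
      calc (1 + 0.0002) * n (Complex.exp (φ * Complex.I)) * ‖lam ρ‖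
          ≤ (1 + 0.0002) * 1 * ‖lam ρ‖ := by gcongr
        _ = 1.0002 * ‖lam ρ‖ := by ring
        _ ≤ _ := h2.trans h
    refine hPHS ρ hρ n 0.995 (by norm_num) (by norm_num) hc (a₁ + ω) (a₁ + t + ω) 0.5173 0.0002
      (by norm_num) (by norm_num) (by linarith) (by linarith) ?_ (38 / 25) (by norm_num) ?_
    · rintro φ ⟨k, hk | hk⟩
      · apply hfin
        refine le_trans ?_ (hlow u hu hnu (φ - ω))
        have e : φ - ω - Complex.arg u = φ - (a₁ + ω) := by rw [← ha₁]; ring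
        rw [e, ← ALL_shift _ k]
        exact ALL_abs hk
      · apply hfin
        refine le_trans ?_ (hlow u' hu' hnu' (φ - ω))
        have e : φ - ω - Complex.arg u' = φ - (a₁ + t + ω) - k₀ * π := by
          rw [← ha', ht]; ring
        rw [e, ALL_shift, ← ALL_shift _ k]
        exact ALL_abs hk
    · rw [lt_div_iff₀ hπ]
      have := Real.pi_lt_d4
      norm_num
      linarith

end Pool.GI
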