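import Pool.Agent.Work.MP_7453a1_gi.Interface

set_option autoImplicit false

/-!
# Block BAR: the barycentric condition for the best ellipse
-/

namespace Pool.GI

open Finset Real
open Pool.Agent.Work.MP_7453a1_nt_norm (IsNorm)
open Pool.Agent.Work.MP_7453a1_nt_sym (Sym)
open Pool.Agent.Work.MP_7453a1_nt_sym.UPAux (Par Lam E LL)
open Pool.Agent.Work.MP_7453a1_nt (L Q)

theorem BAR_cont (n : Seminorm ℝ ℂ) (h : ∀ ζ, n ζ ≤ ‖ζ‖) : Continuous n := by
  have h1 : LipschitzWith 1 n := LipschitzWith.of_dist_le_mul (fun a b => by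
    rw [Real.dist_eq, dist_eq_norm, NNReal.coe_one, one_mul]
    exact (abs_sub_map_le_sub n a b).trans (h _))
  exact h1.continuous

/-- A perturbation lemma on a compact set. -/
theorem BAR_eps (S : Set ℂ) (hS : IsCompact S) (h P : ℂ → ℝ) (hh : Continuous h)
    (hP : Continuous P) (h0 : ∀ u ∈ S, 0 ≤ h u) (h1 : ∀ u ∈ S, h u = 0 → P u < 0) :
    ∃ ε₀ : ℝ, 0 < ε₀ ∧ ∀ ε, 0 < ε → ε ≤ ε₀ → ∀ u ∈ S, ε * P u < h u := by
  have hK : IsCompact (S ∩ {u | 0 ≤ P u}) :=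
    hS.inter_right (isClosed_le continuous_const hP)
  rcases (S ∩ {u | 0 ≤ P u}).eq_empty_or_nonempty with he | hne
  · refine ⟨1, one_pos, fun ε hε _ u hu => ?_⟩
    have h3 : ¬ 0 ≤ P u := fun h' => by
      have h4 : u ∈ S ∩ {u | 0 ≤ P u} := ⟨hu, h'⟩
      rw [he] at h4
      exact h4
    have h2 := h0 u hu
    have h5 : ε * P u < 0 := mul_neg_of_pos_of_neg hε (not_le.1 h3)
    linarith
  · obtain ⟨u₁, hu₁, hmin⟩ := hK.exists_isMinOn hne hh.continuousOn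
    obtain ⟨u₂, hu₂, hmax⟩ := hK.exists_isMaxOn hne hP.continuousOn
    have hpos : 0 < h u₁ := lt_of_le_of_ne (h0 u₁ hu₁.1)
      (fun h' => absurd (h1 u₁ hu₁.1 h'.symm) (not_lt.2 hu₁.2))
    have hP2 : 0 ≤ P u₂ := hu₂.2
    refine ⟨h u₁ / (P u₂ + 1), by positivity, fun ε hε hle u hu => ?_⟩
    by_cases hPu : 0 ≤ P u
    · have h3 : h u₁ ≤ h u := hmin (show u ∈ S ∩ {u | 0 ≤ P u} from ⟨hu, hPu⟩)
      have h4 : P u ≤ P u₂ := hmax (show u ∈ S ∩ {u | 0 ≤ P u} from ⟨hu, hPu⟩)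
      rw [le_div_iff₀ (by linarith)] at hle
      nlinarith
    · have h2 := h0 u hu
      have h5 : ε * P u < 0 := mul_neg_of_pos_of_neg hε (not_le.1 hPu)
      linarith

/-- A linear form of the square is a quadratic form. -/
theorem BAR_form (f : ℂ →L[ℝ] ℝ) (ζ : ℂ) :
    f (ζ ^ 2) = (ζ.re ^ 2 - ζ.im ^ 2) * f 1 + 2 * ζ.re * ζ.im * f Complex.I := by
  have h1 : ζ ^ 2 = (ζ.re ^ 2 - ζ.im ^ 2) • (1 : ℂ) + (2 * ζ.re * ζ.im) • Complex.I := by
    apply Complex.ext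
    · simp [pow_two]
    · simp [pow_two]
      ring
  rw [h1, map_add, map_smul, map_smul, smul_eq_mul, smul_eq_mul]

theorem BAR_compact (n : Seminorm ℝ ℂ) (e : ℝ) :
    IsCompact (closure (convexHull ℝ (Tch n e))) := by
  have hsub : Tch n e ⊆ Metric.closedBall (0 : ℂ) 1 := by
    rintro w ⟨u, hu, -, rfl⟩
    rw [mem_closedBall_zero_iff, norm_pow, hu, one_pow]
  exact (isCompact_closedBall (0 : ℂ) 1).of_isClosed_subset isClosed_closure
    (closure_minimal (convexHull_min hsub (convex_closedBall 0 1)) Metric.isClosed_closedBall)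

theorem p_BAR : Stmt_BAR := by
  classical
  intro n d hd hn hmin
  by_contra hB
  have hdisj : Disjoint (closure (convexHull ℝ (Tch n d))) (closure (convexHull ℝ (Tch n 1))) :=
    Set.disjoint_left.2 (fun c h1 h2 => hB ⟨c, h2, h1⟩)
  obtain ⟨f, a, b, hfa, hab, hfb⟩ := geometric_hahn_banach_compact_closed
    (convex_convexHull ℝ (Tch n d)).closure (BAR_compact n d)
    (convex_convexHull ℝ (Tch n 1)).closure isClosed_closure hdisj
  have hnc : Continuous n := BAR_cont n (fun ζ => (hn ζ).1)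
  obtain ⟨P, hP⟩ : ∃ P : ℂ → ℝ, ∀ ζ, P ζ = f (ζ ^ 2) - a * ‖ζ‖ ^ 2 :=
    ⟨fun ζ => f (ζ ^ 2) - a * ‖ζ‖ ^ 2, fun _ => rfl⟩
  have hPc : Continuous P := by
    have h1 : P = fun ζ => f (ζ ^ 2) - a * ‖ζ‖ ^ 2 := funext hP
    rw [h1]
    fun_prop
  have hS : IsCompact (Metric.sphere (0 : ℂ) 1) := isCompact_sphere 0 1
  have hmem : ∀ u ∈ Metric.sphere (0 : ℂ) 1, ‖u‖ = 1 := fun u hu => mem_sphere_zero_iff_norm.1 hu
  have hpos : ∀ u ∈ Metric.sphere (0 : ℂ) 1, 0 < n u := by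
    intro u hu
    have h1 := (hn u).2
    rw [hmem u hu] at h1
    by_contra h2
    have h3 : n u ≤ 0 := not_lt.1 h2
    nlinarith
  obtain ⟨ε₁, hε₁, h1⟩ := BAR_eps _ hS (fun u => (d * n u) ^ 2 - 1) P (by fun_prop) hPc
    (by
      intro u hu
      have h2 := (hn u).2
      rw [hmem u hu] at h2
      show 0 ≤ (d * n u) ^ 2 - 1
      nlinarith)
    (by
      intro u hu h2
      have h3 : (d * n u) ^ 2 - 1 = 0 := h2
      have h4 := (hn u).2
      rw [hmem u hu] at h4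
      have h5 : d * n u = 1 := by nlinarith
      have h6 : u ^ 2 ∈ closure (convexHull ℝ (Tch n d)) :=
        subset_closure (subset_convexHull ℝ _ ⟨u, hmem u hu, h5, rfl⟩)
      have h7 := hfa _ h6
      rw [hP, hmem u hu]
      linarith)
  obtain ⟨ε₂, hε₂, h2⟩ := BAR_eps _ hS (fun u => 1 - (n u) ^ 2) (fun u => -P u) (by fun_prop)
    hPc.neg
    (by
      intro u hu
      have h2 := (hn u).1
      rw [hmem u hu] at h2
      have h3 := hpos u hu
      show 0 ≤ 1 - (n u) ^ 2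
      nlinarith)
    (by
      intro u hu h2
      have h3 : 1 - (n u) ^ 2 = 0 := h2
      have h4 := hpos u hu
      have h5 : 1 * n u = 1 := by nlinarith
      have h6 : u ^ 2 ∈ closure (convexHull ℝ (Tch n 1)) :=
        subset_closure (subset_convexHull ℝ _ ⟨u, hmem u hu, h5, rfl⟩)
      have h7 := hfb _ h6
      show -P u < 0
      rw [hP, hmem u hu]
      linarith)
  obtain ⟨ε, hε⟩ : ∃ ε, ε = min ε₁ ε₂ := ⟨_, rfl⟩
  have hε0 : 0 < ε := by
    rw [hε]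
    exact lt_min hε₁ hε₂
  have hup : ∀ u ∈ Metric.sphere (0 : ℂ) 1, 1 + ε * P u < (d * n u) ^ 2 := by
    intro u hu
    have h3 := h1 ε hε0 (by rw [hε]; exact min_le_left _ _) u hu
    have h4 : ε * P u < (d * n u) ^ 2 - 1 := h3
    linarith
  have hlo : ∀ u ∈ Metric.sphere (0 : ℂ) 1, (n u) ^ 2 < 1 + ε * P u := by
    intro u hu
    have h3 := h2 ε hε0 (by rw [hε]; exact min_le_right _ _) u hu
    have h4 : ε * -P u < 1 - (n u) ^ 2 := h3
    linarith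
  have hSne : (Metric.sphere (0 : ℂ) 1).Nonempty := ⟨1, by simp⟩
  obtain ⟨u₀, hu₀, hmax⟩ := hS.exists_isMaxOn hSne
    (f := fun u => (1 + ε * P u) / (n u) ^ 2) (by
      apply ContinuousOn.div
      · exact (continuous_const.add (continuous_const.mul hPc)).continuousOn
      · exact (hnc.pow 2).continuousOn
      · intro u hu
        exact pow_ne_zero 2 (hpos u hu).ne')
  obtain ⟨M₀, hM₀⟩ : ∃ M₀, M₀ = (1 + ε * P u₀) / (n u₀) ^ 2 := ⟨_, rfl⟩
  have hM1 : M₀ < d ^ 2 := by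
    have h3 := hpos u₀ hu₀
    rw [hM₀, div_lt_iff₀ (by positivity)]
    have h4 := hup u₀ hu₀
    rw [mul_pow] at h4
    exact h4
  have hM2 : ∀ u ∈ Metric.sphere (0 : ℂ) 1, 1 + ε * P u ≤ M₀ * (n u) ^ 2 := by
    intro u hu
    have h3 := hpos u hu
    have h4 : (1 + ε * P u) / (n u) ^ 2 ≤ M₀ := by
      rw [hM₀]
      exact hmax hu
    rwa [div_le_iff₀ (by positivity)] at h4
  -- homogeneity
  have hall : ∀ ζ : ℂ, (n ζ) ^ 2 ≤ ‖ζ‖ ^ 2 + ε * P ζ ∧ ‖ζ‖ ^ 2 + ε * P ζ ≤ M₀ * (n ζ) ^ 2 := by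
    intro ζ
    by_cases hζ : ζ = 0
    · rw [hζ, hP]
      simp
    · have hζ' : 0 < ‖ζ‖ := norm_pos_iff.2 hζ
      obtain ⟨u, hu⟩ : ∃ u : ℂ, u = (‖ζ‖⁻¹ : ℝ) • ζ := ⟨_, rfl⟩
      have hζu : ζ = (‖ζ‖ : ℝ) • u := by
        rw [hu, smul_smul, mul_inv_cancel₀ hζ'.ne', one_smul]
      have hu1 : ‖u‖ = 1 := by
        rw [hu, norm_smul, norm_inv, norm_norm, inv_mul_cancel₀ hζ'.ne']
      have huS : u ∈ Metric.sphere (0 : ℂ) 1 := mem_sphere_zero_iff_norm.2 hu1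
      have hn1 : n ζ = ‖ζ‖ * n u := by
        conv_lhs => rw [hζu]
        rw [map_smul_eq_mul, norm_norm]
      have hP1 : P ζ = ‖ζ‖ ^ 2 * P u := by
        have h3 : ζ ^ 2 = (‖ζ‖ ^ 2 : ℝ) • u ^ 2 := by
          conv_lhs => rw [hζu]
          rw [smul_pow]
        rw [hP, hP, hu1]
        rw [h3, map_smul, smul_eq_mul]
        ring
      have h3 := hlo u huS
      have h4 := hM2 u huS
      rw [hn1, hP1]
      constructor
      · nlinarith [mul_le_mul_of_nonneg_left h3.le (sq_nonneg ‖ζ‖)]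
      · nlinarith [mul_le_mul_of_nonneg_left h4 (sq_nonneg ‖ζ‖)]
  have hfin := hmin (1 - ε * a + ε * f 1) (ε * f Complex.I) (1 - ε * a - ε * f 1) 1 M₀ one_pos
    (by
      intro ζ
      have h3 : (1 - ε * a + ε * f 1) * ζ.re ^ 2 + 2 * (ε * f Complex.I) * ζ.re * ζ.im +
          (1 - ε * a - ε * f 1) * ζ.im ^ 2 = ‖ζ‖ ^ 2 + ε * P ζ := by
        rw [hP, BAR_form, Complex.sq_norm, Complex.normSq_apply]
        ring
      rw [h3, one_mul]
      exact hall ζ)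
  linarith

end Pool.GI
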