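import Pool.Agent.Work.MP_7453a1_gi.Interface

set_option autoImplicit false

namespace Pool.GI

open Finset Real
open Pool.Agent.Work.MP_7453a1_nt_norm (IsNorm)
open Pool.Agent.Work.MP_7453a1_nt_sym (Sym)
open Pool.Agent.Work.MP_7453a1_nt_sym.UPAux (Par Lam E LL)
open Pool.Agent.Work.MP_7453a1_nt (L Q)

/-- a binary quadratic form -/
def BEL_P (p q r : ℝ) (z : V) : ℝ := p * z 0 ^ 2 + 2 * q * z 0 * z 1 + r * z 1 ^ 2

/-- the forms between `N ^ 2` and `D N ^ 2` -/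
def BEL_S (N : Seminorm ℝ V) : Set (ℝ × ℝ × ℝ × ℝ) :=
  {x | ∀ z : V, N z ^ 2 ≤ BEL_P x.2.1 x.2.2.1 x.2.2.2 z ∧
    BEL_P x.2.1 x.2.2.1 x.2.2.2 z ≤ x.1 * N z ^ 2}

theorem BEL_closed (N : Seminorm ℝ V) : IsClosed (BEL_S N) := by
  have h : BEL_S N = ⋂ z : V, ({x : ℝ × ℝ × ℝ × ℝ | N z ^ 2 ≤ BEL_P x.2.1 x.2.2.1 x.2.2.2 z} ∩
      {x : ℝ × ℝ × ℝ × ℝ | BEL_P x.2.1 x.2.2.1 x.2.2.2 z ≤ x.1 * N z ^ 2}) := by
    ext x
    simp [BEL_S]
  rw [h]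
  refine isClosed_iInter fun z => IsClosed.inter (isClosed_le ?_ ?_) (isClosed_le ?_ ?_) <;>
    first | fun_prop | (unfold BEL_P; fun_prop)

theorem BEL_nonempty (N : Seminorm ℝ V) (hN : IsNorm N) : (BEL_S N).Nonempty := by
  obtain ⟨c, hc, hlow⟩ := Pool.Agent.Work.MP_7453a1_nt_norm.lower hN
  obtain ⟨a, ha⟩ : ∃ a : ℝ, a = N ![1, 0] := ⟨_, rfl⟩
  obtain ⟨b, hb⟩ : ∃ b : ℝ, b = N ![0, 1] := ⟨_, rfl⟩
  have ha0 : 0 ≤ a := by rw [ha]; exact apply_nonneg N _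
  have hb0 : 0 ≤ b := by rw [hb]; exact apply_nonneg N _
  refine ⟨(2 * (a ^ 2 + b ^ 2) / c ^ 2, a ^ 2 + b ^ 2, 0, a ^ 2 + b ^ 2), fun z => ?_⟩
  have h1 : N z ≤ |z 0| * a + |z 1| * b := by
    have h2 : z = z 0 • (![1, 0] : V) + z 1 • (![0, 1] : V) := by
      funext i
      fin_cases i <;> simp
    calc N z = N (z 0 • (![1, 0] : V) + z 1 • (![0, 1] : V)) := by rw [← h2]
      _ ≤ N (z 0 • (![1, 0] : V)) + N (z 1 • (![0, 1] : V)) := map_add_le_add N _ _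
      _ = |z 0| * a + |z 1| * b := by
          rw [map_smul_eq_mul, map_smul_eq_mul, Real.norm_eq_abs, Real.norm_eq_abs, ha, hb]
  have h2 : 0 ≤ N z := apply_nonneg N z
  have h3 : N z ^ 2 ≤ (a ^ 2 + b ^ 2) * (z 0 ^ 2 + z 1 ^ 2) := by
    have h4 : N z ^ 2 ≤ (|z 0| * a + |z 1| * b) ^ 2 := pow_le_pow_left₀ h2 h1 2
    have h5 : |z 0| ^ 2 = z 0 ^ 2 := sq_abs _
    have h6 : |z 1| ^ 2 = z 1 ^ 2 := sq_abs _
    nlinarith [sq_nonneg (|z 0| * b - |z 1| * a)]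
  have h4 : z 0 ^ 2 + z 1 ^ 2 ≤ 2 / c ^ 2 * N z ^ 2 := by
    have h5 : c * ‖z‖ ≤ N z := hlow z
    have h6 : |z 0| ≤ ‖z‖ := norm_le_pi_norm z 0
    have h7 : |z 1| ≤ ‖z‖ := norm_le_pi_norm z 1
    have h8 : z 0 ^ 2 ≤ ‖z‖ ^ 2 := by
      rw [← sq_abs]
      exact pow_le_pow_left₀ (abs_nonneg _) h6 2
    have h9 : z 1 ^ 2 ≤ ‖z‖ ^ 2 := by
      rw [← sq_abs]
      exact pow_le_pow_left₀ (abs_nonneg _) h7 2
    have h10 : (c * ‖z‖) ^ 2 ≤ N z ^ 2 := pow_le_pow_left₀ (by positivity) h5 2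
    have h11 : ‖z‖ ^ 2 ≤ N z ^ 2 / c ^ 2 := by
      rw [le_div_iff₀ (by positivity)]
      nlinarith
    have h12 : 2 / c ^ 2 * N z ^ 2 = 2 * (N z ^ 2 / c ^ 2) := by ring
    rw [h12]
    linarith
  have h5 : BEL_P (a ^ 2 + b ^ 2) 0 (a ^ 2 + b ^ 2) z = (a ^ 2 + b ^ 2) * (z 0 ^ 2 + z 1 ^ 2) := by
    unfold BEL_P
    ring
  change N z ^ 2 ≤ BEL_P (a ^ 2 + b ^ 2) 0 (a ^ 2 + b ^ 2) z ∧
    BEL_P (a ^ 2 + b ^ 2) 0 (a ^ 2 + b ^ 2) z ≤ 2 * (a ^ 2 + b ^ 2) / c ^ 2 * N z ^ 2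
  rw [h5]
  refine ⟨h3, ?_⟩
  have h6 := mul_le_mul_of_nonneg_left h4 (show (0 : ℝ) ≤ a ^ 2 + b ^ 2 by positivity)
  refine h6.trans (le_of_eq ?_)
  ring

theorem BEL_e0_pos (N : Seminorm ℝ V) (hN : IsNorm N) : 0 < N ![1, 0] := by
  rcases (apply_nonneg N (![1, 0] : V)).eq_or_lt with h | h
  · exfalso
    have h1 := congrFun (hN _ h.symm) 0
    simp at h1
  · exact h

theorem BEL_one_le (N : Seminorm ℝ V) (hN : IsNorm N) {x : ℝ × ℝ × ℝ × ℝ} (hx : x ∈ BEL_S N) :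
    1 ≤ x.1 := by
  have h1 := (hx ![1, 0]).1.trans (hx ![1, 0]).2
  have h2 := BEL_e0_pos N hN
  have h3 : 0 < N ![1, 0] ^ 2 := by positivity
  by_contra h
  push Not at h
  nlinarith

theorem BEL_min (N : Seminorm ℝ V) (hN : IsNorm N) :
    ∃ x₀ ∈ BEL_S N, ∀ x ∈ BEL_S N, x₀.1 ≤ x.1 := by
  obtain ⟨x₁, hx₁⟩ := BEL_nonempty N hN
  have hcl : IsClosed (BEL_S N ∩ {x | x.1 ≤ x₁.1}) :=
    (BEL_closed N).inter (isClosed_le continuous_fst continuous_const)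
  have hbd : Bornology.IsBounded (BEL_S N ∩ {x | x.1 ≤ x₁.1}) := by
    obtain ⟨a, ha⟩ : ∃ a : ℝ, a = N ![1, 0] ^ 2 := ⟨_, rfl⟩
    obtain ⟨b, hb⟩ : ∃ b : ℝ, b = N ![0, 1] ^ 2 := ⟨_, rfl⟩
    obtain ⟨c, hc⟩ : ∃ c : ℝ, c = N ![1, 1] ^ 2 := ⟨_, rfl⟩
    have ha0 : 0 ≤ a := by rw [ha]; positivity
    have hb0 : 0 ≤ b := by rw [hb]; positivity
    have hc0 : 0 ≤ c := by rw [hc]; positivity
    refine (Metric.isBounded_closedBall (x := (0 : ℝ × ℝ × ℝ × ℝ))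
      (r := x₁.1 * (1 + a + b + c))).subset ?_
    rintro ⟨D, p, q, r⟩ ⟨hx, hD⟩
    have hD1 : D ≤ x₁.1 := hD
    have h1 : 1 ≤ D := BEL_one_le N hN hx
    have hp := hx ![1, 0]
    have hr := hx ![0, 1]
    have hq := hx ![1, 1]
    simp only [BEL_P, Matrix.cons_val_zero, Matrix.cons_val_one, ← ha, ← hb, ← hc] at hp hr hq
    have k1 : D * a ≤ x₁.1 * a := mul_le_mul_of_nonneg_right hD1 ha0
    have k2 : D * b ≤ x₁.1 * b := mul_le_mul_of_nonneg_right hD1 hb0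
    have k3 : D * c ≤ x₁.1 * c := mul_le_mul_of_nonneg_right hD1 hc0
    have k4 : x₁.1 * (1 + a + b + c) = x₁.1 + x₁.1 * a + x₁.1 * b + x₁.1 * c := by ring
    rw [mem_closedBall_zero_iff, norm_prod_le_iff, norm_prod_le_iff, norm_prod_le_iff, k4]
    simp only [Real.norm_eq_abs]
    obtain ⟨hp1, hp2⟩ := hp
    obtain ⟨hr1, hr2⟩ := hr
    obtain ⟨hq1, hq2⟩ := hq
    have m1 : 0 ≤ x₁.1 * a := by nlinarith
    have m2 : 0 ≤ x₁.1 * b := by nlinarith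
    have m3 : 0 ≤ x₁.1 * c := by nlinarith
    refine ⟨abs_le.2 ⟨by linarith, by linarith⟩, abs_le.2 ⟨by linarith, by linarith⟩,
      abs_le.2 ⟨by linarith, by linarith⟩, abs_le.2 ⟨by linarith, by linarith⟩⟩
  have hK : IsCompact (BEL_S N ∩ {x | x.1 ≤ x₁.1}) := Metric.isCompact_of_isClosed_isBounded hcl hbd
  have hx₁' : x₁ ∈ {x : ℝ × ℝ × ℝ × ℝ | x.1 ≤ x₁.1} := le_refl x₁.1
  obtain ⟨x₀, hx₀, hmin⟩ := hK.exists_isMinOn ⟨x₁, hx₁, hx₁'⟩ continuous_fst.continuousOn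
  refine ⟨x₀, hx₀.1, fun x hx => ?_⟩
  by_cases h : x.1 ≤ x₁.1
  · exact hmin ⟨hx, h⟩
  · exact hx₀.2.trans (le_of_lt (not_le.1 h))

/-- the linear map `z ↦ (α z₀ + β z₁) + i γ z₁` -/
noncomputable def BEL_A (α β γ : ℝ) : V →ₗ[ℝ] ℂ where
  toFun z := ⟨α * z 0 + β * z 1, γ * z 1⟩
  map_add' x y := by
    apply Complex.ext
    · simp
      ring
    · simp
      ring
  map_smul' c x := by
    apply Complex.ext
    · simp
      ring
    · simp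
      ring

/-- block BEL -/
theorem p_BEL : Stmt_BEL := by
  intro N hN
  obtain ⟨⟨D, p, q, r⟩, hS, hmin⟩ := BEL_min N hN
  have hD1 : 1 ≤ D := BEL_one_le N hN hS
  have hP : ∀ z : V, N z ^ 2 ≤ BEL_P p q r z ∧ BEL_P p q r z ≤ D * N z ^ 2 := hS
  have hpos : ∀ z : V, z ≠ 0 → 0 < BEL_P p q r z := by
    intro z hz
    have h1 : 0 < N z := by
      rcases (apply_nonneg N z).eq_or_lt with h | h
      · exact absurd (hN z h.symm) hz
      · exact h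
    have h2 : 0 < N z ^ 2 := by positivity
    exact h2.trans_le (hP z).1
  have hp : 0 < p := by
    have h1 := hpos ![1, 0] (fun h => by
      have h2 := congrFun h 0
      simp at h2)
    simpa [BEL_P] using h1
  have hs : 0 < r - q ^ 2 / p := by
    have h1 := hpos ![-q / p, 1] (fun h => by
      have h2 := congrFun h 1
      simp at h2)
    have h2 : BEL_P p q r ![-q / p, 1] = r - q ^ 2 / p := by
      simp only [BEL_P, Matrix.cons_val_zero, Matrix.cons_val_one]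
      field_simp
      ring
    rwa [h2] at h1
  obtain ⟨α, hα⟩ : ∃ α : ℝ, α = √p := ⟨_, rfl⟩
  obtain ⟨γ, hγ⟩ : ∃ γ : ℝ, γ = √(r - q ^ 2 / p) := ⟨_, rfl⟩
  obtain ⟨β, hβ⟩ : ∃ β : ℝ, β = q / α := ⟨_, rfl⟩
  have hα0 : 0 < α := by rw [hα]; exact Real.sqrt_pos.2 hp
  have hα2 : α ^ 2 = p := by rw [hα]; exact Real.sq_sqrt hp.le
  have hγ2 : γ ^ 2 = r - q ^ 2 / p := by rw [hγ]; exact Real.sq_sqrt hs.le
  have hαβ : α * β = q := by rw [hβ]; field_simp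
  have hβ2 : β ^ 2 = q ^ 2 / p := by rw [hβ, div_pow, hα2]
  have hnorm : ∀ z : V, ‖BEL_A α β γ z‖ ^ 2 = BEL_P p q r z := by
    intro z
    rw [Complex.sq_norm, Complex.normSq_apply]
    change (α * z 0 + β * z 1) * (α * z 0 + β * z 1) + (γ * z 1) * (γ * z 1) = _
    have h1 : (α * z 0 + β * z 1) * (α * z 0 + β * z 1) + (γ * z 1) * (γ * z 1) =
        α ^ 2 * z 0 ^ 2 + 2 * (α * β) * z 0 * z 1 + (β ^ 2 + γ ^ 2) * z 1 ^ 2 := by ring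
    rw [h1, hα2, hαβ, hβ2, hγ2]
    unfold BEL_P
    ring
  have hinj : Function.Injective (BEL_A α β γ) := by
    rw [← LinearMap.ker_eq_bot, LinearMap.ker_eq_bot']
    intro z hz
    by_contra h
    have h1 := hpos z h
    rw [← hnorm z, hz] at h1
    simp at h1
  let A : V ≃ₗ[ℝ] ℂ := LinearEquiv.ofInjectiveOfFinrankEq (BEL_A α β γ) hinj (by
    rw [Complex.finrank_real_complex]
    simp)
  have hA : ∀ z, A z = BEL_A α β γ z := fun z => rfl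
  have hAn : ∀ z : V, ‖A z‖ ^ 2 = BEL_P p q r z := fun z => by rw [hA, hnorm]
  have hD0 : 0 ≤ D := by linarith
  refine ⟨A, N.comp A.symm.toLinearMap, √D, ?_, fun z => ?_, fun ζ => ⟨?_, ?_⟩, ?_⟩
  · rw [← Real.sqrt_one]
    exact Real.sqrt_le_sqrt hD1
  · change N z = N (A.symm (A z))
    rw [LinearEquiv.symm_apply_apply]
  · change N (A.symm ζ) ≤ ‖ζ‖
    have h1 := (hP (A.symm ζ)).1
    rw [← hAn, LinearEquiv.apply_symm_apply] at h1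
    exact (pow_le_pow_iff_left₀ (apply_nonneg N _) (norm_nonneg _) two_ne_zero).1 h1
  · change ‖ζ‖ ≤ √D * N (A.symm ζ)
    have h1 := (hP (A.symm ζ)).2
    rw [← hAn, LinearEquiv.apply_symm_apply] at h1
    have h2 : (√D * N (A.symm ζ)) ^ 2 = D * N (A.symm ζ) ^ 2 := by
      rw [mul_pow, Real.sq_sqrt hD0]
    rw [← h2] at h1
    exact (pow_le_pow_iff_left₀ (norm_nonneg _)
      (mul_nonneg (Real.sqrt_nonneg _) (apply_nonneg N _)) two_ne_zero).1 h1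
  · intro p' q' r' m₀ M₀ hm₀ hF
    rw [Real.sq_sqrt hD0]
    have h1 : (M₀ / m₀, p' * α ^ 2 / m₀, (p' * α * β + q' * α * γ) / m₀,
        (p' * β ^ 2 + 2 * q' * β * γ + r' * γ ^ 2) / m₀) ∈ BEL_S N := by
      intro z
      have h2 := hF (A z)
      have h3 : (N.comp A.symm.toLinearMap) (A z) = N z := by
        change N (A.symm (A z)) = N z
        rw [LinearEquiv.symm_apply_apply]
      have h4 : (A z).re = α * z 0 + β * z 1 := rfl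
      have h5 : (A z).im = γ * z 1 := rfl
      rw [h3, h4, h5] at h2
      have h6 : BEL_P (p' * α ^ 2 / m₀) ((p' * α * β + q' * α * γ) / m₀)
          ((p' * β ^ 2 + 2 * q' * β * γ + r' * γ ^ 2) / m₀) z =
          (p' * (α * z 0 + β * z 1) ^ 2 + 2 * q' * (α * z 0 + β * z 1) * (γ * z 1) +
            r' * (γ * z 1) ^ 2) / m₀ := by
        unfold BEL_P
        field_simp
        ring
      change N z ^ 2 ≤ BEL_P (p' * α ^ 2 / m₀) ((p' * α * β + q' * α * γ) / m₀)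
          ((p' * β ^ 2 + 2 * q' * β * γ + r' * γ ^ 2) / m₀) z ∧
        BEL_P (p' * α ^ 2 / m₀) ((p' * α * β + q' * α * γ) / m₀)
          ((p' * β ^ 2 + 2 * q' * β * γ + r' * γ ^ 2) / m₀) z ≤ M₀ / m₀ * N z ^ 2
      rw [h6]
      constructor
      · rw [le_div_iff₀ hm₀]
        linarith [h2.1]
      · rw [div_mul_eq_mul_div]
        exact div_le_div_of_nonneg_right h2.2 hm₀.le
    have h7 : D ≤ M₀ / m₀ := hmin _ h1
    rwa [le_div_iff₀ hm₀] at h7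

end Pool.GI
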