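import Pool.Agent.Work.MP_7453a1_gi.Interface

set_option autoImplicit false

namespace Pool.GI

open Finset Real
open Pool.Agent.Work.MP_7453a1_nt_norm (IsNorm)
open Pool.Agent.Work.MP_7453a1_nt_sym (Sym)
open Pool.Agent.Work.MP_7453a1_nt_sym.UPAux (Par Lam E LL)
open Pool.Agent.Work.MP_7453a1_nt (L Q)

theorem CHN_neg (ρ : ℝ) (v : ℤ × ℤ × ℤ) : Ec ρ (-v) = -Ec ρ v := by
  obtain ⟨x, y, z⟩ := v
  simp only [Ec, Prod.neg_mk]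
  push_cast
  ring

theorem CHN_excl (n : Seminorm ℝ ℂ) (δ : ℝ) (hδ : 0 < δ) (ζ μ ε : ℂ) (hpos : 0 < n ζ)
    (hg : (1 + δ) * n ζ ≤ n (ζ / μ)) (he : ε = μ⁻¹ ∨ ε = -μ⁻¹)
    (hle : n (ζ * ε) ≤ (1 + δ / 2) * n ζ) : False := by
  have h1 : n (ζ * ε) = n (ζ / μ) := by
    rcases he with h | h
    · rw [h, div_eq_mul_inv]
    · rw [h, mul_neg, map_neg_eq_map, div_eq_mul_inv]
  rw [h1] at hle
  have h2 : 0 < δ * n ζ := mul_pos hδ hpos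
  linarith

theorem p_CHN (hLMB : Stmt_LMB) (hSML : Stmt_SML) : Stmt_CHN := by
  intro ρ hρ n hTwo δ hδ hδ1 ζ hζ hGood v hL hn
  obtain ⟨-, -, -, -, -, hQ, hE1, hE2⟩ := hLMB ρ hρ
  obtain ⟨hg1, hg2⟩ := hGood
  have hnn : 0 ≤ n ζ := apply_nonneg n ζ
  have hzpos : 0 < ‖ζ‖ := norm_pos_iff.mpr hζ
  have hpos : 0 < n ζ := by
    rcases eq_or_lt_of_le hnn with h | h
    · exfalso
      have h1 := (hTwo ζ).2
      rw [← h] at h1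
      have h2 : 0 < ‖ζ‖ ^ 2 := by positivity
      linarith
    · exact h
  have hQle : Q ρ v.1 v.2.1 v.2.2 ≤ 2.03 := by
    rw [← hQ v]
    have h1 := (hTwo (ζ * Ec ρ v)).2
    have h2 : n (ζ * Ec ρ v) ^ 2 ≤ ((1 + δ / 2) * n ζ) ^ 2 :=
      pow_le_pow_left₀ (apply_nonneg n _) hn 2
    have h3 : n ζ ^ 2 ≤ ‖ζ‖ ^ 2 := pow_le_pow_left₀ hnn (hTwo ζ).1 2
    have h4 : (1 + δ / 2) ^ 2 ≤ 1.011 := by nlinarith
    have h5 : ((1 + δ / 2) * n ζ) ^ 2 ≤ 1.011 * ‖ζ‖ ^ 2 := by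
      rw [mul_pow]
      exact mul_le_mul h4 h3 (sq_nonneg _) (by norm_num)
    rw [norm_mul, mul_pow] at h1
    have h6 : ‖ζ‖ ^ 2 * ‖Ec ρ v‖ ^ 2 ≤ ‖ζ‖ ^ 2 * 2.03 := by nlinarith [sq_nonneg ‖ζ‖]
    exact le_of_mul_le_mul_left h6 (by positivity)
  have hcases := hSML ρ hρ v.1 v.2.1 v.2.2 hL hQle
  have hv : v = (v.1, v.2.1, v.2.2) := rfl
  have e1 : Ec ρ (1, 0, -1) = -(lam ρ)⁻¹ := by
    rw [← hE1, ← CHN_neg]
    rfl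
  have e2 : Ec ρ (-1, -1, 1) = -(lam ρ ^ 2)⁻¹ := by
    rw [← hE2, ← CHN_neg]
    rfl
  rw [← hv] at hcases
  rcases hcases with h | h | h | h | h | h | h
  · exact Or.inl h
  · exact Or.inr (Or.inl h)
  · exact Or.inr (Or.inr h)
  · rw [h, hE1] at hn
    exact (CHN_excl n δ hδ ζ (lam ρ) _ hpos hg1 (Or.inl rfl) hn).elim
  · rw [h, e1] at hn
    exact (CHN_excl n δ hδ ζ (lam ρ) _ hpos hg1 (Or.inr rfl) hn).elim
  · rw [h, hE2] at hn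
    exact (CHN_excl n δ hδ ζ (lam ρ ^ 2) _ hpos hg2 (Or.inl rfl) hn).elim
  · rw [h, e2] at hn
    exact (CHN_excl n δ hδ ζ (lam ρ ^ 2) _ hpos hg2 (Or.inr rfl) hn).elim

end Pool.GI
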