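import Pool.Agent.Work.MP_7453a1_gi.Interface

/-!
# MP_7453a1_nt, best ellipse: block EQD (helper40)
-/

set_option autoImplicit false

namespace Pool.GI

open Finset Real

theorem EQD_den (α : ℝ) (hα : Irrational α) (N : ℕ) :
    ∃ r : ℚ, |α - r| < 1 / (r.den : ℝ) ^ 2 ∧ N < r.den := by
  by_contra hcon
  push Not at hcon
  have hinf := (Real.infinite_rat_abs_sub_lt_one_div_den_sq_iff_irrational α).mpr hα
  apply hinf
  set M : ℤ := ⌈(|α| + 1) * N⌉ with hM
  apply ((Finset.Icc (-M) M ×ˢ Finset.range (N + 1)).image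
    (fun z : ℤ × ℕ => (z.1 : ℚ) / (z.2 : ℚ))).finite_toSet.subset
  intro r hr
  have hr' : |α - r| < 1 / (r.den : ℝ) ^ 2 := hr
  have hd := hcon r hr'
  have hd0 : 0 < r.den := r.den_pos
  have hd1 : (1 : ℝ) ≤ (r.den : ℝ) := by exact_mod_cast hd0
  have h1 : |α - r| < 1 := by
    refine hr'.trans_le ?_
    rw [div_le_one (by positivity)]
    nlinarith
  have h2 : |(r : ℝ)| ≤ |α| + 1 := by
    have : (r : ℝ) = α - (α - r) := by ring
    rw [this]
    exact (abs_sub _ _).trans (by linarith)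
  have h3 : |(r.num : ℝ)| ≤ (|α| + 1) * N := by
    have e1 : (r.num : ℝ) = (r : ℝ) * (r.den : ℝ) := by
      have := Rat.mul_den_eq_num r
      exact_mod_cast this.symm
    rw [e1, abs_mul]
    have h4 : |(r.den : ℝ)| ≤ (N : ℝ) := by
      rw [abs_of_nonneg (by positivity)]
      exact_mod_cast hd
    exact mul_le_mul h2 h4 (abs_nonneg _) (by positivity)
  have h5 : |(r.num : ℝ)| ≤ (M : ℝ) := h3.trans (Int.le_ceil _)
  have h6 : |r.num| ≤ M := by exact_mod_cast h5
  rw [Finset.mem_coe, Finset.mem_image]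
  refine ⟨(r.num, r.den), ?_, Rat.num_div_den r⟩
  rw [Finset.mem_product, Finset.mem_Icc, Finset.mem_range]
  exact ⟨abs_le.mp h6, Nat.lt_succ_of_le hd⟩

theorem EQD_block (α ℓ : ℝ) (r : ℚ) (hr : |α - r| < 1 / (r.den : ℝ) ^ 2) (h1 : ℓ < 1) (x : ℝ) :
    (r.den : ℝ) * ℓ - 3 ≤
      (((range r.den).filter (fun k : ℕ => Int.fract (x + k * α) ≤ ℓ)).card : ℝ) := by
  classical
  set q : ℕ := r.den with hq
  set P : ℤ := r.num with hP
  have hq0 : 0 < q := r.den_pos
  have hqR : (0 : ℝ) < (q : ℝ) := by exact_mod_cast hq0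
  have hcop : IsCoprime P (q : ℤ) := by
    rw [Int.isCoprime_iff_gcd_eq_one]
    have := r.reduced
    rw [Nat.coprime_iff_gcd_eq_one] at this
    rw [Int.gcd]
    exact this
  obtain ⟨u, v, huv⟩ := hcop
  set a : ℝ := 1 - q * x with ha
  set b : ℝ := q * ℓ - 1 - q * x with hb
  set T : Finset ℤ := Finset.Icc ⌈a⌉ ⌊b⌋ with hT
  have hcard : (q : ℝ) * ℓ - 3 ≤ (T.card : ℝ) := by
    rw [hT, Int.card_Icc]
    have e1 : ((⌊b⌋ + 1 - ⌈a⌉ : ℤ) : ℝ) ≤ (((⌊b⌋ + 1 - ⌈a⌉).toNat : ℕ) : ℝ) := by
      exact_mod_cast Int.self_le_toNat _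
    refine le_trans ?_ e1
    push_cast
    have e2 := Int.lt_floor_add_one b
    have e3 := Int.ceil_lt_add_one a
    have e4 : b - a = q * ℓ - 2 := by rw [ha, hb]; ring
    linarith
  have hmem : ∀ t ∈ T, 1 ≤ q * x + t ∧ q * x + t ≤ q * ℓ - 1 := by
    intro t ht
    rw [hT, Finset.mem_Icc] at ht
    have e1 := Int.ceil_le.mp ht.1
    have e2 := Int.le_floor.mp ht.2
    rw [ha] at e1
    rw [hb] at e2
    constructor <;> linarith
  refine hcard.trans ?_
  norm_cast
  apply Finset.card_le_card_of_injOn (fun t => ((t * u) % (q : ℤ)).toNat)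
  · intro t ht
    have ht' := hmem t ht
    have hq0' : (0 : ℤ) < (q : ℤ) := by exact_mod_cast hq0
    set i : ℤ := (t * u) % (q : ℤ) with hi
    have hi0 : 0 ≤ i := Int.emod_nonneg _ hq0'.ne'
    have hi1 : i < q := Int.emod_lt_of_pos _ hq0'
    obtain ⟨w, hw⟩ : ∃ w : ℤ, i * P = t + w * q := by
      have e1 : t * u = i + q * (t * u / q) := by
        rw [hi]
        exact (Int.emod_add_mul_ediv _ _).symm
      refine ⟨-(t * v) - (t * u / q) * P, ?_⟩
      have e2 : i = t * u - q * (t * u / q) := by linarith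
      rw [e2]
      linear_combination t * huv
    have hnat : ((i.toNat : ℕ) : ℝ) = (i : ℝ) := by
      have := Int.toNat_of_nonneg hi0
      exact_mod_cast congrArg (Int.cast : ℤ → ℝ) this
    show i.toNat ∈ ((range q).filter (fun k : ℕ => Int.fract (x + k * α) ≤ ℓ) : Finset ℕ)
    rw [Finset.mem_filter, Finset.mem_range]
    refine ⟨by omega, ?_⟩
    rw [hnat]
    have hr1 : (r : ℝ) * q = P := by
      have := Rat.mul_den_eq_num r
      exact_mod_cast this
    have hr2 : (r : ℝ) = P / q := by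
      rw [← hr1]; field_simp
    set e : ℝ := i * (α - r) with he
    have habs : |e| < 1 / q := by
      rw [he, abs_mul]
      have a1 : |(i : ℝ)| ≤ q := by
        rw [abs_of_nonneg (by exact_mod_cast hi0)]
        exact_mod_cast hi1.le
      calc |(i : ℝ)| * |α - r| ≤ q * |α - r| := mul_le_mul_of_nonneg_right a1 (abs_nonneg _)
        _ < q * (1 / (q : ℝ) ^ 2) := mul_lt_mul_of_pos_left hr hqR
        _ = 1 / q := by field_simp
    have hval : x + i * α = (x + t / q + e) + (w : ℤ) := by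
      have b1 : (i : ℝ) * P = t + w * q := by exact_mod_cast congrArg (Int.cast : ℤ → ℝ) hw
      have b2 : (i : ℝ) * r = t / q + w := by
        rw [hr2]
        field_simp
        linarith [b1]
      rw [he]
      linear_combination b2
    rw [hval, Int.fract_add_intCast]
    have hlow : 0 ≤ x + t / q + e := by
      have c1 : 1 / (q : ℝ) ≤ x + t / q := by
        rw [div_le_iff₀ hqR]
        have : (x + t / q) * q = q * x + t := by field_simp
        rw [this]
        exact ht'.1
      have := (abs_lt.mp habs).1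
      linarith
    have hhigh : x + t / q + e < ℓ := by
      have c1 : x + t / q ≤ ℓ - 1 / (q : ℝ) := by
        have : x + t / q = (q * x + t) / q := by field_simp
        rw [this, div_le_iff₀ hqR]
        have : (ℓ - 1 / (q : ℝ)) * q = q * ℓ - 1 := by field_simp
        rw [this]
        exact ht'.2
      have := (abs_lt.mp habs).2
      linarith
    rw [Int.fract_eq_self.mpr ⟨hlow, hhigh.trans h1⟩]
    exact hhigh.le
  · intro t ht t' ht' htt
    have hq0' : (0 : ℤ) < (q : ℤ) := by exact_mod_cast hq0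
    have e1 : (t * u) % (q : ℤ) = (t' * u) % (q : ℤ) := by
      have a1 := Int.emod_nonneg (t * u) hq0'.ne'
      have a2 := Int.emod_nonneg (t' * u) hq0'.ne'
      have a3 : ((t * u) % (q : ℤ)).toNat = ((t' * u) % (q : ℤ)).toNat := htt
      omega
    have e2 : (q : ℤ) ∣ t' * u - t * u := Int.ModEq.dvd e1
    have e3 : (q : ℤ) ∣ t' - t := by
      have : t' - t = (t' * u - t * u) * P + q * ((t' - t) * v) := by
        linear_combination -(t' - t) * huv
      rw [this]
      exact dvd_add (Dvd.dvd.mul_right e2 _) (dvd_mul_right _ _)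
    have m1 := hmem t ht
    have m2 := hmem t' ht'
    have e4 : |t' - t| < (q : ℤ) := by
      have : |((t' - t : ℤ) : ℝ)| < (q : ℝ) := by
        push_cast
        rw [abs_lt]
        constructor
        · nlinarith [m1.1, m1.2, m2.1, m2.2]
        · nlinarith [m1.1, m1.2, m2.1, m2.2]
      exact_mod_cast this
    have := Int.eq_zero_of_abs_lt_dvd e3 e4
    linarith

theorem EQD_sum (α ℓ : ℝ) (r : ℚ) (hr : |α - r| < 1 / (r.den : ℝ) ^ 2) (h1 : ℓ < 1) (m : ℕ) :
    ∀ x : ℝ, (m : ℝ) * ((r.den : ℝ) * ℓ - 3) ≤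
      (((range (r.den * m)).filter (fun k : ℕ => Int.fract (x + k * α) ≤ ℓ)).card : ℝ) := by
  classical
  induction m with
  | zero => intro x; simp
  | succ m ih =>
    intro x
    have e1 : (((range (r.den * (m + 1))).filter
        (fun k : ℕ => Int.fract (x + k * α) ≤ ℓ)).card : ℝ) =
        (((range r.den).filter (fun k : ℕ => Int.fract (x + k * α) ≤ ℓ)).card : ℝ) +
        (((range (r.den * m)).filter
          (fun k : ℕ => Int.fract ((x + r.den * α) + k * α) ≤ ℓ)).card : ℝ) := by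
      norm_cast
      rw [Finset.card_filter, Finset.card_filter, Finset.card_filter,
        show r.den * (m + 1) = r.den + r.den * m by ring, Finset.sum_range_add]
      congr 1
      refine Finset.sum_congr rfl fun k _ => ?_
      have : x + ((r.den + k : ℕ) : ℝ) * α = x + r.den * α + k * α := by push_cast; ring
      rw [this]
    rw [e1]
    have e2 := EQD_block α ℓ r hr h1 x
    have e3 := ih (x + r.den * α)
    push_cast
    linarith

theorem p_EQD : Stmt_EQD := by
  intro α hα ℓ ε _ h1 hε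
  obtain ⟨r, hr, hN⟩ := EQD_den α hα ⌈3 / ε⌉₊
  have hq : 3 / ε ≤ (r.den : ℝ) := (Nat.le_ceil _).trans (by exact_mod_cast hN.le)
  have hq' : 3 ≤ (r.den : ℝ) * ε := by
    rwa [div_le_iff₀ hε] at hq
  have hq0 : 0 < r.den := r.den_pos
  refine ⟨r.den, fun x K => ?_⟩
  have e1 := EQD_sum α ℓ r hr h1 (K / r.den) x
  have e2 : (((range (r.den * (K / r.den))).filter
      (fun k : ℕ => Int.fract (x + k * α) ≤ ℓ)).card : ℝ) ≤
      (((range K).filter (fun k : ℕ => Int.fract (x + k * α) ≤ ℓ)).card : ℝ) := by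
    norm_cast
    apply Finset.card_le_card
    apply Finset.filter_subset_filter
    apply Finset.range_subset_range.mpr
    exact Nat.mul_div_le K r.den
  refine le_trans ?_ e2
  refine le_trans ?_ e1
  have e3 : (K : ℝ) = r.den * ((K / r.den : ℕ) : ℝ) + ((K % r.den : ℕ) : ℝ) := by
    exact_mod_cast (Nat.div_add_mod K r.den).symm
  have e4 : ((K % r.den : ℕ) : ℝ) ≤ r.den := by
    exact_mod_cast (Nat.mod_lt K hq0).le
  have e5 : (0 : ℝ) ≤ ((K % r.den : ℕ) : ℝ) := by positivity
  have e6 : (0 : ℝ) ≤ ((K / r.den : ℕ) : ℝ) := by positivity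
  set m : ℝ := ((K / r.den : ℕ) : ℝ) with hm
  set s : ℝ := ((K % r.den : ℕ) : ℝ) with hs
  rw [e3]
  have e7 : (ℓ - ε) * s ≤ r.den := by nlinarith
  have e8 : m * 3 ≤ m * (r.den * ε) := mul_le_mul_of_nonneg_left hq' e6
  nlinarith

end Pool.GI
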