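import Pool.Agent.Work.MP_7453a1_gi.Interface

set_option autoImplicit false

/-!
# Block GEO (helper15)
-/

namespace Pool.GI

open Finset Real

theorem GEO_rho (ρ : ℝ) (h : ρ ^ 3 = ρ + 1) : 1.3247 < ρ ∧ ρ < 1.3248 := by
  constructor
  · by_contra hc
    push Not at hc
    nlinarith [sq_nonneg (ρ + 1.3247 / 2), mul_nonneg (sub_nonneg.mpr hc) (sq_nonneg (ρ + 1.3247 / 2))]
  · by_contra hc
    push Not at hc
    nlinarith [sq_nonneg (ρ + 1.3248 / 2), mul_nonneg (sub_nonneg.mpr hc) (sq_nonneg (ρ + 1.3248 / 2))]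

theorem GEO_normSq (z : ℂ) : ‖z‖ ^ 2 = z.re ^ 2 + z.im ^ 2 := by
  rw [Complex.sq_norm, Complex.normSq_apply]; ring

/-- homogeneity -/
theorem GEO_hom (n : Seminorm ℝ ℂ) (t : ℝ) (ht : 0 ≤ t) (z : ℂ) : n ((t : ℂ) * z) = t * n z := by
  have h := map_smul_eq_mul n t z
  rw [Real.norm_of_nonneg ht] at h
  rw [← h]
  congr 1

/-- the angle estimate -/
theorem GEO_ang (ζ v η : ℂ) (hζ : ‖ζ‖ = 1) (hv : ‖v‖ = 1) (hη : ‖η‖ = 1) (h1 : |Sc v ζ| ≤ 0.1629)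
    (h2 : |Sc η ζ| ≤ 0.1625) : 0.947 ≤ |Sc v η| := by
  have e1 : ζ.re ^ 2 + ζ.im ^ 2 = 1 := by rw [← GEO_normSq, hζ]; norm_num
  have e2 : v.re ^ 2 + v.im ^ 2 = 1 := by rw [← GEO_normSq, hv]; norm_num
  have e3 : η.re ^ 2 + η.im ^ 2 = 1 := by rw [← GEO_normSq, hη]; norm_num
  set a := Sc v ζ with ha
  set b := Sc η ζ with hb
  set a' := v.re * ζ.im - v.im * ζ.re with ha'
  set b' := η.re * ζ.im - η.im * ζ.re with hb'
  have f1 : a ^ 2 + a' ^ 2 = 1 := by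
    have : a ^ 2 + a' ^ 2 = (v.re ^ 2 + v.im ^ 2) * (ζ.re ^ 2 + ζ.im ^ 2) := by
      rw [ha, ha']; unfold Sc; ring
    rw [this, e1, e2]; norm_num
  have f2 : b ^ 2 + b' ^ 2 = 1 := by
    have : b ^ 2 + b' ^ 2 = (η.re ^ 2 + η.im ^ 2) * (ζ.re ^ 2 + ζ.im ^ 2) := by
      rw [hb, hb']; unfold Sc; ring
    rw [this, e1, e3]; norm_num
  have f3 : Sc v η = a * b + a' * b' := by
    have : a * b + a' * b' = (v.re * η.re + v.im * η.im) * (ζ.re ^ 2 + ζ.im ^ 2) := by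
      rw [ha, hb, ha', hb']; unfold Sc; ring
    rw [this, e1, mul_one]; rfl
  have g1 : a ^ 2 ≤ 0.1629 ^ 2 := by
    rw [← sq_abs]; exact pow_le_pow_left₀ (abs_nonneg _) h1 2
  have g2 : b ^ 2 ≤ 0.1625 ^ 2 := by
    rw [← sq_abs]; exact pow_le_pow_left₀ (abs_nonneg _) h2 2
  have g3 : 0.97346 ≤ a' ^ 2 := by norm_num at g1; linarith
  have g4 : 0.97359 ≤ b' ^ 2 := by norm_num at g2; linarith
  have g5 : 0.9735 ^ 2 ≤ (a' * b') ^ 2 := by
    rw [mul_pow]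
    nlinarith
  have g6 : 0.9735 ≤ |a' * b'| := by
    by_contra hc
    push Not at hc
    have := pow_lt_pow_left₀ hc (abs_nonneg _) two_ne_zero
    rw [sq_abs] at this
    linarith
  have g7 : |a * b| ≤ 0.0265 := by
    rw [abs_mul]
    calc |a| * |b| ≤ 0.1629 * 0.1625 := mul_le_mul h1 h2 (abs_nonneg _) (by norm_num)
      _ ≤ 0.0265 := by norm_num
  rw [f3]
  have g8 : |a' * b'| ≤ |a * b + a' * b'| + |a * b| := by
    have := abs_sub (a * b + a' * b') (a * b)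
    have e : a * b + a' * b' - a * b = a' * b' := by ring
    rw [e] at this
    exact this
  linarith

theorem GEO_tri (n : Seminorm ℝ ℂ) (hn : ∀ ζ, n ζ ≤ ‖ζ‖) (v η : ℂ) (hv : ‖v‖ = 1) (hη : ‖η‖ = 1)
    (h : 0.947 ≤ |Sc v η|) (hnv : n v ≤ 0.7625) : n η ≤ 0.9305 := by
  have e2 : v.re ^ 2 + v.im ^ 2 = 1 := by rw [← GEO_normSq, hv]; norm_num
  have e3 : η.re ^ 2 + η.im ^ 2 = 1 := by rw [← GEO_normSq, hη]; norm_num
  have key : ∃ s : ℝ, s * Sc v η = |Sc v η| ∧ s ^ 2 = 1 ∧ |s| = 1 := by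
    rcases le_total 0 (Sc v η) with h0 | h0
    · exact ⟨1, by rw [abs_of_nonneg h0, one_mul], by norm_num, by norm_num⟩
    · exact ⟨-1, by rw [abs_of_nonpos h0]; ring, by norm_num, by norm_num⟩
  obtain ⟨s, hs, hs2, hs1⟩ := key
  have h1 : n η ≤ n ((s * 0.6 : ℝ) • v) + n (η - (s * 0.6 : ℝ) • v) := by
    have := map_add_le_add n ((s * 0.6 : ℝ) • v) (η - (s * 0.6 : ℝ) • v)
    rwa [add_sub_cancel] at this
  have h2 : n ((s * 0.6 : ℝ) • v) ≤ 0.4575 := by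
    rw [map_smul_eq_mul, Real.norm_eq_abs, abs_mul, hs1]
    rw [abs_of_nonneg (by norm_num : (0:ℝ) ≤ 0.6)]
    linarith
  have h3 : ‖η - (s * 0.6 : ℝ) • v‖ ≤ 0.473 := by
    have h4 : ‖η - (s * 0.6 : ℝ) • v‖ ^ 2 ≤ 0.2236 := by
      rw [GEO_normSq]
      have r1 : (η - (s * 0.6 : ℝ) • v).re = η.re - s * 0.6 * v.re := by simp
      have r2 : (η - (s * 0.6 : ℝ) • v).im = η.im - s * 0.6 * v.im := by simp
      rw [r1, r2]
      have r3 : (η.re - s * 0.6 * v.re) ^ 2 + (η.im - s * 0.6 * v.im) ^ 2 =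
          (η.re ^ 2 + η.im ^ 2) + s ^ 2 * 0.36 * (v.re ^ 2 + v.im ^ 2) - 1.2 * (s * Sc v η) := by
        unfold Sc; ring
      rw [r3, e2, e3, hs2, hs]
      linarith
    by_contra hc
    push Not at hc
    nlinarith
  have h5 := hn (η - (s * 0.6 : ℝ) • v)
  linarith

theorem p_GEO (hLMB : Stmt_LMB) (hSPT : Stmt_SPT) (hSEP : Stmt_SEP) : Stmt_GEO := by
  intro ρ hρ n d hd hn hB
  obtain ⟨hρ1, hρ2⟩ := GEO_rho ρ hρ
  obtain ⟨hl3, hl0, hln, hlim, hl2, -, -, -⟩ := hLMB ρ hρ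
  have hρ0 : 0 < ρ := by linarith
  have hle : ∀ ζ, n ζ ≤ ‖ζ‖ := fun ζ => (hn ζ).1
  have hsp := hSPT n hle
  -- part (a)
  have partA : d ^ 2 ≤ 2 ∧ ∃ u u', ‖u‖ = 1 ∧ n u = 1 ∧ ‖u'‖ = 1 ∧ n u' = 1 ∧ |Sc u u'| ≤ 2 / d ^ 2 - 1 := by
    rcases eq_or_lt_of_le hd with hd1 | hd1
    · have hnn : ∀ ζ, n ζ = ‖ζ‖ := by
        intro ζ
        apply le_antisymm (hle ζ)
        have := (hn ζ).2
        rw [← hd1, one_mul] at this
        exact this
      refine ⟨by rw [← hd1]; norm_num, 1, Complex.I, by simp, by rw [hnn]; simp, by simp, by rw [hnn]; simp, ?_⟩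
      rw [← hd1]
      unfold Sc
      simp
    · have hne : (Tch n d).Nonempty := by
        rw [Set.nonempty_iff_ne_empty]
        intro he
        obtain ⟨c, -, hc⟩ := hB
        rw [he, convexHull_empty, closure_empty] at hc
        exact hc
      obtain ⟨w, v, hv, hdv, -⟩ := hne
      have hd0 : 0 < d := by linarith
      have hnv : n v = 1 / d := by
        rw [eq_div_iff hd0.ne', mul_comm]; exact hdv
      have hc1 : 1 / d < 1 := by rw [div_lt_one hd0]; exact hd1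
      obtain ⟨-, u, u', hu, hnu, hu', hnu', hS⟩ := hSEP n d (1 / d) v hle hd hv (by positivity) hc1
        (by rw [div_mul_cancel₀ _ hd0.ne']) hB (fun u hu hnu => by rw [← hnv]; exact hsp u hu hnu v)
      have hS' : |Sc u u'| ≤ 2 / d ^ 2 - 1 := by
        have e : 2 * (1 / d) ^ 2 - 1 = 2 / d ^ 2 - 1 := by rw [div_pow, one_pow]; ring
        rw [← e]; exact hS
      refine ⟨?_, u, u', hu, hnu, hu', hnu', hS'⟩
      have h0 : 0 ≤ 2 / d ^ 2 - 1 := le_trans (abs_nonneg _) hS'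
      have h1 : 1 ≤ 2 / d ^ 2 := by linarith
      rwa [le_div_iff₀ (by positivity), one_mul] at h1
  refine ⟨partA.1, ?_, partA.2⟩
  have hd2 := partA.1
  have hd0 : 0 < d := by linarith
  -- the norm of lam ^ 2
  have hln2 : ‖lam ρ ^ 2‖ = 1 / ρ := by rw [norm_pow, hln]
  have hinv : 1 / ρ ≤ 0.75489 := by
    rw [div_le_iff₀ hρ0]; nlinarith
  -- unit vectors
  have unit : ∀ ζ : ℂ, ‖ζ‖ = 1 → n (lam ρ ^ 2 * ζ) ≤ 0.995 * n ζ := by
    intro ζ hζ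
    by_cases hc : 0.7625 ≤ n ζ
    · have h1 := hle (lam ρ ^ 2 * ζ)
      rw [norm_mul, hln2, hζ, mul_one] at h1
      linarith
    · push Not at hc
      have hdz := (hn ζ).2
      rw [hζ] at hdz
      have hc0d : 1 ≤ 0.7625 * d := by nlinarith
      obtain ⟨⟨v, hv, hdv, hS⟩, -⟩ := hSEP n d 0.7625 ζ hle hd hζ (by norm_num) (by norm_num) hc0d hB
        (fun u hu hnu => (hsp u hu hnu ζ).trans hc.le)
      have hS' : |Sc v ζ| ≤ 0.1629 := hS.trans (by norm_num)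
      have hnv : n v ≤ 0.7625 := by
        by_contra hcc
        push Not at hcc
        nlinarith
      set η : ℂ := (ρ : ℂ) * (lam ρ ^ 2 * ζ) with hηdef
      have hη : ‖η‖ = 1 := by
        rw [hηdef, norm_mul, norm_mul, hln2, hζ, Complex.norm_real, Real.norm_of_nonneg hρ0.le]
        field_simp
      have hre : (lam ρ ^ 2).re = 1 - ρ ^ 2 / 2 := by
        rw [hl2]
        simp [lam]
        have e1 : ((ρ : ℂ) ^ 2).re = ρ ^ 2 := by norm_cast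
        rw [e1]
        ring
      have e1 : ζ.re ^ 2 + ζ.im ^ 2 = 1 := by rw [← GEO_normSq, hζ]; norm_num
      have hSη : Sc η ζ = (ρ - 1) / 2 := by
        have h1 : Sc η ζ = ρ * ((lam ρ ^ 2).re * (ζ.re ^ 2 + ζ.im ^ 2)) := by
          unfold Sc
          rw [hηdef]
          simp only [Complex.mul_re, Complex.mul_im, Complex.ofReal_re, Complex.ofReal_im]
          ring
        rw [h1, e1, hre]
        linarith
      have hSη' : |Sc η ζ| ≤ 0.1625 := by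
        rw [hSη, abs_of_nonneg (by linarith)]
        linarith
      have hang := GEO_ang ζ v η hζ hv hη hS' hSη'
      have hnη := GEO_tri n hle v η hv hη hang hnv
      have hhom : n η = ρ * n (lam ρ ^ 2 * ζ) := GEO_hom n ρ hρ0.le _
      have h1 : n (lam ρ ^ 2 * ζ) ≤ 0.70243 := by
        by_contra hcc
        push Not at hcc
        nlinarith
      have h2 : 0.7071 ≤ n ζ := by
        by_contra hcc
        push Not at hcc
        have hnz : 0 ≤ n ζ := apply_nonneg n ζ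
        have h3 : (1:ℝ) ≤ (d * n ζ) ^ 2 := by nlinarith
        have h4 : (n ζ) ^ 2 < 0.7071 ^ 2 := pow_lt_pow_left₀ hcc hnz two_ne_zero
        rw [mul_pow] at h3
        nlinarith
      linarith
  intro ζ
  by_cases hz : ζ = 0
  · rw [hz, mul_zero, map_zero, mul_zero]
  · have hz0 : 0 < ‖ζ‖ := norm_pos_iff.mpr hz
    have h1 := unit (((‖ζ‖⁻¹ : ℝ) : ℂ) * ζ) (by
      rw [norm_mul, Complex.norm_real, norm_inv, norm_norm, inv_mul_cancel₀ hz0.ne'])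
    have e1 : lam ρ ^ 2 * (((‖ζ‖⁻¹ : ℝ) : ℂ) * ζ) = ((‖ζ‖⁻¹ : ℝ) : ℂ) * (lam ρ ^ 2 * ζ) := by ring
    rw [e1, GEO_hom n _ (by positivity), GEO_hom n _ (by positivity)] at h1
    have h2 : ‖ζ‖ * (‖ζ‖⁻¹ * n (lam ρ ^ 2 * ζ)) ≤ ‖ζ‖ * (0.995 * (‖ζ‖⁻¹ * n ζ)) :=
      mul_le_mul_of_nonneg_left h1 hz0.le
    have e2 : ‖ζ‖ * (‖ζ‖⁻¹ * n (lam ρ ^ 2 * ζ)) = n (lam ρ ^ 2 * ζ) := by
      rw [← mul_assoc, mul_inv_cancel₀ hz0.ne', one_mul]
    have e3 : ‖ζ‖ * (0.995 * (‖ζ‖⁻¹ * n ζ)) = 0.995 * n ζ := by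
      have : ‖ζ‖ * (0.995 * (‖ζ‖⁻¹ * n ζ)) = 0.995 * ((‖ζ‖ * ‖ζ‖⁻¹) * n ζ) := by ring
      rw [this, mul_inv_cancel₀ hz0.ne', one_mul]
    rw [e2, e3] at h2
    exact h2

end Pool.GI
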