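import Pool.Agent.Work.MP_7453a1_gi.Interface

/-!
# MP_7453a1_nt, best ellipse: block IRR (helper20)
-/

set_option autoImplicit false

namespace Pool.GI

open Finset Real
open Pool.Agent.Work.MP_7453a1_nt_sym.UPAux (LL)
open Pool.Agent.Work.MP_7453a1_nt (L Q Nf U zv L_zv L_mul_Q Nf_eq_zero rho_bounds)

theorem IRR_U (ρ : ℝ) (h : lam ρ ^ 3 = lam ρ + 1) (v : ℤ × ℤ × ℤ) :
    Ec ρ (U v) = lam ρ * Ec ρ v := by
  unfold Ec U
  simp only
  push_cast
  linear_combination (-(v.2.2 : ℂ)) * h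

theorem IRR_zv (ρ : ℝ) (h : lam ρ ^ 3 = lam ρ + 1) (k : ℕ) : Ec ρ (zv k) = lam ρ ^ k := by
  rw [Pool.Agent.Work.MP_7453a1_nt_sym.UPAux.zv_iter]
  induction k with
  | zero =>
    unfold Ec
    simp
  | succ k ih => rw [Function.iterate_succ_apply', IRR_U ρ h, ih, pow_succ]; ring

theorem IRR_real (z : ℂ) (P : ℤ) (q : ℕ) (h : Complex.arg z * q = P * π) : (z ^ q).im = 0 := by
  have h1 : z ^ q = ((‖z‖ ^ q : ℝ) : ℂ) * Complex.exp (((P * π : ℝ) : ℂ) * Complex.I) := by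
    conv_lhs => rw [← Complex.norm_mul_exp_arg_mul_I z]
    rw [mul_pow, ← Complex.exp_nat_mul, ← h]
    push_cast
    congr 2
    ring
  rw [h1, Complex.im_ofReal_mul, Complex.exp_ofReal_mul_I_im, Real.sin_int_mul_pi, mul_zero]

theorem p_IRR (hLMB : Stmt_LMB) : Stmt_IRR := by
  intro ρ hρ
  obtain ⟨h3, -, hn, him, hsq, -⟩ := hLMB ρ hρ
  rintro ⟨r, hr⟩
  have hq : (r.den : ℝ) ≠ 0 := by exact_mod_cast r.den_ne_zero
  have h1 : Complex.arg (lam ρ) * r.den = r.num * π := by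
    have h2 : (r : ℝ) * r.den = r.num := by exact_mod_cast Rat.mul_den_eq_num r
    rw [hr] at h2
    have hpi : π ≠ 0 := Real.pi_ne_zero
    rw [← h2]
    field_simp
  have h4 := IRR_real _ _ _ h1
  have h5 := IRR_zv ρ h3 r.den
  rw [← h5] at h4
  set v := zv r.den with hv
  have h6 : (Ec ρ v).im = ((v.2.1 : ℝ) - ρ * v.2.2) * (lam ρ).im := by
    have e : Ec ρ v = (((v.1 : ℝ) - (ρ ^ 2 - 1) * v.2.2 : ℝ) : ℂ) +
        (((v.2.1 : ℝ) - ρ * v.2.2 : ℝ) : ℂ) * lam ρ := by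
      unfold Ec
      rw [hsq]
      push_cast
      ring
    rw [e, Complex.add_im, Complex.ofReal_im, Complex.im_ofReal_mul, zero_add]
  rw [h6] at h4
  have h7 : (v.2.1 : ℝ) - ρ * v.2.2 = 0 := by
    rcases mul_eq_zero.1 h4 with h | h
    · exact h
    · exact absurd h him.ne'
  have h8 : L ρ v.2.1 (-v.2.2) 0 = 0 := by
    unfold L
    push_cast
    linarith
  have h9 := L_mul_Q hρ v.2.1 (-v.2.2) 0
  rw [h8, zero_mul] at h9
  obtain ⟨y0, z0, -⟩ := Nf_eq_zero _ _ _ (by exact_mod_cast h9.symm)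
  have z0' : v.2.2 = 0 := by omega
  have h10 := L_zv hρ r.den
  rw [← hv] at h10
  unfold L at h10
  rw [y0, z0'] at h10
  have h11 : Ec ρ v = (v.1 : ℂ) := by
    unfold Ec
    rw [y0, z0']
    simp
  rw [h11] at h5
  have h12 : ‖lam ρ‖ ^ r.den = ρ ^ r.den := by
    rw [← norm_pow, ← h5, ← h10]
    simp only [Int.cast_zero, zero_mul, add_zero]
    have h13 : (0 : ℝ) ≤ (v.1 : ℝ) := by
      have hr0 : 0 < ρ := by linarith [(rho_bounds hρ).1]
      have h14 := pow_pos hr0 r.den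
      rw [← h10] at h14
      simp only [Int.cast_zero, zero_mul, add_zero] at h14
      exact h14.le
    rw [Complex.norm_intCast, abs_of_nonneg h13]
  have hρ1 : 1 < ρ := by linarith [(rho_bounds hρ).1]
  have h15 : 1 < ρ ^ r.den := one_lt_pow₀ hρ1 r.den_ne_zero
  have h16 : ‖lam ρ‖ ≤ 1 := by
    have h17 : ‖lam ρ‖ ^ 2 ≤ 1 := by
      rw [hn, div_le_one (by linarith)]
      exact hρ1.le
    exact (sq_le_one_iff₀ (norm_nonneg _)).1 h17
  have h18 : ‖lam ρ‖ ^ r.den ≤ 1 := pow_le_one₀ (norm_nonneg _) h16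
  linarith

end Pool.GI
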