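import Pool.Agent.Work.MP_7453a1_gi.Interface

set_option autoImplicit false

namespace Pool.GI

open Finset Real
open Pool.Agent.Work.MP_7453a1_nt (L Q)

theorem LMB_s {ρ : ℝ} (hρ : ρ ^ 3 = ρ + 1) :
    0 < √(3 * ρ ^ 2 - 4) ∧ √(3 * ρ ^ 2 - 4) * √(3 * ρ ^ 2 - 4) = 3 * ρ ^ 2 - 4 := by
  obtain ⟨s1, s2⟩ := Pool.Agent.Work.MP_7453a1_nt.rho_sq_bounds hρ
  have h : 0 < 3 * ρ ^ 2 - 4 := by linarith
  exact ⟨Real.sqrt_pos.mpr h, Real.mul_self_sqrt h.le⟩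

theorem LMB_sq {ρ : ℝ} (hρ : ρ ^ 3 = ρ + 1) : lam ρ ^ 2 = -(ρ * lam ρ) - (ρ ^ 2 - 1) := by
  obtain ⟨h0, h1⟩ := LMB_s hρ
  have hre : (lam ρ).re = -ρ / 2 := rfl
  have him : (lam ρ).im = √(3 * ρ ^ 2 - 4) / 2 := rfl
  have hc : ((ρ : ℂ) ^ 2 - 1) = ((ρ ^ 2 - 1 : ℝ) : ℂ) := by push_cast; ring
  rw [hc, pow_two (lam ρ)]
  apply Complex.ext
  · simp only [Complex.mul_re, Complex.sub_re, Complex.neg_re, Complex.ofReal_re, Complex.ofReal_im, hre, him]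
    set s : ℝ := √(3 * ρ ^ 2 - 4) with hs
    linear_combination (-1 / 4) * h1
  · simp only [Complex.mul_im, Complex.sub_im, Complex.neg_im, Complex.ofReal_re, Complex.ofReal_im, hre, him]
    ring

theorem p_LMB : Stmt_LMB := by
  intro ρ hρ
  obtain ⟨r1, r2⟩ := Pool.Agent.Work.MP_7453a1_nt.rho_bounds hρ
  obtain ⟨h0, h1⟩ := LMB_s hρ
  have hsq := LMB_sq hρ
  have hρc : (ρ : ℂ) ^ 3 = ρ + 1 := by exact_mod_cast congrArg (Complex.ofReal) hρ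
  have hcube : lam ρ ^ 3 = lam ρ + 1 := by
    have h2 : lam ρ ^ 3 = lam ρ * lam ρ ^ 2 := by ring
    rw [h2, hsq]
    have h3 : lam ρ * (-(ρ * lam ρ) - (ρ ^ 2 - 1)) = -ρ * lam ρ ^ 2 - (ρ ^ 2 - 1) * lam ρ := by ring
    rw [h3, hsq]
    linear_combination hρc
  have him : 0 < (lam ρ).im := by
    show 0 < √(3 * ρ ^ 2 - 4) / 2
    linarith
  have hne : lam ρ ≠ 0 := by
    intro h
    rw [h] at him
    simp at him
  refine ⟨hcube, hne, ?_, him, hsq, ?_, ?_, ?_⟩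
  · rw [← Complex.normSq_eq_norm_sq, Complex.normSq_apply]
    show -ρ / 2 * (-ρ / 2) + √(3 * ρ ^ 2 - 4) / 2 * (√(3 * ρ ^ 2 - 4) / 2) = 1 / ρ
    have h4 : -ρ / 2 * (-ρ / 2) + √(3 * ρ ^ 2 - 4) / 2 * (√(3 * ρ ^ 2 - 4) / 2) = ρ ^ 2 - 1 := by
      nlinarith [h1]
    rw [h4, eq_div_iff (by linarith)]
    linear_combination hρ
  · rintro ⟨X, Y, Z⟩
    have h5 : Ec ρ (X, Y, Z) = ((X : ℝ) - (ρ ^ 2 - 1) * Z : ℝ) + ((Y : ℝ) - ρ * Z : ℝ) * lam ρ := by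
      simp only [Ec]
      rw [hsq]
      push_cast
      ring
    rw [← Complex.normSq_eq_norm_sq, Complex.normSq_apply, h5]
    simp only [Complex.add_re, Complex.add_im, Complex.ofReal_re, Complex.ofReal_im, Complex.mul_re, Complex.mul_im,
      zero_mul, sub_zero, add_zero, zero_add]
    have hre : (lam ρ).re = -ρ / 2 := rfl
    have him' : (lam ρ).im = √(3 * ρ ^ 2 - 4) / 2 := rfl
    rw [hre, him']
    unfold Q
    set s : ℝ := √(3 * ρ ^ 2 - 4) with hs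
    have hr4 : ρ ^ 4 = ρ ^ 2 + ρ := by
      have : ρ ^ 4 = ρ * ρ ^ 3 := by ring
      rw [this, hρ]; ring
    have e1 : ((X : ℝ) - (ρ ^ 2 - 1) * Z + (Y - ρ * Z) * (-ρ / 2)) * ((X : ℝ) - (ρ ^ 2 - 1) * Z + (Y - ρ * Z) * (-ρ / 2)) +
        (Y - ρ * Z) * (s / 2) * ((Y - ρ * Z) * (s / 2)) =
        ((X : ℝ) - (ρ ^ 2 - 1) * Z + (Y - ρ * Z) * (-ρ / 2)) ^ 2 + (Y - ρ * Z) ^ 2 * (s * s) / 4 := by ring
    rw [e1, h1]
    linear_combination (- ((Y : ℝ) * Z)) * hρ + ((Z : ℝ) ^ 2) * hr4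
  · refine eq_inv_of_mul_eq_one_left ?_
    simp only [Ec]
    push_cast
    linear_combination hcube
  · refine eq_inv_of_mul_eq_one_left ?_
    simp only [Ec]
    push_cast
    have h4 : lam ρ ^ 4 = lam ρ ^ 2 + lam ρ := by
      have : lam ρ ^ 4 = lam ρ * lam ρ ^ 3 := by ring
      rw [this, hcube]; ring
    linear_combination hcube - h4

end Pool.GI
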