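import Pool.Agent.Work.MP_7453a1_gi.Interface

set_option autoImplicit false

/-! # PHS: phases and records -/

namespace Pool.GI

open Finset Real

theorem PHS_orb (hEQD : Stmt_EQD) (n : Seminorm ℝ ℂ) (ρ δ' c₁ c₂ w s : ℝ) (hw : 0 < w)
    (h1 : 2 * w < c₂ - c₁) (h2 : c₂ - c₁ < π - 2 * w) (hs : 0 < s) (hsw : 1 / s < 4 * w / π)
    (hgood : ∀ φ r : ℝ, 0 < r →
      (∃ k : ℤ, |φ - c₁ - k * π| ≤ w ∨ |φ - c₂ - k * π| ≤ w) →
      Good n ρ δ' (r * Complex.exp (φ * Complex.I)))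
    (μ : ℂ) (r β : ℝ) (hr : 0 < r) (hμ : μ = r * Complex.exp (β * Complex.I))
    (hα : Irrational (β / π)) : Orb n ρ μ s δ' := by
  have hπ := Real.pi_pos
  intro ζ hζ
  set φ₀ := Complex.arg ζ with hφ₀
  have hℓ0 : 0 < 2 * w / π := by positivity
  have hℓ1 : 2 * w / π < 1 := by
    rw [div_lt_one hπ]
    linarith
  have e1 : 1 / (2 * s) = (1 / s) / 2 := by
    field_simp
  have hε : 0 < 2 * w / π - 1 / (2 * s) := by
    have e2 : 4 * w / π = 2 * (2 * w / π) := by ring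
    linarith
  obtain ⟨C, hC⟩ := hEQD (β / π) hα (2 * w / π) _ hℓ0 hℓ1 hε
  refine ⟨2 * C, fun K => ?_⟩
  set T : ℝ → Finset ℕ := fun c => (Finset.range K).filter
    (fun k : ℕ => Int.fract ((φ₀ - c + w) / π + k * (β / π)) ≤ 2 * w / π) with hT
  have hTin : ∀ c, ∀ k ∈ T c, ∃ m : ℤ, |(φ₀ + k * β) - c - m * π| ≤ w := by
    intro c k hk
    have hk2 := (Finset.mem_filter.1 hk).2
    refine ⟨⌊(φ₀ - c + w) / π + k * (β / π)⌋, ?_⟩
    have h3 := Int.fract_nonneg ((φ₀ - c + w) / π + k * (β / π))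
    rw [← Int.self_sub_floor] at hk2 h3
    generalize ⌊(φ₀ - c + w) / π + k * (β / π)⌋ = m at hk2 h3
    have h4 : (φ₀ - c + w) / π + k * (β / π) - m = (φ₀ + k * β - c - m * π + w) / π := by
      field_simp
      ring
    rw [h4] at hk2 h3
    rw [div_le_div_iff_of_pos_right hπ] at hk2
    have h5 : 0 ≤ φ₀ + k * β - c - m * π + w := by
      by_contra h
      push Not at h
      have := div_neg_of_neg_of_pos h hπ
      linarith
    rw [abs_le]
    constructor <;> linarith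
  have hdisj : Disjoint (T c₁) (T c₂) := by
    rw [Finset.disjoint_left]
    intro k hk1 hk2
    obtain ⟨m, hm⟩ := hTin c₁ k hk1
    obtain ⟨m', hm'⟩ := hTin c₂ k hk2
    rw [abs_le] at hm hm'
    rcases le_or_gt m m' with h | h
    · have h3 : (m : ℝ) ≤ m' := by exact_mod_cast h
      have h4 := mul_le_mul_of_nonneg_right h3 hπ.le
      linarith
    · have h3 : (m' : ℝ) + 1 ≤ m := by exact_mod_cast h
      have h4 := mul_le_mul_of_nonneg_right h3 hπ.le
      linarith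
  have hform : ∀ k : ℕ, μ ^ k * ζ = ((r ^ k * ‖ζ‖ : ℝ) : ℂ) *
      Complex.exp (((φ₀ + k * β : ℝ) : ℂ) * Complex.I) := by
    intro k
    have h3 : ((φ₀ + k * β : ℝ) : ℂ) * Complex.I =
        (φ₀ : ℂ) * Complex.I + (k : ℂ) * ((β : ℂ) * Complex.I) := by
      push_cast
      ring
    rw [h3, Complex.exp_add, Complex.exp_nat_mul, hμ, mul_pow]
    conv_lhs => rw [← Complex.norm_mul_exp_arg_mul_I ζ]
    rw [← hφ₀]
    push_cast
    ring
  have hζ0 : 0 < ‖ζ‖ := norm_pos_iff.2 hζ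
  refine ⟨T c₁ ∪ T c₂, ?_, ?_, ?_⟩
  · exact Finset.union_subset (Finset.filter_subset _ _) (Finset.filter_subset _ _)
  · intro k hk
    rw [hform]
    refine hgood _ _ (mul_pos (pow_pos hr k) hζ0) ?_
    rcases Finset.mem_union.1 hk with hk | hk
    · obtain ⟨m, hm⟩ := hTin c₁ k hk
      exact ⟨m, Or.inl hm⟩
    · obtain ⟨m, hm⟩ := hTin c₂ k hk
      exact ⟨m, Or.inr hm⟩
  · rw [Finset.card_union_of_disjoint hdisj]
    have h3 := hC ((φ₀ - c₁ + w) / π) K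
    have h4 := hC ((φ₀ - c₂ + w) / π) K
    rw [sub_sub_cancel, e1] at h3 h4
    push_cast
    have h5 : (K : ℝ) / s = 2 * (1 / s / 2 * K) := by ring
    rw [h5]
    have h6 : (((Finset.range K).filter (fun k : ℕ => Int.fract ((φ₀ - c₁ + w) / π + k * (β / π))
      ≤ 2 * w / π)).card : ℝ) = ((T c₁).card : ℝ) := rfl
    have h7 : (((Finset.range K).filter (fun k : ℕ => Int.fract ((φ₀ - c₂ + w) / π + k * (β / π))
      ≤ 2 * w / π)).card : ℝ) = ((T c₂).card : ℝ) := rfl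
    linarith

theorem p_PHS (hLMB : Stmt_LMB) (hEQD : Stmt_EQD) (hIRR : Stmt_IRR) : Stmt_PHS := by
  intro ρ hρ n θ hθ0 hθ1 hθ c₁ c₂ w δ hδ hw h1 h2 harc s hs hsw
  obtain ⟨-, hl0, -⟩ := hLMB ρ hρ
  have hirr := hIRR ρ hρ
  have hθ' : 0 < 1 / θ - 1 := by
    rw [sub_pos, lt_div_iff₀ hθ0]
    linarith
  set δ' : ℝ := min δ (min (1 / 100) (1 / θ - 1)) with hδ'
  have d0 : 0 < δ' := lt_min hδ (lt_min (by norm_num) hθ')
  have d1 : δ' ≤ δ := min_le_left _ _
  have d2 : δ' ≤ 1 / 100 := (min_le_right _ _).trans (min_le_left _ _)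
  have d3 : δ' ≤ 1 / θ - 1 := (min_le_right _ _).trans (min_le_right _ _)
  have d4 : (1 + δ') * θ ≤ 1 := by
    have h3 : (1 + δ') ≤ 1 / θ := by linarith
    rwa [le_div_iff₀ hθ0] at h3
  have hsc : ∀ (r : ℝ) (z : ℂ), 0 < r → n ((r : ℂ) * z) = r * n z := by
    intro r z hr
    have h3 : (r : ℂ) * z = r • z := (Complex.real_smul).symm
    rw [h3, map_smul_eq_mul, Real.norm_of_nonneg hr.le]
  have hgood : ∀ φ r : ℝ, 0 < r →
      (∃ k : ℤ, |φ - c₁ - k * π| ≤ w ∨ |φ - c₂ - k * π| ≤ w) →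
      Good n ρ δ' (r * Complex.exp (φ * Complex.I)) := by
    intro φ r hr hk
    have h3 := harc φ hk
    constructor
    · rw [mul_div_assoc, hsc r _ hr, hsc r _ hr]
      have h4 : (1 + δ') * n (Complex.exp (φ * Complex.I)) ≤
          (1 + δ) * n (Complex.exp (φ * Complex.I)) :=
        mul_le_mul_of_nonneg_right (by linarith) (apply_nonneg n _)
      have h5 := mul_le_mul_of_nonneg_left (h4.trans h3) hr.le
      linarith
    · set z : ℂ := r * Complex.exp (φ * Complex.I) with hz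
      have h4 := hθ (z / lam ρ ^ 2)
      rw [mul_div_cancel₀ _ (pow_ne_zero 2 hl0)] at h4
      have h5 : 0 ≤ n (z / lam ρ ^ 2) := apply_nonneg n _
      calc (1 + δ') * n z ≤ (1 + δ') * (θ * n (z / lam ρ ^ 2)) :=
            mul_le_mul_of_nonneg_left h4 (by linarith)
        _ = (1 + δ') * θ * n (z / lam ρ ^ 2) := by ring
        _ ≤ 1 * n (z / lam ρ ^ 2) := mul_le_mul_of_nonneg_right d4 h5
        _ = _ := one_mul _
  have hn0 : 0 < ‖lam ρ‖ := norm_pos_iff.2 hl0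
  refine ⟨δ', d0, d2, ?_, ?_⟩
  · exact PHS_orb hEQD n ρ δ' c₁ c₂ w s hw h1 h2 hs hsw hgood _ ‖lam ρ‖ (Complex.arg (lam ρ)) hn0
      (Complex.norm_mul_exp_arg_mul_I _).symm hirr
  · refine PHS_orb hEQD n ρ δ' c₁ c₂ w s hw h1 h2 hs hsw hgood _ ‖lam ρ‖⁻¹
      (-Complex.arg (lam ρ)) (inv_pos.2 hn0) ?_ ?_
    · have h3 : (((-Complex.arg (lam ρ) : ℝ) : ℂ) * Complex.I) =
          -((Complex.arg (lam ρ) : ℂ) * Complex.I) := by
        push_cast
        ring
      rw [h3, Complex.exp_neg]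
      push_cast
      rw [← mul_inv, Complex.norm_mul_exp_arg_mul_I]
    · rw [neg_div]
      exact hirr.neg

end Pool.GI
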