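import Pool.Agent.Work.MP_7453a1_gi.Interface

/-!
# MP_7453a1_nt, best ellipse: block SEP (helper40)
-/

set_option autoImplicit false

namespace Pool.GI

open Finset Real

/-- the unit number at angle `α` from `ζ` -/
noncomputable def SEP_U (ζ : ℂ) (α : ℝ) : ℂ := ζ * Complex.exp (α * Complex.I)

theorem SEP_re (ζ : ℂ) (α : ℝ) : (SEP_U ζ α).re = ζ.re * cos α - ζ.im * sin α := by
  simp [SEP_U, Complex.exp_ofReal_mul_I_re, Complex.exp_ofReal_mul_I_im]

theorem SEP_im (ζ : ℂ) (α : ℝ) : (SEP_U ζ α).im = ζ.re * sin α + ζ.im * cos α := by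
  simp [SEP_U, Complex.exp_ofReal_mul_I_re, Complex.exp_ofReal_mul_I_im]

theorem SEP_sq (ζ : ℂ) (h : ‖ζ‖ = 1) : ζ.re ^ 2 + ζ.im ^ 2 = 1 := by
  have h1 := Complex.sq_norm ζ
  rw [h, Complex.normSq_apply] at h1
  linarith

theorem SEP_norm (ζ : ℂ) (h : ‖ζ‖ = 1) (α : ℝ) : ‖SEP_U ζ α‖ = 1 := by
  rw [SEP_U, norm_mul, h, Complex.norm_exp_ofReal_mul_I, one_mul]

theorem SEP_Sc1 (ζ : ℂ) (h : ‖ζ‖ = 1) (α : ℝ) : Sc (SEP_U ζ α) ζ = cos α := by
  rw [Sc, SEP_re, SEP_im]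
  linear_combination cos α * SEP_sq ζ h

theorem SEP_Sc2 (ζ : ℂ) (h : ‖ζ‖ = 1) (α β : ℝ) :
    Sc (SEP_U ζ α) (SEP_U ζ β) = cos (α - β) := by
  rw [Sc, SEP_re, SEP_im, SEP_re, SEP_im, cos_sub]
  linear_combination (cos α * cos β + sin α * sin β) * SEP_sq ζ h

theorem SEP_double (u v : ℂ) (hu : ‖u‖ = 1) (hv : ‖v‖ = 1) :
    Sc (u ^ 2) (v ^ 2) = 2 * Sc u v ^ 2 - 1 := by
  have h1 := SEP_sq u hu
  have h2 := SEP_sq v hv
  simp only [Sc, pow_two, Complex.mul_re, Complex.mul_im]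
  have h3 : (u.re ^ 2 + u.im ^ 2) * (v.re ^ 2 + v.im ^ 2) = 1 := by rw [h1, h2, one_mul]
  linear_combination -h3

theorem SEP_par (ζ : ℂ) (h : ‖ζ‖ = 1) (u : ℂ) (hu : ‖u‖ = 1) :
    ∃ α : ℝ, 0 ≤ α ∧ α ≤ π ∧ (u = SEP_U ζ α ∨ u = -SEP_U ζ α) := by
  have hζ : ζ ≠ 0 := by
    intro h0
    rw [h0, norm_zero] at h
    exact zero_ne_one h
  set w : ℂ := u / ζ with hw
  have hwn : ‖w‖ = 1 := by rw [hw, norm_div, hu, h, div_one]
  have hwe : w = Complex.exp (Complex.arg w * Complex.I) := by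
    have := Complex.norm_mul_exp_arg_mul_I w
    rw [hwn] at this
    simpa using this.symm
  have huw : u = ζ * w := by rw [hw]; field_simp
  rcases le_or_gt 0 (Complex.arg w) with h0 | h0
  · refine ⟨Complex.arg w, h0, Complex.arg_le_pi w, Or.inl ?_⟩
    rw [SEP_U, ← hwe]
    exact huw
  · refine ⟨Complex.arg w + π, ?_, by linarith, Or.inr ?_⟩
    · have := Complex.neg_pi_lt_arg w
      linarith
    · rw [SEP_U]
      push_cast
      rw [add_mul, Complex.exp_add, Complex.exp_pi_mul_I, ← hwe]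
      rw [huw]
      ring

theorem SEP_cos (t y : ℝ) (hy : 0 ≤ y) (h1 : y ≤ t) (h2 : t ≤ π - y) : |cos t| ≤ cos y := by
  rw [abs_le]
  constructor
  · have := cos_le_cos_of_nonneg_of_le_pi (x := t) (y := π - y) (by linarith) (by linarith) h2
    rw [cos_pi_sub] at this
    exact this
  · exact cos_le_cos_of_nonneg_of_le_pi hy (by linarith) h1

theorem SEP_arc (t c : ℝ) (ht0 : 0 ≤ t) (htp : t ≤ π) (hc0 : 0 < c) (hc1 : c < 1)
    (h : |cos t| ≤ c) : arccos c ≤ t ∧ t ≤ π - arccos c := by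
  obtain ⟨h1, h2⟩ := abs_le.mp h
  have hca : cos (arccos c) = c := cos_arccos (by linarith) (by linarith)
  have ha0 := arccos_nonneg c
  have hap := arccos_le_pi c
  constructor
  · rw [← hca] at h2
    exact (strictAntiOn_cos.le_iff_ge ⟨ht0, htp⟩ ⟨ha0, hap⟩).mp h2
  · have h3 : cos (π - arccos c) ≤ cos t := by
      rw [cos_pi_sub, hca]
      exact h1
    exact (strictAntiOn_cos.le_iff_ge ⟨by linarith, by linarith⟩ ⟨ht0, htp⟩).mp h3

theorem SEP_half1 (p : ℂ) (t : ℝ) (S : Set ℂ) (h : ∀ w ∈ S, t ≤ Sc w p) :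
    ∀ c ∈ closure (convexHull ℝ S), t ≤ Sc c p := by
  have hcl : IsClosed {c : ℂ | t ≤ Sc c p} := by
    apply isClosed_le continuous_const
    unfold Sc
    fun_prop
  have hcv : Convex ℝ {c : ℂ | t ≤ Sc c p} := by
    intro x hx y hy a b ha hb hab
    simp only [Set.mem_ofPred_eq, Sc, Complex.add_re, Complex.add_im, Complex.real_smul,
      Complex.mul_re, Complex.mul_im, Complex.ofReal_re, Complex.ofReal_im] at hx hy ⊢
    have e1 := mul_le_mul_of_nonneg_left hx ha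
    have e2 := mul_le_mul_of_nonneg_left hy hb
    have e3 : a * t + b * t = t := by rw [← add_mul, hab, one_mul]
    have e4 : (a * x.re - 0 * x.im + (b * y.re - 0 * y.im)) * p.re +
        (a * x.im + 0 * x.re + (b * y.im + 0 * y.re)) * p.im =
        a * (x.re * p.re + x.im * p.im) + b * (y.re * p.re + y.im * p.im) := by ring
    rw [e4]
    linarith
  intro c hc
  exact closure_minimal (convexHull_min (fun w hw => h w hw) hcv) hcl hc

theorem SEP_half2 (p : ℂ) (t : ℝ) (S : Set ℂ) (h : ∀ w ∈ S, Sc w p ≤ t) :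
    ∀ c ∈ closure (convexHull ℝ S), Sc c p ≤ t := by
  have h1 := SEP_half1 (-p) (-t) S (by
    intro w hw
    have := h w hw
    simp only [Sc, Complex.neg_re, Complex.neg_im] at this ⊢
    linarith)
  intro c hc
  have := h1 c hc
  simp only [Sc, Complex.neg_re, Complex.neg_im] at this ⊢
  linarith

theorem p_SEP (hSPT : Stmt_SPT) : Stmt_SEP := by
  intro n d c₀ ζ hn hd hζ hc0 hc1 hcd hB hu
  have hd0 : 0 < d := by linarith
  set a₀ : ℝ := arccos c₀ with ha₀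
  have hca : cos a₀ = c₀ := cos_arccos (by linarith) (by linarith)
  have ha0 : 0 < a₀ := arccos_pos.mpr hc1
  have hap : a₀ ≤ π / 2 := arccos_le_pi_div_two.mpr hc0.le
  have hc2 : cos (2 * a₀) = 2 * c₀ ^ 2 - 1 := by rw [cos_two_mul, hca]
  have hncont : Continuous n := by
    apply Seminorm.continuous_of_le (q := normSeminorm ℝ ℂ)
    · exact continuous_norm
    · intro z
      exact hn z
  have hUc : Continuous (SEP_U ζ) := by
    unfold SEP_U
    fun_prop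
  set I : Set ℝ := {α | α ∈ Set.Icc 0 π ∧ n (SEP_U ζ α) = 1} with hI
  set O : Set ℝ := {α | α ∈ Set.Icc 0 π ∧ d * n (SEP_U ζ α) = 1} with hO
  have hIcomp : IsCompact I := by
    apply IsCompact.inter_right isCompact_Icc
    exact isClosed_eq (hncont.comp hUc) continuous_const
  have hneg : ∀ z, n (-z) = n z := fun z => map_neg_eq_map n z
  have hIne : I.Nonempty := by
    obtain ⟨c, hc, -⟩ := hB
    have : (Tch n 1).Nonempty := by
      rw [← convexHull_nonempty_iff (𝕜 := ℝ), ← closure_nonempty_iff]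
      exact ⟨c, hc⟩
    obtain ⟨w, u, hu1, hu2, -⟩ := this
    obtain ⟨α, h0, hp, h | h⟩ := SEP_par ζ hζ u hu1
    · refine ⟨α, ⟨h0, hp⟩, ?_⟩
      rw [h] at hu2; linarith
    · refine ⟨α, ⟨h0, hp⟩, ?_⟩
      rw [h, hneg] at hu2; linarith
  have hOne : O.Nonempty := by
    obtain ⟨c, -, hc⟩ := hB
    have : (Tch n d).Nonempty := by
      rw [← convexHull_nonempty_iff (𝕜 := ℝ), ← closure_nonempty_iff]
      exact ⟨c, hc⟩
    obtain ⟨w, u, hu1, hu2, -⟩ := this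
    obtain ⟨α, h0, hp, h | h⟩ := SEP_par ζ hζ u hu1
    · refine ⟨α, ⟨h0, hp⟩, ?_⟩
      rw [h] at hu2; exact hu2
    · refine ⟨α, ⟨h0, hp⟩, ?_⟩
      rw [h, hneg] at hu2; exact hu2
  -- the arcs
  have hIa : ∀ α ∈ I, a₀ ≤ α ∧ α ≤ π - a₀ := by
    rintro α ⟨⟨h0, hp⟩, h1⟩
    have h2 := hu (SEP_U ζ α) (SEP_norm ζ hζ α) h1
    rw [SEP_Sc1 ζ hζ] at h2
    exact SEP_arc α c₀ h0 hp hc0 hc1 h2
  have hIO : ∀ α ∈ I, ∀ φ ∈ O, a₀ ≤ |α - φ| ∧ |α - φ| ≤ π - a₀ := by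
    rintro α ⟨⟨h0, hp⟩, h1⟩ φ ⟨⟨g0, gp⟩, g1⟩
    have h2 := hSPT n hn (SEP_U ζ α) (SEP_norm ζ hζ α) h1 (SEP_U ζ φ)
    rw [SEP_Sc2 ζ hζ] at h2
    have h3 : n (SEP_U ζ φ) ≤ c₀ := by
      have : n (SEP_U ζ φ) = 1 / d := by
        rw [eq_div_iff hd0.ne']
        linarith
      rw [this, div_le_iff₀ hd0]
      exact hcd
    have h4 : |cos (|α - φ|)| ≤ c₀ := by
      rw [cos_abs]
      exact h2.trans h3
    have h5 : |α - φ| ≤ π := by
      rw [abs_le]
      constructor <;> linarith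
    exact SEP_arc _ c₀ (abs_nonneg _) h5 hc0 hc1 h4
  obtain ⟨α₁, hα₁, hmin⟩ := hIcomp.exists_isMinOn hIne continuousOn_id
  obtain ⟨α₂, hα₂, hmax⟩ := hIcomp.exists_isMaxOn hIne continuousOn_id
  have hmin' : ∀ α ∈ I, α₁ ≤ α := fun α hα => hmin hα
  have hmax' : ∀ α ∈ I, α ≤ α₂ := fun α hα => hmax hα
  have h12 : α₁ ≤ α₂ := hmin' α₂ hα₂
  have hclaim : ∃ φ ∈ O, α₁ + a₀ ≤ φ ∧ φ ≤ α₂ - a₀ := by
    by_contra hcon
    push Not at hcon
    set l : ℝ := α₂ - α₁ with hl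
    set γ : ℝ := (α₁ + α₂) / 2 with hγ
    have hφ : ∀ φ ∈ O, l + 2 * a₀ ≤ 2 * |φ - γ| ∧ 2 * |φ - γ| ≤ 2 * π - (l + 2 * a₀) := by
      intro φ hφ
      obtain ⟨b1, b2⟩ := hIO α₁ hα₁ φ hφ
      obtain ⟨b3, b4⟩ := hIO α₂ hα₂ φ hφ
      have hc := hcon φ hφ
      rw [abs_le] at b2 b4
      rcases le_abs.mp b1 with b1 | b1
      · -- `φ ≤ α₁ - a₀`
        have e1 : |φ - γ| = γ - φ := by
          rw [abs_sub_comm, abs_of_nonneg]
          rw [hγ]; linarith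
        rw [e1, hγ, hl]
        constructor <;> linarith [b4.2]
      · have b5 := hc (by linarith)
        rcases le_abs.mp b3 with b3 | b3
        · exfalso; linarith
        · have e1 : |φ - γ| = φ - γ := by
            rw [abs_of_nonneg]
            rw [hγ]; linarith
          rw [e1, hγ, hl]
          constructor <;> linarith [b2.1]
    have hlp : l + 2 * a₀ ≤ π := by
      obtain ⟨φ, hφO⟩ := hOne
      have := hφ φ hφO
      linarith [this.1, this.2]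
    have hl0 : 0 ≤ l := by rw [hl]; linarith
    have hlt : cos (l + 2 * a₀) < cos l :=
      cos_lt_cos_of_nonneg_of_le_pi hl0 hlp (by linarith)
    obtain ⟨c, hcI, hcO⟩ := hB
    have hγn := SEP_norm ζ hζ γ
    have hdbl : ∀ α : ℝ, 2 * cos (α - γ) ^ 2 - 1 = cos (2 * |α - γ|) := by
      intro α
      rw [cos_two_mul, cos_abs]
    have H1 : cos l ≤ Sc c (SEP_U ζ γ ^ 2) := by
      apply SEP_half1 _ _ _ _ c hcI
      rintro w ⟨u, hu1, hu2, rfl⟩
      rw [SEP_double u _ hu1 hγn]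
      obtain ⟨α, h0, hp, h | h⟩ := SEP_par ζ hζ u hu1
      · have hαI : α ∈ I := ⟨⟨h0, hp⟩, by rw [h] at hu2; linarith⟩
        rw [h, SEP_Sc2 ζ hζ, hdbl]
        have c1 := hmin' α hαI
        have c2 := hmax' α hαI
        have c3 : |α - γ| ≤ l / 2 := by
          rw [abs_le, hγ, hl]
          constructor <;> linarith
        exact cos_le_cos_of_nonneg_of_le_pi (by positivity) (by linarith) (by linarith)
      · have hαI : α ∈ I := ⟨⟨h0, hp⟩, by rw [h, hneg] at hu2; linarith⟩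
        have c0 : Sc u (SEP_U ζ γ) = -cos (α - γ) := by
          rw [← SEP_Sc2 ζ hζ α γ, h]
          simp only [Sc, Complex.neg_re, Complex.neg_im]
          ring
        rw [c0, neg_sq, hdbl]
        have c1 := hmin' α hαI
        have c2 := hmax' α hαI
        have c3 : |α - γ| ≤ l / 2 := by
          rw [abs_le, hγ, hl]
          constructor <;> linarith
        exact cos_le_cos_of_nonneg_of_le_pi (by positivity) (by linarith) (by linarith)
    have hbig : ∀ φ ∈ O, cos (2 * |φ - γ|) ≤ cos (l + 2 * a₀) := by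
      intro φ hφO
      obtain ⟨g1, g2⟩ := hφ φ hφO
      rcases le_or_gt (2 * |φ - γ|) π with g3 | g3
      · exact cos_le_cos_of_nonneg_of_le_pi (by linarith) g3 g1
      · rw [← cos_two_pi_sub (2 * |φ - γ|)]
        exact cos_le_cos_of_nonneg_of_le_pi (by linarith) (by linarith) (by linarith)
    have H2 : Sc c (SEP_U ζ γ ^ 2) ≤ cos (l + 2 * a₀) := by
      apply SEP_half2 _ _ _ _ c hcO
      rintro w ⟨u, hu1, hu2, rfl⟩
      rw [SEP_double u _ hu1 hγn]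
      obtain ⟨α, h0, hp, h | h⟩ := SEP_par ζ hζ u hu1
      · have hαO : α ∈ O := ⟨⟨h0, hp⟩, by rw [h] at hu2; exact hu2⟩
        rw [h, SEP_Sc2 ζ hζ, hdbl]
        exact hbig α hαO
      · have hαO : α ∈ O := ⟨⟨h0, hp⟩, by rw [h, hneg] at hu2; exact hu2⟩
        have c0 : Sc u (SEP_U ζ γ) = -cos (α - γ) := by
          rw [← SEP_Sc2 ζ hζ α γ, h]
          simp only [Sc, Complex.neg_re, Complex.neg_im]
          ring
        rw [c0, neg_sq, hdbl]
        exact hbig α hαO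
    linarith
  obtain ⟨φ, hφO, hφ1, hφ2⟩ := hclaim
  obtain ⟨p1, p2⟩ := hIa α₁ hα₁
  obtain ⟨q1, q2⟩ := hIa α₂ hα₂
  refine ⟨⟨SEP_U ζ φ, SEP_norm ζ hζ φ, hφO.2, ?_⟩, SEP_U ζ α₁, SEP_U ζ α₂, SEP_norm ζ hζ α₁,
    hα₁.2, SEP_norm ζ hζ α₂, hα₂.2, ?_⟩
  · rw [SEP_Sc1 ζ hζ, ← hc2]
    exact SEP_cos φ (2 * a₀) (by linarith) (by linarith) (by linarith)
  · rw [SEP_Sc2 ζ hζ, ← hc2, ← cos_neg, neg_sub]
    exact SEP_cos (α₂ - α₁) (2 * a₀) (by linarith) (by linarith) (by linarith)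

end Pool.GI
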