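import Pool.Agent.Work.MP_7453a1_gi.Interface

set_option autoImplicit false

namespace Pool.GI

open Finset Real

theorem SPC_rho {ρ : ℝ} (h : ρ ^ 3 = ρ + 1) : 1.32471 < ρ ∧ ρ < 1.32472 := by
  constructor
  · by_contra hc
    push Not at hc
    rcases le_or_gt ρ 0 with h0 | h0
    · have h1 : ρ ^ 3 - ρ = 1 := by linarith
      have h2 : ρ * (ρ ^ 2 - 1) = 1 := by linarith [h1, (by ring : ρ * (ρ ^ 2 - 1) = ρ ^ 3 - ρ)]
      nlinarith [sq_nonneg (ρ + 1), sq_nonneg ρ, sq_nonneg (ρ - 1), mul_nonneg (neg_nonneg.mpr h0) (sq_nonneg (ρ + 1)), mul_nonneg (neg_nonneg.mpr h0) (sq_nonneg (ρ + 1 / 2))]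
    · nlinarith [mul_nonneg h0.le (sub_nonneg.mpr hc), mul_nonneg (mul_nonneg h0.le h0.le) (sub_nonneg.mpr hc)]
  · by_contra hc
    push Not at hc
    have h0 : 0 < ρ := by linarith
    nlinarith [mul_nonneg h0.le (sub_nonneg.mpr hc), mul_nonneg (mul_nonneg h0.le h0.le) (sub_nonneg.mpr hc)]

/-- bounds for `q = √(3 ρ² - 4) / 2` -/
theorem SPC_q {ρ : ℝ} (h : ρ ^ 3 = ρ + 1) :
    0.56226 < √(3 * ρ ^ 2 - 4) / 2 ∧ √(3 * ρ ^ 2 - 4) / 2 < 0.5623 ∧
      (√(3 * ρ ^ 2 - 4) / 2) ^ 2 = (3 * ρ ^ 2 - 4) / 4 := by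
  obtain ⟨h1, h2⟩ := SPC_rho h
  have h3 : 1.32471 ^ 2 < ρ ^ 2 := by nlinarith
  have h4 : ρ ^ 2 < 1.32472 ^ 2 := by nlinarith
  have h5 : 0 ≤ 3 * ρ ^ 2 - 4 := by nlinarith
  have h6 : (√(3 * ρ ^ 2 - 4) / 2) ^ 2 = (3 * ρ ^ 2 - 4) / 4 := by
    rw [div_pow, Real.sq_sqrt h5]; norm_num
  have h7 : 0 ≤ √(3 * ρ ^ 2 - 4) / 2 := by positivity
  refine ⟨?_, ?_, h6⟩
  · by_contra hc
    push Not at hc
    nlinarith
  · by_contra hc
    push Not at hc
    nlinarith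

theorem SPC_sin_cos {x : ℝ} (h0 : 0 ≤ x) (h1 : x ≤ 1) :
    x - x ^ 3 / 6 - x ^ 5 / 100 ≤ Real.sin x ∧ Real.cos x ≤ 1 - x ^ 2 / 2 + x ^ 4 * (5 / 96) := by
  have ha : |x| ≤ 1 := by rw [abs_of_nonneg h0]; exact h1
  have hs := Real.sin_bound ha
  have hc := Real.cos_bound ha
  rw [abs_of_nonneg h0] at hs hc
  rw [abs_le] at hs hc
  constructor
  · linarith [hs.1]
  · linarith [hc.2]

/-- the condition on the basic arc -/
theorem SPC_arc {ρ : ℝ} (h : ρ ^ 3 = ρ + 1) {φ : ℝ} (h1 : 0.2842 ≤ φ) (h2 : φ ≤ π / 2 - 0.1644) :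
    (1 + 1 / 10000) * max |Real.cos φ| |Real.sin φ| ≤
      ρ * (ρ / 2 * Real.sin φ + √(3 * ρ ^ 2 - 4) / 2 * Real.cos φ) := by
  obtain ⟨hr1, hr2⟩ := SPC_rho h
  obtain ⟨hq1, hq2, -⟩ := SPC_q h
  set q := √(3 * ρ ^ 2 - 4) / 2 with hq
  have hpi := Real.pi_gt_d6
  have hpi' := Real.pi_lt_d6
  have hx : 0 ≤ Real.cos φ := Real.cos_nonneg_of_mem_Icc ⟨by linarith, by linarith⟩
  have hy : 0 ≤ Real.sin φ := Real.sin_nonneg_of_mem_Icc ⟨by linarith, by linarith⟩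
  rw [abs_of_nonneg hx, abs_of_nonneg hy]
  obtain ⟨s1, c1⟩ := SPC_sin_cos (x := 0.2842) (by norm_num) (by norm_num)
  obtain ⟨s2, c2⟩ := SPC_sin_cos (x := 0.1644) (by norm_num) (by norm_num)
  have hA : 0.877428 < ρ * (ρ / 2) := by nlinarith
  have hB : 0.74483 < ρ * q := by nlinarith
  have hc1 : 0 < Real.cos 0.2842 := Real.cos_pos_of_mem_Ioo ⟨by linarith, by linarith⟩
  have hc2 : 0 < Real.cos 0.1644 := Real.cos_pos_of_mem_Ioo ⟨by linarith, by linarith⟩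
  have hs1 : 0.28003 < Real.sin 0.2842 := by norm_num at s1 ⊢; linarith
  have hc1' : Real.cos 0.2842 < 0.95996 := by norm_num at c1 ⊢; linarith
  have hs2 : 0.16362 < Real.sin 0.1644 := by norm_num at s2 ⊢; linarith
  have hc2' : Real.cos 0.1644 < 0.98653 := by norm_num at c2 ⊢; linarith
  -- `sin (φ - 0.2842) ≥ 0`
  have e1 : Real.cos φ * Real.sin 0.2842 ≤ Real.sin φ * Real.cos 0.2842 := by
    have := Real.sin_nonneg_of_mem_Icc (x := φ - 0.2842) ⟨by linarith, by linarith⟩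
    rw [Real.sin_sub] at this
    linarith
  -- `cos (φ + 0.1644) ≥ 0`
  have e2 : Real.sin φ * Real.sin 0.1644 ≤ Real.cos φ * Real.cos 0.1644 := by
    have := Real.cos_nonneg_of_mem_Icc (x := φ + 0.1644) ⟨by linarith, by linarith⟩
    rw [Real.cos_add] at this
    linarith
  rw [mul_max_of_nonneg _ _ (by norm_num)]
  apply max_le
  · -- `0.2917 cos φ ≤ sin φ`
    have e3 : 0.2917 * Real.cos φ ≤ Real.sin φ := by
      by_contra hc
      push Not at hc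
      nlinarith
    nlinarith
  · have e3 : 0.16585 * Real.sin φ ≤ Real.cos φ := by
      by_contra hc
      push Not at hc
      nlinarith
    nlinarith

theorem p_SPC (hLMB : Stmt_LMB) (hPHS : Stmt_PHS) : Stmt_SPC := by
  intro ρ h n hn
  obtain ⟨-, hl0, hl2, -⟩ := hLMB ρ h
  obtain ⟨hr1, hr2⟩ := SPC_rho h
  obtain ⟨hq1, hq2, hq3⟩ := SPC_q h
  have hpi := Real.pi_gt_d6
  have hpi' := Real.pi_lt_d6
  have hρ0 : 0 < ρ := by linarith
  set q := √(3 * ρ ^ 2 - 4) / 2 with hq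
  have hre : (lam ρ).re = -ρ / 2 := rfl
  have him : (lam ρ).im = q := rfl
  have hns : Complex.normSq (lam ρ) = 1 / ρ := by
    rw [Complex.normSq_eq_norm_sq, hl2]
  have hneg : ∀ z : ℂ, (1 + 1 / 10000) * n z ≤ n (z / lam ρ) → (1 + 1 / 10000) * n (-z) ≤ n (-z / lam ρ) := by
    intro z hz
    rw [neg_div, map_neg_eq_map, map_neg_eq_map]
    exact hz
  have hnI : ∀ z : ℂ, n (z * Complex.I) = n z := by
    intro z
    rw [hn, hn]
    simp [max_comm]
  have hI : ∀ z : ℂ, (1 + 1 / 10000) * n z ≤ n (z / lam ρ) →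
      (1 + 1 / 10000) * n (z * Complex.I) ≤ n (z * Complex.I / lam ρ) := by
    intro z hz
    rw [mul_div_right_comm, hnI, hnI]
    exact hz
  have hbase : ∀ φ : ℝ, |φ - (π / 4 + 0.0599)| ≤ π / 4 - 0.2243 →
      (1 + 1 / 10000) * n (Complex.exp (φ * Complex.I)) ≤ n (Complex.exp (φ * Complex.I) / lam ρ) := by
    intro φ hφ
    rw [abs_le] at hφ
    have h1 := SPC_arc h (φ := φ) (by linarith [hφ.1]) (by linarith [hφ.2])
    rw [← hq] at h1
    rw [hn (Complex.exp (φ * Complex.I)), Complex.exp_ofReal_mul_I_re, Complex.exp_ofReal_mul_I_im]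
    refine le_trans h1 ?_
    rw [hn]
    refine le_trans ?_ (le_max_right _ _)
    refine le_trans ?_ (neg_le_abs _)
    rw [Complex.div_im, Complex.exp_ofReal_mul_I_re, Complex.exp_ofReal_mul_I_im, hre, him, hns]
    apply le_of_eq
    field_simp
    ring
  have hper : ∀ (φ : ℝ) (k : ℤ), (1 + 1 / 10000) * n (Complex.exp (((φ - k * π : ℝ) : ℂ) * Complex.I)) ≤
      n (Complex.exp (((φ - k * π : ℝ) : ℂ) * Complex.I) / lam ρ) →
      (1 + 1 / 10000) * n (Complex.exp (φ * Complex.I)) ≤ n (Complex.exp (φ * Complex.I) / lam ρ) := by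
    intro φ k hk
    have e1 : Complex.exp (φ * Complex.I) =
        Complex.exp (((φ - k * π : ℝ) : ℂ) * Complex.I) * Complex.exp (π * Complex.I) ^ k := by
      rw [← Complex.exp_int_mul, ← Complex.exp_add]
      congr 1
      push_cast
      ring
    rw [Complex.exp_pi_mul_I] at e1
    rcases Int.even_or_odd k with hk2 | hk2
    · rw [hk2.neg_one_zpow, mul_one] at e1
      rw [e1]
      exact hk
    · rw [hk2.neg_one_zpow, mul_neg_one] at e1
      rw [e1]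
      exact hneg _ hk
  refine hPHS ρ h n 0.87 (by norm_num) (by norm_num) ?_ (π / 4 + 0.0599) (3 * π / 4 + 0.0599) (π / 4 - 0.2243)
    (1 / 10000) (by norm_num) (by linarith) (by linarith) (by linarith) ?_ (7 / 5) (by norm_num) ?_
  · intro ζ
    have hm1 : |ζ.re| ≤ n ζ := by rw [hn]; exact le_max_left _ _
    have hm2 : |ζ.im| ≤ n ζ := by rw [hn]; exact le_max_right _ _
    have hl2re : (lam ρ ^ 2).re = 1 - ρ ^ 2 / 2 := by
      rw [sq, Complex.mul_re, hre, him, ← sq q, hq3]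
      ring
    have hl2im : (lam ρ ^ 2).im = -(ρ * q) := by
      rw [sq, Complex.mul_im, hre, him]
      ring
    have hρ2 : 1.7548 < ρ ^ 2 ∧ ρ ^ 2 < 1.75489 := ⟨by nlinarith, by nlinarith⟩
    have hρq : 0 < ρ * q ∧ ρ * q < 0.7449 := ⟨by positivity, by nlinarith⟩
    have hA0 : 0 ≤ 1 - ρ ^ 2 / 2 := by linarith [hρ2.2]
    have hn0 : 0 ≤ n ζ := apply_nonneg n ζ
    have hkey : ∀ u v : ℝ, |u| ≤ n ζ → |v| ≤ n ζ → |(1 - ρ ^ 2 / 2) * u| + |ρ * q * v| ≤ 0.87 * n ζ := by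
      intro u v hu hv
      rw [abs_mul, abs_mul, abs_of_nonneg hA0, abs_of_pos hρq.1]
      have g1 : (1 - ρ ^ 2 / 2) * |u| ≤ (1 - ρ ^ 2 / 2) * n ζ := mul_le_mul_of_nonneg_left hu hA0
      have g2 : ρ * q * |v| ≤ ρ * q * n ζ := mul_le_mul_of_nonneg_left hv hρq.1.le
      have g3 : (1 - ρ ^ 2 / 2 + ρ * q) * n ζ ≤ 0.87 * n ζ := by
        apply mul_le_mul_of_nonneg_right _ hn0
        linarith [hρ2.1, hρq.2]
      linarith
    rw [hn (lam ρ ^ 2 * ζ), Complex.mul_re, Complex.mul_im, hl2re, hl2im]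
    apply max_le
    · have g := hkey ζ.re ζ.im hm1 hm2
      have g1 := abs_sub ((1 - ρ ^ 2 / 2) * ζ.re) (-(ρ * q) * ζ.im)
      have g2 : |-(ρ * q) * ζ.im| = |ρ * q * ζ.im| := by rw [neg_mul, abs_neg]
      linarith
    · have g := hkey ζ.im ζ.re hm2 hm1
      have g1 := abs_add_le ((1 - ρ ^ 2 / 2) * ζ.im) (-(ρ * q) * ζ.re)
      have g2 : |-(ρ * q) * ζ.re| = |ρ * q * ζ.re| := by rw [neg_mul, abs_neg]
      linarith
  · rintro φ ⟨k, hk | hk⟩
    · apply hper φ k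
      apply hbase
      have : φ - k * π - (π / 4 + 0.0599) = φ - (π / 4 + 0.0599) - k * π := by ring
      rw [this]
      exact hk
    · apply hper φ k
      have e1 : Complex.exp (((φ - k * π : ℝ) : ℂ) * Complex.I) =
          Complex.exp (((φ - k * π - π / 2 : ℝ) : ℂ) * Complex.I) * Complex.I := by
        nth_rewrite 3 [← Complex.exp_pi_div_two_mul_I]
        rw [← Complex.exp_add]
        congr 1
        push_cast
        ring
      rw [e1]
      apply hI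
      apply hbase
      have : φ - k * π - π / 2 - (π / 4 + 0.0599) = φ - (3 * π / 4 + 0.0599) - k * π := by ring
      rw [this]
      exact hk
  · rw [lt_div_iff₀ Real.pi_pos]
    norm_num
    linarith

end Pool.GI
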