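import Pool.Agent.Work.MP_7453a1_gi.Interface

/-!
# MP_7453a1_nt, best ellipse: block SPT (helper20)
-/

set_option autoImplicit false

namespace Pool.GI

open Finset Real

theorem SPT_norm (u ζ : ℂ) (t : ℝ) :
    ‖u - t • ζ‖ ^ 2 = ‖u‖ ^ 2 - 2 * t * Sc u ζ + t ^ 2 * ‖ζ‖ ^ 2 := by
  rw [Complex.sq_norm, Complex.sq_norm, Complex.sq_norm, Complex.normSq_apply, Complex.normSq_apply,
    Complex.normSq_apply]
  unfold Sc
  simp only [Complex.sub_re, Complex.sub_im, Complex.real_smul, Complex.mul_re, Complex.mul_im,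
    Complex.ofReal_re, Complex.ofReal_im]
  ring

theorem SPT_one (n : Seminorm ℝ ℂ) (hn : ∀ ζ, n ζ ≤ ‖ζ‖) (u : ℂ) (hu : ‖u‖ = 1) (hnu : n u = 1)
    (ζ : ℂ) : Sc u ζ ≤ n ζ := by
  refine le_of_forall_pos_le_add fun ε hε => ?_
  set t : ℝ := 2 * ε / (‖ζ‖ ^ 2 + 1) with ht
  have hd : 0 < ‖ζ‖ ^ 2 + 1 := by positivity
  have ht0 : 0 < t := by positivity
  have h1 : n u ≤ n (u - t • ζ) + n (t • ζ) := by
    have := map_add_le_add n (u - t • ζ) (t • ζ)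
    rwa [sub_add_cancel] at this
  rw [map_smul_eq_mul, Real.norm_of_nonneg ht0.le, hnu] at h1
  have h2 := hn (u - t • ζ)
  have h3 := SPT_norm u ζ t
  rw [hu] at h3
  have h4 : ‖u - t • ζ‖ ≤ (1 + ‖u - t • ζ‖ ^ 2) / 2 := by
    nlinarith [sq_nonneg (‖u - t • ζ‖ - 1)]
  have h5 : t * Sc u ζ ≤ t * (n ζ + t * ‖ζ‖ ^ 2 / 2) := by
    rw [h3] at h4
    nlinarith
  have h6 : Sc u ζ ≤ n ζ + t * ‖ζ‖ ^ 2 / 2 := le_of_mul_le_mul_left h5 ht0
  have h7 : t * ‖ζ‖ ^ 2 / 2 ≤ ε := by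
    have h8 : t * (‖ζ‖ ^ 2 + 1) = 2 * ε := by
      rw [ht]
      field_simp
    nlinarith
  linarith

theorem p_SPT : Stmt_SPT := by
  intro n hn u hu hnu ζ
  rw [abs_le]
  refine ⟨?_, SPT_one n hn u hu hnu ζ⟩
  have h1 := SPT_one n hn u hu hnu (-ζ)
  rw [map_neg_eq_map] at h1
  have h2 : Sc u (-ζ) = -Sc u ζ := by
    unfold Sc
    simp only [Complex.neg_re, Complex.neg_im]
    ring
  linarith

end Pool.GI
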