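import Pool.Agent.Work.MP_7453a1_gi.Interface

/-!
# MP_7453a1_nt, best ellipse: block SYM (helper20)
-/

set_option autoImplicit false

namespace Pool.GI

open Finset Real
open Pool.Agent.Work.MP_7453a1_nt_norm (IsNorm)
open Pool.Agent.Work.MP_7453a1_nt_sym (Sym)
open Pool.Agent.Work.MP_7453a1_nt_sym.UPAux (Par Lam E LL)

/-- the sixth root of unity -/
noncomputable def SYM_w : ℂ := ⟨1 / 2, √3 / 2⟩

theorem SYM_w_sq : SYM_w * SYM_w = SYM_w - 1 := by
  have h3 : √3 * √3 = 3 := Real.mul_self_sqrt (by norm_num)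
  unfold SYM_w
  apply Complex.ext
  · simp only [Complex.mul_re, Complex.sub_re, Complex.one_re]
    linarith
  · simp only [Complex.mul_im, Complex.sub_im, Complex.one_im]
    ring

theorem SYM_w_norm : ‖SYM_w‖ = 1 := by
  have h3 : √3 * √3 = 3 := Real.mul_self_sqrt (by norm_num)
  have h1 : ‖SYM_w‖ ^ 2 = 1 := by
    rw [Complex.sq_norm, Complex.normSq_apply]
    unfold SYM_w
    simp only
    linarith
  exact (pow_eq_one_iff_of_nonneg (norm_nonneg _) two_ne_zero).1 h1

theorem SYM_lam {ρ a c : ℝ} (P : Par ρ a c) : (a : ℂ) * SYM_w - (c : ℂ) = lam ρ := by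
  have h1 : a * √3 = √(3 * ρ ^ 2 - 4) := by
    symm
    rw [Real.sqrt_eq_iff_mul_self_eq_of_pos (mul_pos P.a0 (by positivity))]
    have h3 : √3 * √3 = 3 := Real.mul_self_sqrt (by norm_num)
    have h2 := P.a2
    calc a * √3 * (a * √3) = a ^ 2 * (√3 * √3) := by ring
      _ = 3 * ρ ^ 2 - 4 := by rw [h3, h2]; ring
  unfold SYM_w lam
  apply Complex.ext
  · simp only [Complex.sub_re, Complex.mul_re, Complex.ofReal_re, Complex.ofReal_im]
    have := P.c2
    linarith
  · simp only [Complex.sub_im, Complex.mul_im, Complex.ofReal_re, Complex.ofReal_im]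
    linarith

theorem p_SYM (hLMB : Stmt_LMB) : Stmt_SYM := by
  intro ρ a c P A
  obtain ⟨-, -, -, -, hsq, -⟩ := hLMB ρ P.hρ
  set R : V →ₗ[ℝ] V :=
    A.symm.toLinearMap ∘ₗ (LinearMap.mulLeft ℝ SYM_w) ∘ₗ A.toLinearMap with hR
  have hAR : ∀ z, A (R z) = SYM_w * A z := fun z => by
    rw [hR]
    simp
  have hLam : ∀ y, A (Lam R a c y) = lam ρ * A y := by
    intro y
    unfold Lam
    rw [map_sub, map_smul, map_smul, hAR, ← SYM_lam P, Complex.real_smul, Complex.real_smul]
    ring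
  refine ⟨R, ⟨?_, ?_⟩, hLam, ?_⟩
  · intro z
    show ‖A (R z)‖ = ‖A z‖
    rw [hAR, norm_mul, SYM_w_norm, one_mul]
  · intro z
    apply A.injective
    rw [hAR, hAR, map_sub, hAR, ← mul_assoc, SYM_w_sq]
    ring
  · intro y v
    unfold E Ec
    rw [map_add, map_smul, map_smul, hLam, hsq, Complex.real_smul, Complex.real_smul]
    push_cast
    ring

end Pool.GI
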