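import Pool.Agent.Work.MP_7453a1_gi.Interface2

/-!
# Upper bounds for `m + n = 3`, all norms: block UPB (helper25)
-/

set_option autoImplicit false

namespace Pool.GI

open Finset Real
open Pool.Agent.Work.MP_7453a1_nt_norm (IsNorm lower)
open Pool.Agent.Work.MP_7453a1_nt_sym (Sym)
open Pool.Agent.Work.MP_7453a1_nt_sym.UPAux
open Pool.Agent.Work.MP_7453a1_nt (L Q Nf U L_mul_Q Nf_eq_zero rho_bounds)
open Pool.Agent.Work.MP_7453a1_nt_two

theorem UPB_pow (lamc : ℂ) (A : V ≃ₗ[ℝ] ℂ) (R : V →ₗ[ℝ] V) (ρ a c : ℝ) (hl : lamc ≠ 0)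
    (h : Sym (NA A) R) (P : Par ρ a c) (hLam : ∀ y, A (Lam R a c y) = lamc * A y) (w : V) (k : ℕ) :
    A (bw R ρ a c w k) = lamc⁻¹ ^ k * A w := by
  induction k with
  | zero => simp [bw]
  | succ k ih =>
    have h1 := hLam (bw R ρ a c w (k + 1))
    rw [Lam_bw h P, ih] at h1
    rw [pow_succ, mul_right_comm, mul_comm _ lamc⁻¹, h1, inv_mul_cancel_left₀ hl]

/-- The number of the records from `k0` on. -/
theorem UPB_count (g : ℕ → Prop) [DecidablePred g] (s C : ℝ) (hs : 0 < s) (k0 : ℕ)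
    (h : ∀ K : ℕ, ∃ S : Finset ℕ, S ⊆ range K ∧ (∀ k ∈ S, g k) ∧ (K : ℝ) / s - C ≤ (S.card : ℝ))
    [DecidablePred fun k => k0 ≤ k ∧ g k] :
    {k | k0 ≤ k ∧ g k}.Infinite ∧
    ∀ j : ℕ, (Nat.nth (fun k => k0 ≤ k ∧ g k) j : ℝ) ≤ s * (j + C + k0) := by
  have hcount : ∀ K : ℕ, (K : ℝ) / s - C - k0 ≤
      (((range K).filter fun k => k0 ≤ k ∧ g k).card : ℝ) := by
    intro K
    obtain ⟨S, hS1, hS2, hS3⟩ := h K
    have h1 : S.card ≤ ((range K).filter fun k => k0 ≤ k ∧ g k).card + k0 := by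
      have h2 : S ⊆ ((range K).filter fun k => k0 ≤ k ∧ g k) ∪ range k0 := by
        intro k hk
        rcases lt_or_ge k k0 with h3 | h3
        · exact mem_union_right _ (mem_range.mpr h3)
        · exact mem_union_left _ (mem_filter.mpr ⟨hS1 hk, h3, hS2 k hk⟩)
      have h4 := (card_le_card h2).trans (card_union_le _ _)
      rwa [card_range] at h4
    have h5 : (S.card : ℝ) ≤ (((range K).filter fun k => k0 ≤ k ∧ g k).card : ℝ) + k0 := by
      exact_mod_cast h1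
    linarith
  have hinf : {k | k0 ≤ k ∧ g k}.Infinite := by
    intro hf
    obtain ⟨K, hK⟩ := exists_nat_gt (s * (hf.toFinset.card + C + k0))
    have h1 := hcount K
    have h2 : ((range K).filter fun k => k0 ≤ k ∧ g k).card ≤ hf.toFinset.card := by
      apply card_le_card
      intro k hk
      rw [Set.Finite.mem_toFinset]
      exact (mem_filter.mp hk).2
    have h3 : (((range K).filter fun k => k0 ≤ k ∧ g k).card : ℝ) ≤ hf.toFinset.card := by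
      exact_mod_cast h2
    have h4 : hf.toFinset.card + C + k0 < (K : ℝ) / s := by
      rw [lt_div_iff₀ hs]
      linarith
    linarith
  refine ⟨hinf, ?_⟩
  intro j
  have h1 := hcount (Nat.nth (fun k => k0 ≤ k ∧ g k) j)
  rw [← Nat.count_eq_card_filter_range, Nat.count_nth_of_infinite hinf] at h1
  have h2 : (Nat.nth (fun k => k0 ≤ k ∧ g k) j : ℝ) / s ≤ j + C + k0 := by linarith
  rw [div_le_iff₀ hs] at h2
  linarith

theorem UPB_main (hLMB : Stmt_LMB) (hCHN : Stmt_CHN) (hSYM : Stmt_SYM)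
    (ρ : ℝ) (hρ : ρ ^ 3 = ρ + 1) (N : Seminorm ℝ V) (A : V ≃ₗ[ℝ] ℂ) (nn : Seminorm ℝ ℂ)
    (hN : IsNorm N) (hNA : ∀ z, N z = nn (A z)) (hTwo : Two nn) (s : ℝ) (hs1 : 1 ≤ s)
    (hCnt : Cnt nn ρ s) (N₁ : Seminorm ℝ (Fin 1 → ℝ)) (hN₁ : IsNorm N₁) :
    ∃ Θ : Matrix (Fin 1) (Fin 2) ℝ, Admissible Θ ∧
      G N N₁ Θ ≤ ENNReal.ofReal (ρ ^ (s / 2)) := by
  classical
  obtain ⟨δ, hδ0, hδ1, -, hOrb⟩ := hCnt
  obtain ⟨hl3, hl0, hlsq, -, -, -, -, -⟩ := hLMB ρ hρ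
  obtain ⟨a, c, P⟩ := exists_par hρ
  obtain ⟨R, hS, hLam, hEc⟩ := hSYM ρ a c P A
  obtain ⟨r1, r2⟩ := rho_bounds hρ
  have hρ0 : 0 < ρ := by linarith
  have hρ1 : 1 < ρ := by linarith
  obtain ⟨cl, hcl, hlow⟩ := lower hN
  obtain ⟨K, m, n, w, κ, hF1, hF2, hκA⟩ := params2 hS P (ε := cl * (δ / 100)) (by positivity)
  have hκ : N κ ≤ cl * (δ / 100) := by
    rw [hNA]
    exact (hTwo (A κ)).1.trans hκA
  have hτ := tau_ne hρ K m n
  have hτe : tau ρ K m n = -K + ρ + (m * K - n) * ρ ^ 2 := rfl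
  set τ := tau ρ K m n with hτd
  clear_value τ
  have hτa : 0 < |τ| := abs_pos.mpr hτ
  have hw : w ≠ 0 := by
    rintro rfl
    have e : ∀ v, E R ρ a c 0 v = 0 := by
      intro v; unfold E Lam; simp
    rw [e, e] at hF1
    have := congrFun hF1 0
    simp at this
  set ζ₀ : ℂ := A w with hζ₀
  have hζ0 : ζ₀ ≠ 0 := by
    intro h0
    apply hw
    exact A.injective (by rw [← hζ₀, h0, map_zero])
  have hζn : 0 < ‖ζ₀‖ := norm_pos_iff.mpr hζ0
  set θ : V := ![ρ ^ 2 / τ, (1 - m * ρ ^ 2) / τ] with hθd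
  have t0 : θ 0 = ρ ^ 2 / τ := rfl
  have t1 : θ 1 = (1 - m * ρ ^ 2) / τ := rfl
  clear_value θ
  have hLL : ∀ u : P2, LL ρ (tr2 K m n u) = τ * lf θ u := by
    intro u
    have e : τ * lf θ u = ρ ^ 2 * u.1 0 + (1 - m * ρ ^ 2) * u.1 1 - τ * u.2 := by
      rw [lf_apply, t0, t1]; field_simp
    rw [e, hτe]
    unfold LL L tr2
    simp only
    push_cast
    ring
  set e0 : V := E R ρ a c w (-K, 1, m * K - n) with he0
  have hE : ∀ u : P2, E R ρ a c w (tr2 K m n u) = xv u + (u.1 1 : ℝ) • κ + lf θ u • e0 := by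
    intro u
    have h1 : xv u = (u.1 0 : ℝ) • ![1, 0] + (u.1 1 : ℝ) • ![0, 1] := by
      rw [xv_apply]
      ext i
      fin_cases i <;> simp
    have h2 : (![0, 1] : V) = E R ρ a c w (1, 0, -m) - ((1 - m * ρ ^ 2) / τ) • e0 - κ := by
      rw [hF2, add_sub_cancel_right]
    have h3 : E R ρ a c w (tr2 K m n u) = (u.1 0 : ℝ) • E R ρ a c w (0, 0, 1)
        + (u.1 1 : ℝ) • E R ρ a c w (1, 0, -m) - (u.2 : ℝ) • e0 := by
      rw [he0]
      unfold E tr2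
      simp only
      push_cast
      module
    rw [h1, ← hF1, h2, h3, lf_apply, t0, t1]
    module
  clear_value e0
  set C0 : ℝ := N e0 with hC0
  have hC00 : 0 ≤ C0 := apply_nonneg N _
  have hκu : ∀ u : P2, N ((u.1 1 : ℝ) • κ) ≤ δ / 100 * N (xv u) := by
    intro u
    rw [map_smul_eq_mul, Real.norm_eq_abs]
    have h1 := coord_le u 1
    have h2 := hlow (xv u)
    calc |(u.1 1 : ℝ)| * N κ ≤ ‖xv u‖ * (cl * (δ / 100)) :=
          mul_le_mul h1 hκ (apply_nonneg N _) (norm_nonneg _)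
      _ = δ / 100 * (cl * ‖xv u‖) := by ring
      _ ≤ _ := mul_le_mul_of_nonneg_left h2 (by positivity)
  have hup : ∀ u : P2, N (E R ρ a c w (tr2 K m n u)) ≤
      (1 + δ / 100) * N (xv u) + C0 * |lf θ u| := by
    intro u
    rw [hE]
    refine (map_add_le_add N _ _).trans ?_
    have h1 := map_add_le_add N (xv u) ((u.1 1 : ℝ) • κ)
    rw [map_smul_eq_mul N (lf θ u), Real.norm_eq_abs]
    have h2 := hκu u
    rw [← hC0]
    linarith
  have hdn : ∀ u : P2, (1 - δ / 100) * N (xv u) ≤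
      N (E R ρ a c w (tr2 K m n u)) + C0 * |lf θ u| := by
    intro u
    rw [hE]
    have h1 : N (xv u) ≤ N (xv u + (u.1 1 : ℝ) • κ + lf θ u • e0) + N ((u.1 1 : ℝ) • κ)
        + N (lf θ u • e0) := by
      have h3 := map_sub_le_add N (xv u + (u.1 1 : ℝ) • κ + lf θ u • e0) (lf θ u • e0)
      rw [add_sub_cancel_right] at h3
      have h4 := map_sub_le_add N (xv u + (u.1 1 : ℝ) • κ) ((u.1 1 : ℝ) • κ)
      rw [add_sub_cancel_right] at h4
      linarith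
    rw [map_smul_eq_mul N (lf θ u), Real.norm_eq_abs] at h1
    have h2 := hκu u
    rw [← hC0] at h1
    linarith
  -- admissibility
  have hadm : Adm θ := by
    intro u hu
    have h1 := hLL u
    rw [hu, mul_zero] at h1
    have h2 := L_mul_Q hρ (tr2 K m n u).1 (tr2 K m n u).2.1 (tr2 K m n u).2.2
    have h1' : L ρ (tr2 K m n u).1 (tr2 K m n u).2.1 (tr2 K m n u).2.2 = 0 := h1
    rw [h1', zero_mul] at h2
    have h3 : Nf (tr2 K m n u).1 (tr2 K m n u).2.1 (tr2 K m n u).2.2 = 0 := by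
      exact_mod_cast h2.symm
    obtain ⟨x0, x1, x2⟩ := Nf_eq_zero _ _ _ h3
    apply tr2_inj K m n
    rw [tr2_zero]
    exact Prod.ext x0 (Prod.ext x1 x2)
  let Θ : Matrix (Fin 1) (Fin 2) ℝ := fun _ => θ
  have hΘ0 : Θ 0 = θ := rfl
  have hAdm : Admissible Θ := adm_iff.mpr (by rw [hΘ0]; exact hadm)
  -- the powers
  obtain ⟨ζ, hζdef⟩ : ∃ ζ : ℕ → ℂ, ∀ k, ζ k = (lam ρ)⁻¹ ^ k * ζ₀ := ⟨_, fun k => rfl⟩
  have hζne : ∀ k, ζ k ≠ 0 := fun k => by
    rw [hζdef]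
    exact mul_ne_zero (pow_ne_zero _ (inv_ne_zero hl0)) hζ0
  have hAbw : ∀ k, A (bw R ρ a c w k) = ζ k := fun k => by
    rw [hζdef]
    exact UPB_pow (lam ρ) A R ρ a c hl0 hS P hLam w k
  have hln : ‖(lam ρ)⁻¹‖ = Real.sqrt ρ := by
    rw [norm_inv]
    have h1 : 0 < ‖lam ρ‖ := norm_pos_iff.mpr hl0
    rw [eq_comm, Real.sqrt_eq_iff_mul_self_eq hρ0.le (by positivity)]
    have h2 : ‖lam ρ‖ ^ 2 * ρ = 1 := by
      rw [hlsq]
      field_simp
    field_simp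
    linarith
  have hζnorm : ∀ k, ‖ζ k‖ = Real.sqrt ρ ^ k * ‖ζ₀‖ := by
    intro k
    rw [hζdef, norm_mul, norm_pow, hln]
  have hs1' : 1 ≤ Real.sqrt ρ := Real.one_le_sqrt.mpr hρ1.le
  have hbig : ∀ k, ‖ζ₀‖ / 2 ≤ nn (ζ k) := by
    intro k
    have h1 := (hTwo (ζ k)).2
    have h2 : ‖ζ₀‖ ≤ ‖ζ k‖ := by
      rw [hζnorm]
      exact le_mul_of_one_le_left (norm_nonneg _) (one_le_pow₀ hs1')
    have h3 : 0 ≤ nn (ζ k) := apply_nonneg nn _
    nlinarith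
  have hnpos : ∀ k, 0 < nn (ζ k) := fun k => lt_of_lt_of_le (by positivity) (hbig k)
  -- the chain
  set Pk : ℕ → P2 := fun k => rt2 K m n (wv k) with hPk
  have htr : ∀ k, tr2 K m n (Pk k) = wv k := fun k => tr2_rt2 K m n _
  have hlf : ∀ k, ρ ^ k * (|τ| * |lf θ (Pk k)|) = 1 := by
    intro k
    have h1 := hLL (Pk k)
    rw [htr] at h1
    rw [← abs_mul, ← h1, ← abs_of_pos (by positivity : 0 < ρ ^ k), ← abs_mul, LL_wv hρ, abs_one]
  have hEk : ∀ k, N (E R ρ a c w (tr2 K m n (Pk k))) = nn (ζ k) := by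
    intro k; rw [htr, E_wv hS P, hNA, hAbw]
  obtain ⟨k0, hk0⟩ := pow_unbounded_of_one_lt (1000 * C0 / (δ * |τ| * (‖ζ₀‖ / 2))) hρ1
  have hδk : ∀ k, k0 ≤ k → C0 * |lf θ (Pk k)| ≤ δ / 1000 * nn (ζ k) := by
    intro k hk
    have h1 : 1000 * C0 / (δ * |τ| * (‖ζ₀‖ / 2)) < ρ ^ k :=
      hk0.trans_le (pow_le_pow_right₀ hρ1.le hk)
    rw [div_lt_iff₀ (by positivity)] at h1
    have h2 := hlf k
    have h3 : 0 ≤ |lf θ (Pk k)| := abs_nonneg _
    have h4 : 1000 * C0 * |lf θ (Pk k)| ≤ ρ ^ k * (δ * |τ| * (‖ζ₀‖ / 2)) * |lf θ (Pk k)| :=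
      mul_le_mul_of_nonneg_right h1.le h3
    have h5 : ρ ^ k * (δ * |τ| * (‖ζ₀‖ / 2)) * |lf θ (Pk k)| = δ * (‖ζ₀‖ / 2) := by
      have : ρ ^ k * (δ * |τ| * (‖ζ₀‖ / 2)) * |lf θ (Pk k)|
        = δ * (‖ζ₀‖ / 2) * (ρ ^ k * (|τ| * |lf θ (Pk k)|)) := by ring
      rw [this, h2, mul_one]
    have h6 := mul_le_mul_of_nonneg_left (hbig k) hδ0.le
    linarith
  have hub : ∀ k, k0 ≤ k → (1 - δ / 100) * N (xv (Pk k)) ≤ (1 + δ / 1000) * nn (ζ k) := by
    intro k hk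
    have h1 := hdn (Pk k)
    rw [hEk] at h1
    have h2 := hδk k hk
    linarith
  have hub2 : ∀ k, k0 ≤ k → N (xv (Pk k)) ≤ (1 + δ / 40) * nn (ζ k) := by
    intro k hk
    have h1 := hub k hk
    have h2 := hnpos k
    have h3 : (1 + δ / 1000) * nn (ζ k) ≤ (1 - δ / 100) * ((1 + δ / 40) * nn (ζ k)) := by
      have h4 : 1 + δ / 1000 ≤ (1 - δ / 100) * (1 + δ / 40) := by nlinarith
      have h5 := mul_le_mul_of_nonneg_right h4 h2.le
      linarith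
    exact le_of_mul_le_mul_left (h1.trans h3) (by linarith)
  have hlb : ∀ k, k0 ≤ k → 0 < N (xv (Pk k)) := by
    intro k hk
    have h1 := hup (Pk k)
    rw [hEk] at h1
    have h2 := hδk k hk
    have h3 := hnpos k
    by_contra hcon
    have h4 : N (xv (Pk k)) = 0 := le_antisymm (not_lt.mp hcon) (apply_nonneg N _)
    rw [h4, mul_zero, zero_add] at h1
    nlinarith
  obtain ⟨g, hg⟩ : ∃ g : ℕ → Prop, ∀ k, g k ↔ Good nn ρ δ (ζ k) := ⟨_, fun k => Iff.rfl⟩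
  have hinjU : ∀ k, Function.Injective (U^[k]) := fun k => U_inj.iterate k
  have hU0 : ∀ k, U^[k] 0 = 0 := by
    intro k
    induction k with
    | zero => rfl
    | succ j ih => rw [Function.iterate_succ_apply', ih]; rfl
  have hUn : ∀ k, ∀ u : ℤ × ℤ × ℤ, U^[k] (-u) = -U^[k] u := by
    intro k
    induction k with
    | zero => intro u; rfl
    | succ j ih =>
      intro u
      rw [Function.iterate_succ_apply', Function.iterate_succ_apply', ih]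
      obtain ⟨x, y, z⟩ := U^[j] u
      simp [U]
      omega
  have hbest : ∀ k, k0 ≤ k → g k → ∀ u : P2, N (xv u) ≤ N (xv (Pk k)) →
      |lf θ u| ≤ |lf θ (Pk k)| → u = 0 ∨ u = Pk k ∨ u = -Pk k := by
    intro k hk hgk u h1 h2
    have hL : |LL ρ (U^[k] (tr2 K m n u))| ≤ 1.02 := by
      rw [LL_iter hρ, hLL, abs_mul, abs_mul, abs_of_pos (by positivity : 0 < ρ ^ k)]
      have h3 := hlf k
      have h4 : ρ ^ k * (|τ| * |lf θ u|) ≤ ρ ^ k * (|τ| * |lf θ (Pk k)|) := by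
        refine mul_le_mul_of_nonneg_left ?_ (by positivity)
        exact mul_le_mul_of_nonneg_left h2 hτa.le
      linarith
    have hEN : N (E R ρ a c w (tr2 K m n u)) ≤ (1 + δ / 2) * nn (ζ k) := by
      have h3 := hup u
      have h4 := hub2 k hk
      have h5 := hδk k hk
      have h6 := hnpos k
      have h7 : C0 * |lf θ u| ≤ C0 * |lf θ (Pk k)| := mul_le_mul_of_nonneg_left h2 hC00
      have h8 : (1 + δ / 100) * N (xv u) ≤ (1 + δ / 100) * ((1 + δ / 40) * nn (ζ k)) :=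
        mul_le_mul_of_nonneg_left (h1.trans h4) (by linarith)
      have h9 : (1 + δ / 100) * (1 + δ / 40) + δ / 1000 ≤ 1 + δ / 2 := by nlinarith
      have h10 := mul_le_mul_of_nonneg_right h9 h6.le
      linarith
    have hval : nn (ζ k * Ec ρ (U^[k] (tr2 K m n u))) = N (E R ρ a c w (tr2 K m n u)) := by
      have e1 := E_iter hS P k (bw R ρ a c w k) (tr2 K m n u)
      rw [iter_bw hS P] at e1
      rw [← e1, hNA, hEc, hAbw, mul_comm]
    rcases hCHN ρ hρ nn hTwo δ hδ0 hδ1 (ζ k) (hζne k) ((hg k).mp hgk) _ hL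
      (by rw [hval]; exact hEN) with h3 | h3 | h3
    · left
      apply tr2_inj K m n
      apply hinjU k
      rw [h3, tr2_zero, hU0]
    · right; left
      apply tr2_inj K m n
      apply hinjU k
      rw [h3, htr, Uiter_wv]
    · right; right
      apply tr2_inj K m n
      apply hinjU k
      rw [h3, tr2_neg, hUn, htr, Uiter_wv]
  have hmono : ∀ k k', k0 ≤ k → g k → k < k' → N (xv (Pk k)) < N (xv (Pk k')) := by
    intro k k' hk hgk hkk
    by_contra hcon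
    push Not at hcon
    have h1 := hlf k
    have h2 := hlf k'
    have hpk : 0 < ρ ^ k := by positivity
    have hpow : ρ ^ k < ρ ^ k' := pow_lt_pow_right₀ hρ1 hkk
    have h5 : 0 < |τ| * |lf θ (Pk k')| := by
      by_contra h6
      have h7 : |τ| * |lf θ (Pk k')| = 0 := le_antisymm (not_lt.mp h6) (by positivity)
      rw [h7, mul_zero] at h2
      exact zero_ne_one h2
    have h6 : ρ ^ k * (|τ| * |lf θ (Pk k')|) < ρ ^ k' * (|τ| * |lf θ (Pk k')|) :=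
      mul_lt_mul_of_pos_right hpow h5
    have h7 : ρ ^ k * (|τ| * |lf θ (Pk k')|) < ρ ^ k * (|τ| * |lf θ (Pk k)|) := by
      rw [h1, ← h2]
      exact h6
    have h8 : |lf θ (Pk k')| < |lf θ (Pk k)| :=
      lt_of_mul_lt_mul_left (lt_of_mul_lt_mul_left h7 hpk.le) hτa.le
    rcases hbest k hk hgk (Pk k') hcon h8.le with h9 | h9 | h9
    · rw [h9, map_zero, abs_zero, mul_zero] at h5
      exact lt_irrefl _ h5
    · rw [h9] at h8
      exact lt_irrefl _ h8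
    · rw [h9, map_neg, abs_neg] at h8
      exact lt_irrefl _ h8
  -- the records
  obtain ⟨C1, hC1⟩ := hOrb ζ₀ hζ0
  have hrec := UPB_count g s C1 (by linarith) k0 (fun K' => by
    obtain ⟨S, hS1, hS2, hS3⟩ := hC1 K'
    refine ⟨S, hS1, fun k hk => ?_, hS3⟩
    rw [hg, hζdef]
    exact hS2 k hk)
  obtain ⟨hinf, hnth⟩ := hrec
  set kj : ℕ → ℕ := Nat.nth (fun k => k0 ≤ k ∧ g k) with hkj
  have hkjm : ∀ j, k0 ≤ kj j ∧ g (kj j) := fun j => Nat.nth_mem_of_infinite hinf j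
  have hkjs : StrictMono kj := Nat.nth_strictMono hinf
  refine ⟨Θ, hAdm, ?_⟩
  have hS0 : 0 < ρ ^ (s / 2) := Real.rpow_pos_of_pos hρ0 _
  refine G_le_of_chain2 hN hN₁ hAdm (C := 2 * ρ ^ (s * (C1 + k0) / 2) * ‖ζ₀‖) hS0 (by positivity)
    (fun j => N (xv (Pk (kj j))))
    (fun j => hmono (kj j) (kj (j + 1)) (hkjm j).1 (hkjm j).2 (hkjs (Nat.lt_succ_self j)))
    (hlb _ (hkjm 0).1) ?_ ?_
  · intro j
    refine ⟨(Pk (kj j)).1, fun _ => (Pk (kj j)).2, ?_, rfl⟩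
    rw [isBest_iff2 hN₁, hΘ0]
    refine ⟨?_, fun u h1 h2 => hbest (kj j) (hkjm j).1 (hkjm j).2 u h1 h2⟩
    intro h0
    have h1 := hlb (kj j) (hkjm j).1
    have h2 : xv (Pk (kj j)) = 0 := by
      rw [xv_apply, h0]
      ext i
      fin_cases i <;> simp
    rw [h2, map_zero] at h1
    exact lt_irrefl _ h1
  · intro j
    have h1 := hub2 (kj j) (hkjm j).1
    have h2 := (hTwo (ζ (kj j))).1
    have h3 : nn (ζ (kj j)) ≤ Real.sqrt ρ ^ (kj j) * ‖ζ₀‖ := by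
      rw [← hζnorm]
      exact h2
    have h4 : Real.sqrt ρ ^ (kj j) = ρ ^ ((kj j : ℝ) / 2) := by
      rw [Real.sqrt_eq_rpow, ← Real.rpow_natCast, ← Real.rpow_mul hρ0.le]
      congr 1
      ring
    have h5 : ρ ^ ((kj j : ℝ) / 2) ≤ ρ ^ (s * (C1 + k0) / 2 + s / 2 * j) := by
      apply Real.rpow_le_rpow_of_exponent_le hρ1.le
      have := hnth j
      linarith
    have h6 : ρ ^ (s * (C1 + k0) / 2 + s / 2 * j)
        = ρ ^ (s * (C1 + k0) / 2) * (ρ ^ (s / 2)) ^ j := by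
      rw [Real.rpow_add hρ0, Real.rpow_mul_natCast hρ0.le]
    have h7 : (1 + δ / 40) * nn (ζ (kj j)) ≤ 2 * nn (ζ (kj j)) :=
      mul_le_mul_of_nonneg_right (by linarith) (apply_nonneg nn _)
    calc N (xv (Pk (kj j))) ≤ 2 * nn (ζ (kj j)) := h1.trans h7
      _ ≤ 2 * (Real.sqrt ρ ^ (kj j) * ‖ζ₀‖) := by linarith
      _ ≤ 2 * ((ρ ^ (s * (C1 + k0) / 2) * (ρ ^ (s / 2)) ^ j) * ‖ζ₀‖) := by
          rw [h4, ← h6]
          have := mul_le_mul_of_nonneg_right h5 (norm_nonneg ζ₀)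
          linarith
      _ = 2 * ρ ^ (s * (C1 + k0) / 2) * ‖ζ₀‖ * (ρ ^ (s / 2)) ^ j := by ring

theorem p_UPB (hLMB : Stmt_LMB) (hCHN : Stmt_CHN) (hSYM : Stmt_SYM) : Stmt_UPB :=
  fun ρ hρ N N₁ A n hN hN₁ hNA hTwo s hs1 hCnt =>
    UPB_main hLMB hCHN hSYM ρ hρ N A n hN hNA hTwo s hs1 hCnt N₁ hN₁

end Pool.GI
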