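import Pool.Agent.Work.MP_7453a1_gi.HandIn
import Pool.Agent.Work.MP_7453a1_gi.B_LMB
import Pool.Agent.Work.MP_7453a1_gi.B_SML
import Pool.Agent.Work.MP_7453a1_gi.B_CHN
import Pool.Agent.Work.MP_7453a1_gi.B_SYM
import Pool.Agent.Work.MP_7453a1_gi.B_UPA
import Pool.Agent.Work.MP_7453a1_gi.B_UPB
import Pool.Agent.Work.MP_7453a1_gi.B_EQD
import Pool.Agent.Work.MP_7453a1_gi.B_IRR
import Pool.Agent.Work.MP_7453a1_gi.B_PHS
import Pool.Agent.Work.MP_7453a1_gi.B_CT1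
import Pool.Agent.Work.MP_7453a1_gi.B_SPC
import Pool.Agent.Work.MP_7453a1_gi.B_BEL
import Pool.Agent.Work.MP_7453a1_gi.B_BAR
import Pool.Agent.Work.MP_7453a1_gi.B_SPT
import Pool.Agent.Work.MP_7453a1_gi.B_SEP
import Pool.Agent.Work.MP_7453a1_gi.B_GEO
import Pool.Agent.Work.MP_7453a1_gi.B_ALL

set_option autoImplicit false

/-! # All blocks together -/

namespace Pool.GI

open Pool.Agent.Work.MP_7453a1_nt_norm (IsNorm)

theorem q_LMB : Stmt_LMB := p_LMB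
theorem q_SML : Stmt_SML := p_SML
theorem q_CHN : Stmt_CHN := p_CHN q_LMB q_SML
theorem q_SYM : Stmt_SYM := p_SYM q_LMB
theorem q_UPA : Stmt_UPA := p_UPA q_LMB q_CHN q_SYM
theorem q_UPB : Stmt_UPB := p_UPB q_LMB q_CHN q_SYM
theorem q_EQD : Stmt_EQD := p_EQD
theorem q_IRR : Stmt_IRR := p_IRR q_LMB
theorem q_PHS : Stmt_PHS := p_PHS q_LMB q_EQD q_IRR
theorem q_CT1 : Stmt_CT1 := p_CT1 q_LMB
theorem q_SPC : Stmt_SPC := p_SPC q_LMB q_PHS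
theorem q_BEL : Stmt_BEL := p_BEL
theorem q_BAR : Stmt_BAR := p_BAR
theorem q_SPT : Stmt_SPT := p_SPT
theorem q_SEP : Stmt_SEP := p_SEP q_SPT
theorem q_GEO : Stmt_GEO := p_GEO q_LMB q_SPT q_SEP
theorem q_ALL : Stmt_ALL := p_ALL q_LMB q_PHS q_CT1 q_SPT q_GEO

/-- every norm -/
theorem upper_all {ρ : ℝ} (hρ : ρ ^ 3 = ρ + 1) {N : Seminorm ℝ V} (hN : IsNorm N) : Up ρ (38 / 25) N :=
  up_all q_UPA q_UPB q_BEL q_BAR q_ALL hρ hN

/-- parallelogram norms -/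
theorem upper_par {ρ : ℝ} (hρ : ρ ^ 3 = ρ + 1) {N : Seminorm ℝ V} (hN : IsNorm N) (h : TwoForms N) :
    Up ρ (7 / 5) N :=
  up_par q_UPA q_UPB q_SPC hρ hN h

/-- norms near a Euclidean norm -/
theorem upper_near {ρ : ℝ} (hρ : ρ ^ 3 = ρ + 1) {N : Seminorm ℝ V} (hN : IsNorm N) (h : NearEuclid ρ N) :
    Up ρ 1 N :=
  up_near q_UPA q_UPB q_LMB q_CT1 hρ hN h

end Pool.GI
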