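import Pool.Agent.Work.MP_7453a1_gi.Interface

set_option autoImplicit false

namespace Pool.GI

open Finset Real
open Pool.Agent.Work.MP_7453a1_nt_norm (IsNorm)
open Pool.Agent.Work.MP_7453a1_nt_sym (Sym)
open Pool.Agent.Work.MP_7453a1_nt_sym.UPAux (Par Lam E LL)
open Pool.Agent.Work.MP_7453a1_nt (L Q)

/-- block CT1 -/
theorem p_CT1 (hLMB : Stmt_LMB) : Stmt_CT1 := by
  intro ρ hρ n θ hθ0 hθ1 hn
  obtain ⟨-, hl0, -⟩ := hLMB ρ hρ
  obtain ⟨δ, hδ0, hδ1, hδ⟩ : ∃ δ : ℝ, 0 < δ ∧ δ ≤ 1 / 100 ∧ (1 + δ) * θ ≤ 1 := by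
    refine ⟨min (1 / 100) (1 / θ - 1), lt_min (by norm_num) ?_, min_le_left _ _, ?_⟩
    · have h1 : 1 < 1 / θ := by
        rw [lt_div_iff₀ hθ0]
        linarith
      linarith
    · have h1 : min (1 / 100) (1 / θ - 1) ≤ 1 / θ - 1 := min_le_right _ _
      have h2 : (1 + min (1 / 100) (1 / θ - 1)) * θ ≤ (1 / θ) * θ :=
        mul_le_mul_of_nonneg_right (by linarith) hθ0.le
      rwa [one_div_mul_cancel hθ0.ne'] at h2
  have h1 : ∀ ζ : ℂ, n ζ ≤ θ * n (ζ / lam ρ) := by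
    intro ζ
    have h2 := hn (ζ / lam ρ)
    rwa [mul_div_cancel₀ _ hl0] at h2
  have hG : ∀ ζ : ℂ, Good n ρ δ ζ := by
    intro ζ
    have h2 : n (ζ / lam ρ) ≤ θ * n (ζ / lam ρ ^ 2) := by
      have h3 := h1 (ζ / lam ρ)
      rwa [div_div, ← pow_two] at h3
    have h4 : 0 ≤ n (ζ / lam ρ) := apply_nonneg n _
    have h5 : 0 ≤ n (ζ / lam ρ ^ 2) := apply_nonneg n _
    have h6 : (1 + δ) * n ζ ≤ n (ζ / lam ρ) := by
      calc (1 + δ) * n ζ ≤ (1 + δ) * (θ * n (ζ / lam ρ)) :=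
            mul_le_mul_of_nonneg_left (h1 ζ) (by linarith)
        _ = ((1 + δ) * θ) * n (ζ / lam ρ) := by ring
        _ ≤ 1 * n (ζ / lam ρ) := mul_le_mul_of_nonneg_right hδ h4
        _ = n (ζ / lam ρ) := one_mul _
    refine ⟨h6, h6.trans (h2.trans ?_)⟩
    nlinarith
  refine ⟨δ, hδ0, hδ1, ?_, ?_⟩
  · intro ζ _
    refine ⟨0, fun K => ⟨range K, subset_rfl, fun k _ => hG _, ?_⟩⟩
    rw [card_range]
    simp
  · intro ζ _
    refine ⟨0, fun K => ⟨range K, subset_rfl, fun k _ => hG _, ?_⟩⟩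
    rw [card_range]
    simp

end Pool.GI
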