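import Pool.Agent.Work.MP_7453a1_gi.Interface2

set_option autoImplicit false

/-! # The upper bounds for `m + n = 3` from the blocks -/

namespace Pool.GI

open Pool.Agent.Work.MP_7453a1_nt_norm (IsNorm)
open Pool.Agent.Work.MP_7453a1_nt_two (Admissible G g col adm12 G12_le)

/-- the norm differs from a Euclidean norm by a factor less than `√ρ` -/
def NearEuclid {k : ℕ} (ρ : ℝ) (N : Seminorm ℝ (Fin k → ℝ)) : Prop :=
  ∃ (A : (Fin k → ℝ) →ₗ[ℝ] (Fin k → ℝ)) (d : ℝ), d ^ 2 < ρ ∧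
    ∀ x, N x ^ 2 ≤ ∑ i, A x i ^ 2 ∧ ∑ i, A x i ^ 2 ≤ d ^ 2 * N x ^ 2

/-- the norm is the maximum of the absolute values of two linear forms -/
def TwoForms {k : ℕ} (N : Seminorm ℝ (Fin k → ℝ)) : Prop :=
  ∃ f g : (Fin k → ℝ) →ₗ[ℝ] ℝ, ∀ x, N x = max |f x| |g x|

/-- the upper bound with the exponent `s` for a norm on the plane, in both cases -/
def Up (ρ s : ℝ) (N : Seminorm ℝ V) : Prop :=
  ∀ N₁ : Seminorm ℝ (Fin 1 → ℝ), IsNorm N₁ →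
    (∃ Θ : Matrix (Fin 2) (Fin 1) ℝ, Admissible Θ ∧ G N₁ N Θ ≤ ENNReal.ofReal (ρ ^ s)) ∧
    ∃ Θ : Matrix (Fin 1) (Fin 2) ℝ, Admissible Θ ∧ G N N₁ Θ ≤ ENNReal.ofReal (ρ ^ (s / 2))

theorem up_of_cnt (hUPA : Stmt_UPA) (hUPB : Stmt_UPB) {ρ : ℝ} (hρ : ρ ^ 3 = ρ + 1) {N : Seminorm ℝ V}
    (hN : IsNorm N) {A : V ≃ₗ[ℝ] ℂ} {n : Seminorm ℝ ℂ} (hA : ∀ z, N z = n (A z)) (h2 : Two n) {s : ℝ} (hs : 1 ≤ s)
    (hc : Cnt n ρ s) : Up ρ s N := by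
  have hρ0 : 0 < ρ := by
    have := (Pool.Agent.Work.MP_7453a1_nt.rho_bounds hρ).1
    linarith
  intro N₁ hN₁
  refine ⟨?_, hUPB ρ hρ N N₁ A n hN hN₁ hA h2 s hs hc⟩
  obtain ⟨Θ', h3, h4⟩ := hUPA ρ hρ N A n hN hA h2 s hs hc
  have hcol : col (fun i _ => Θ' i) = Θ' := rfl
  have hadm : Admissible (fun (i : Fin 2) (_ : Fin 1) => Θ' i) := adm12.mpr (by rw [hcol]; exact h3)
  exact ⟨fun i _ => Θ' i, hadm, G12_le hN hN₁ hadm (Real.rpow_pos_of_pos hρ0 s) (by rw [hcol]; exact h4)⟩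

theorem up_all (hUPA : Stmt_UPA) (hUPB : Stmt_UPB) (hBEL : Stmt_BEL) (hBAR : Stmt_BAR) (hALL : Stmt_ALL) {ρ : ℝ}
    (hρ : ρ ^ 3 = ρ + 1) {N : Seminorm ℝ V} (hN : IsNorm N) : Up ρ (38 / 25) N := by
  obtain ⟨A, n, d, h1, h2, h3, h4⟩ := hBEL N hN
  obtain ⟨h5, h6⟩ := hALL ρ hρ n d h1 h3 (hBAR n d h1 h3 h4)
  exact up_of_cnt hUPA hUPB hρ hN h2 h5 (by norm_num) h6

/-- a seminorm on `ℂ` from one on the plane -/
noncomputable def push (N : Seminorm ℝ V) (A : V ≃ₗ[ℝ] ℂ) : Seminorm ℝ ℂ := N.comp A.symm.toLinearMap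

theorem push_apply (N : Seminorm ℝ V) (A : V ≃ₗ[ℝ] ℂ) (ζ : ℂ) : push N A ζ = N (A.symm ζ) := rfl

/-- the linear map `(f, g)` into `ℂ` -/
noncomputable def mk2 (f g : V →ₗ[ℝ] ℝ) : V →ₗ[ℝ] ℂ where
  toFun z := ⟨f z, g z⟩
  map_add' x y := by
    rw [map_add, map_add]
    rfl
  map_smul' c x := by
    rw [map_smul, map_smul]
    apply Complex.ext <;> simp

theorem exists_equiv {N : Seminorm ℝ V} (hN : IsNorm N) (f g : V →ₗ[ℝ] ℝ) (h : ∀ z, f z = 0 → g z = 0 → N z = 0) :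
    ∃ A : V ≃ₗ[ℝ] ℂ, ∀ z, A z = ⟨f z, g z⟩ := by
  have hinj : Function.Injective (mk2 f g) := by
    rw [← LinearMap.ker_eq_bot, LinearMap.ker_eq_bot']
    intro z hz
    have h1 := congrArg Complex.re hz
    have h2 := congrArg Complex.im hz
    exact hN z (h z h1 h2)
  have hd : Module.finrank ℝ V = Module.finrank ℝ ℂ := by
    rw [Complex.finrank_real_complex]
    simp
  refine ⟨LinearEquiv.ofInjectiveOfFinrankEq (mk2 f g) hinj hd, fun z => ?_⟩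
  rfl

theorem up_par (hUPA : Stmt_UPA) (hUPB : Stmt_UPB) (hSPC : Stmt_SPC) {ρ : ℝ} (hρ : ρ ^ 3 = ρ + 1) {N : Seminorm ℝ V}
    (hN : IsNorm N) (h : TwoForms N) : Up ρ (7 / 5) N := by
  obtain ⟨f, g, hfg⟩ := h
  obtain ⟨A, hA⟩ := exists_equiv hN f g (fun z h1 h2 => by rw [hfg, h1, h2]; simp)
  have hn : ∀ ζ : ℂ, push N A ζ = max |ζ.re| |ζ.im| := by
    intro ζ
    have h1 := hA (A.symm ζ)
    rw [LinearEquiv.apply_symm_apply] at h1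
    rw [push_apply, hfg]
    conv_rhs => rw [h1]
  refine up_of_cnt hUPA hUPB hρ hN (A := A) (n := push N A) (fun z => ?_) (fun ζ => ?_) (by norm_num)
    (hSPC ρ hρ _ hn)
  · rw [push_apply, LinearEquiv.symm_apply_apply]
  · rw [hn]
    have h2 : ‖ζ‖ ^ 2 = ζ.re ^ 2 + ζ.im ^ 2 := by
      rw [Complex.sq_norm, Complex.normSq_apply]
      ring
    refine ⟨max_le (Complex.abs_re_le_norm ζ) (Complex.abs_im_le_norm ζ), ?_⟩
    rw [h2]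
    have h3 : ζ.re ^ 2 ≤ max |ζ.re| |ζ.im| ^ 2 := by
      rw [← sq_abs]
      exact pow_le_pow_left₀ (abs_nonneg _) (le_max_left _ _) 2
    have h4 : ζ.im ^ 2 ≤ max |ζ.re| |ζ.im| ^ 2 := by
      rw [← sq_abs]
      exact pow_le_pow_left₀ (abs_nonneg _) (le_max_right _ _) 2
    linarith

theorem up_near (hUPA : Stmt_UPA) (hUPB : Stmt_UPB) (hLMB : Stmt_LMB) (hCT1 : Stmt_CT1) {ρ : ℝ} (hρ : ρ ^ 3 = ρ + 1)
    {N : Seminorm ℝ V} (hN : IsNorm N) (h : NearEuclid ρ N) : Up ρ 1 N := by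
  obtain ⟨B, d, hd, hB⟩ := h
  obtain ⟨r1, r2⟩ := Pool.Agent.Work.MP_7453a1_nt.rho_bounds hρ
  have hρ0 : 0 < ρ := by linarith
  simp only [Fin.sum_univ_two] at hB
  obtain ⟨A, hA⟩ := exists_equiv hN ((LinearMap.proj 0 : V →ₗ[ℝ] ℝ) ∘ₗ B) ((LinearMap.proj 1 : V →ₗ[ℝ] ℝ) ∘ₗ B)
    (fun z h1 h2 => by
      have h1' : B z 0 = 0 := h1
      have h2' : B z 1 = 0 := h2
      have h3 := (hB z).1
      rw [h1', h2'] at h3
      have h4 : N z ^ 2 = 0 := le_antisymm (by simpa using h3) (sq_nonneg _)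
      exact pow_eq_zero_iff (two_ne_zero) |>.mp h4)
  have hn : ∀ z, ‖A z‖ ^ 2 = B z 0 ^ 2 + B z 1 ^ 2 := by
    intro z
    have h1 : A z = ⟨B z 0, B z 1⟩ := hA z
    rw [h1, Complex.sq_norm, Complex.normSq_apply]
    ring
  have key : ∀ ζ : ℂ, push N A ζ ^ 2 ≤ ‖ζ‖ ^ 2 ∧ ‖ζ‖ ^ 2 ≤ d ^ 2 * push N A ζ ^ 2 := by
    intro ζ
    have h1 := hn (A.symm ζ)
    rw [LinearEquiv.apply_symm_apply] at h1
    rw [push_apply, h1]
    exact hB _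
  have hle : ∀ ζ : ℂ, push N A ζ ≤ ‖ζ‖ := fun ζ =>
    le_of_sq_le_sq (key ζ).1 (norm_nonneg _)
  obtain ⟨-, hl0, hl1, -, -, -, -, -⟩ := hLMB ρ hρ
  have hd0 : 0 ≤ d ^ 2 / ρ := by positivity
  set θ : ℝ := Real.sqrt (max (d ^ 2 / ρ) (1 / 4)) with hθ
  have hm : max (d ^ 2 / ρ) (1 / 4) < 1 := by
    refine max_lt ?_ (by norm_num)
    rw [div_lt_one hρ0]
    exact hd
  have hm0 : 0 < max (d ^ 2 / ρ) (1 / 4) := lt_max_of_lt_right (by norm_num)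
  have hθ0 : 0 < θ := Real.sqrt_pos.mpr hm0
  have hθ1 : θ < 1 := by
    rw [hθ, Real.sqrt_lt' one_pos, one_pow]
    exact hm
  have hθ2 : d ^ 2 / ρ ≤ θ ^ 2 := by
    rw [hθ, Real.sq_sqrt hm0.le]
    exact le_max_left _ _
  refine up_of_cnt hUPA hUPB hρ hN (A := A) (n := push N A) (fun z => ?_) (fun ζ => ⟨hle ζ, ?_⟩) le_rfl
    (hCT1 ρ hρ _ θ hθ0 hθ1 fun ζ => ?_)
  · rw [push_apply, LinearEquiv.symm_apply_apply]
  · have h1 := (key ζ).2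
    have h2 : 0 ≤ push N A ζ ^ 2 := sq_nonneg _
    nlinarith
  · refine le_of_sq_le_sq ?_ (mul_nonneg hθ0.le (apply_nonneg _ _))
    have h1 := (key (lam ρ * ζ)).1
    have h2 := (key ζ).2
    rw [norm_mul, mul_pow, hl1] at h1
    have h3 : 0 ≤ push N A ζ ^ 2 := sq_nonneg _
    calc push N A (lam ρ * ζ) ^ 2 ≤ 1 / ρ * ‖ζ‖ ^ 2 := h1
      _ ≤ 1 / ρ * (d ^ 2 * push N A ζ ^ 2) := mul_le_mul_of_nonneg_left h2 (by positivity)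
      _ = d ^ 2 / ρ * push N A ζ ^ 2 := by ring
      _ ≤ θ ^ 2 * push N A ζ ^ 2 := mul_le_mul_of_nonneg_right hθ2 h3
      _ = (θ * push N A ζ) ^ 2 := by ring

end Pool.GI
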