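import Pool.Agent.Work.MP_7453a1_nt_sym.UP

set_option autoImplicit false

/-!
# Upper bounds for `m + n = 3`, all norms (helper85)

`ρ ^ 3 = ρ + 1`, `ρ = 1.32471..`.  The number `Θ` is taken from the cubic field of `ρ`, in a position in which
multiplication by `ρ` acts on the plane of the errors almost as the complex number `lam` (`lam ^ 3 = lam + 1`).  The
point `ρ ^ k` is a best approximation if its error is a record, and the records are counted.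

* every norm: `g ≤ (ρ ^ (38/25)) ^ (1/m)`, `ρ ^ (38/25) = 1.5333..`;
* norms closer than the factor `√ρ = 1.1509..` to a Euclidean norm: `g ≤ ρ ^ (1/m)`;
* parallelogram norms (for example the sup norm): `g ≤ (ρ ^ (7/5)) ^ (1/m)`, `ρ ^ (7/5) = 1.4824..`.
-/

namespace Pool.GI

open Finset Real
open Pool.Agent.Work.MP_7453a1_nt_norm (IsNorm)
open Pool.Agent.Work.MP_7453a1_nt_sym (Sym)
open Pool.Agent.Work.MP_7453a1_nt_sym.UPAux (Par Lam E LL)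
open Pool.Agent.Work.MP_7453a1_nt (L Q)

/-- the plane -/
abbrev V : Type := Fin 2 → ℝ

/-- the complex conjugate of `ρ` -/
noncomputable def lam (ρ : ℝ) : ℂ := ⟨-ρ / 2, √(3 * ρ ^ 2 - 4) / 2⟩

/-- the image of `X + Y ρ + Z ρ ^ 2` in `ℂ` -/
noncomputable def Ec (ρ : ℝ) (v : ℤ × ℤ × ℤ) : ℂ := v.1 + v.2.1 * lam ρ + v.2.2 * lam ρ ^ 2

/-- the Euclidean norm of the structure `A` -/
noncomputable def NA (A : V ≃ₗ[ℝ] ℂ) : Seminorm ℝ V := (normSeminorm ℝ ℂ).comp A.toLinearMap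

/-- `ζ` is a record: smaller than `ζ / lam` and `ζ / lam ^ 2` -/
def Good (n : Seminorm ℝ ℂ) (ρ δ : ℝ) (ζ : ℂ) : Prop :=
  (1 + δ) * n ζ ≤ n (ζ / lam ρ) ∧ (1 + δ) * n ζ ≤ n (ζ / lam ρ ^ 2)

/-- the orbit of `ζ` under multiplication by `μ` has at least `K / s - C` records up to `K` -/
def Orb (n : Seminorm ℝ ℂ) (ρ : ℝ) (μ : ℂ) (s δ : ℝ) : Prop :=
  ∀ ζ : ℂ, ζ ≠ 0 → ∃ C : ℝ, ∀ K : ℕ, ∃ S : Finset ℕ, S ⊆ range K ∧ (∀ k ∈ S, Good n ρ δ (μ ^ k * ζ)) ∧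
    (K : ℝ) / s - C ≤ (S.card : ℝ)

/-- the records have density at least `1 / s`, in both directions -/
def Cnt (n : Seminorm ℝ ℂ) (ρ s : ℝ) : Prop :=
  ∃ δ : ℝ, 0 < δ ∧ δ ≤ 1 / 100 ∧ Orb n ρ (lam ρ) s δ ∧ Orb n ρ (lam ρ)⁻¹ s δ

/-- the norm is between the Euclidean norm divided by `√2` and the Euclidean norm -/
def Two (n : Seminorm ℝ ℂ) : Prop := ∀ ζ : ℂ, n ζ ≤ ‖ζ‖ ∧ ‖ζ‖ ^ 2 ≤ 2 * n ζ ^ 2

/-! ## 1. The lattice -/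

/-- **LMB** (80 lines), uses nothing.  `lam ^ 3 = lam + 1`: `s = √(3 ρ² - 4) / 2`, `s ^ 2 = (3 ρ ^ 2 - 4) / 4`; real and imaginary parts, with
`ρ ^ 3 = ρ + 1` (`rho_bounds`, `rho_sq_bounds`).  `‖lam‖ ^ 2 = ρ ^ 2 / 4 + s ^ 2 = ρ ^ 2 - 1 = 1 / ρ` (`ρ (ρ ^ 2 - 1) = 1`).
`lam ^ 2 = - ρ lam - (ρ ^ 2 - 1)`, so `‖Ec v‖ ^ 2 = Q ρ v` (`Q` in `MP_7453a1_nt/Plastic.lean`). -/
def Stmt_LMB : Prop :=
  ∀ ρ : ℝ, ρ ^ 3 = ρ + 1 → lam ρ ^ 3 = lam ρ + 1 ∧ lam ρ ≠ 0 ∧ ‖lam ρ‖ ^ 2 = 1 / ρ ∧ 0 < (lam ρ).im ∧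
    lam ρ ^ 2 = -(ρ * lam ρ) - (ρ ^ 2 - 1) ∧
    (∀ v : ℤ × ℤ × ℤ, ‖Ec ρ v‖ ^ 2 = Q ρ v.1 v.2.1 v.2.2) ∧
    Ec ρ (-1, 0, 1) = (lam ρ)⁻¹ ∧ Ec ρ (1, 1, -1) = (lam ρ ^ 2)⁻¹

/-- **SML** (120 lines), uses nothing.  As `small_bound5`, `small5` of `MP_7453a1_nt_sym/UPb.lean` with `2.03` in place of `1.37` (there are exactly
seven points: `0, ± 1, ± ρ⁻¹ = ± (-1, 0, 1), ± ρ⁻² = ± (1, 1, -1)`).  `|Y - ρ Z| < 2.6`, `|2 X - ρ Y + (2 - ρ²) Z| < 2.86`, `|Z| ≤ 2`, `|Y| ≤ 5`,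
`|X| ≤ 6` or so, then `interval_cases`. -/
def Stmt_SML : Prop :=
  ∀ ρ : ℝ, ρ ^ 3 = ρ + 1 → ∀ X Y Z : ℤ, |L ρ X Y Z| ≤ 1.02 → Q ρ X Y Z ≤ 2.03 →
    (X, Y, Z) = (0, 0, 0) ∨ (X, Y, Z) = (1, 0, 0) ∨ (X, Y, Z) = (-1, 0, 0) ∨
    (X, Y, Z) = (-1, 0, 1) ∨ (X, Y, Z) = (1, 0, -1) ∨ (X, Y, Z) = (1, 1, -1) ∨ (X, Y, Z) = (-1, -1, 1)

/-- **CHN** (80 lines), uses LMB SML.  `‖ζ Ec v‖ ^ 2 ≤ 2 n (..) ^ 2 ≤ 2 (1 + δ/2) ^ 2 n ζ ^ 2 ≤ 2 (1.005) ^ 2 ‖ζ‖ ^ 2`, so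
`Q ≤ 2.03`.  The four points `± ρ⁻¹, ± ρ⁻²` are excluded by `Good`: `n (ζ lam⁻¹) ≥ (1 + δ) n ζ > (1 + δ/2) n ζ` (`n ζ > 0` by `Two`). -/
def Stmt_CHN : Prop :=
  ∀ ρ : ℝ, ρ ^ 3 = ρ + 1 → ∀ n : Seminorm ℝ ℂ, Two n → ∀ δ : ℝ, 0 < δ → δ ≤ 1 / 100 → ∀ ζ : ℂ, ζ ≠ 0 →
    Good n ρ δ ζ → ∀ v : ℤ × ℤ × ℤ, |LL ρ v| ≤ 1.02 → n (ζ * Ec ρ v) ≤ (1 + δ / 2) * n ζ →
    v = 0 ∨ v = (1, 0, 0) ∨ v = -(1, 0, 0)

/-- **SYM** (80 lines), uses LMB.  `R = A⁻¹ ∘ (multiplication by exp (i π / 3) = 1/2 + i √3/2) ∘ A`.  `a (1/2 + i √3/2) - c = lam`: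
`a / 2 - c = - ρ / 2` (`P.c2`), `(a √3 / 2) ^ 2 = 3 a ^ 2 / 4 = (3 ρ ^ 2 - 4) / 4` (`P.a2`, `P.a0`). -/
def Stmt_SYM : Prop :=
  ∀ ρ a c : ℝ, Par ρ a c → ∀ A : V ≃ₗ[ℝ] ℂ, ∃ R : V →ₗ[ℝ] V, Sym (NA A) R ∧
    (∀ y, A (Lam R a c y) = lam ρ * A y) ∧ ∀ y v, A (E R ρ a c y v) = Ec ρ v * A y

/-! ## 2. The best approximations -/

/-- **UPA** (400 lines), uses LMB CHN SYM.  Adaptation of `UPAux.up` (`MP_7453a1_nt_sym/UP.lean`): `Par` from `exists_par`, `R` from SYM, `params` for the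
seminorm `NA A` (it needs `Sym (NA A) R` only) with `ε = cl δ / 100`, where `cl ‖x‖ ≤ N x` (`lower`); then `N κ = n (A κ) ≤ ‖A κ‖ ≤ ε`, so
`hup`, `hdn` hold with `1 ± δ / 100` (replace `0.002` by `δ / 100`; `δ ≤ 1 / 100`).  All `E`-values: `N (E .. w v) = n (Ec v * A w)`.  With
`ζ₀ = A w ≠ 0`: `N (E .. w (zv k)) = n (lam ^ k ζ₀)` (`A ((Lam R a c)^[k] w) = lam ^ k ζ₀`), `≤ ‖ζ₀‖`.  For `k ≥ k0` with
`Good n ρ δ (lam ^ k ζ₀)` the point `(qk k, pk k)` is best: for `(q', p')` in the box, `v = U^[k] η` (`exists_iter`), `|LL η| ≤ 1.02`,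
`n (lam ^ k ζ₀ * Ec η) ≤ (1 + δ/2) n (lam ^ k ζ₀)`, CHN.  No monotonicity of the errors is used; `A₀ |qk k| ∈ [0.99 ρ ^ k, 1.01 ρ ^ k]` for `k ≥ k0` (`A₀` = the `A` of
`up`), so `|qk|` is strictly increasing.  The good `k ≥ k0`: by `Orb` there are at least `K / s - C - k0` below `K`; so there are infinitely many and the
`j`-th one (from `0`), `k_j` (`Nat.nth` of `fun k => k0 ≤ k ∧ Good ..`), satisfies `j ≥ k_j / s - C - k0`, i.e. `ρ ^ (k_j) ≤ ρ ^ (s (j + C + k0))`; `G_le_of_chain` with `ρ ^ s` in place of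
`ρ` (`(ρ ^ s) ^ j` with `Real.rpow_natCast_mul` / `Real.rpow_mul`). -/
def Stmt_UPA : Prop :=
  ∀ ρ : ℝ, ρ ^ 3 = ρ + 1 → ∀ (N : Seminorm ℝ V) (A : V ≃ₗ[ℝ] ℂ) (n : Seminorm ℝ ℂ), IsNorm N → (∀ z, N z = n (A z)) →
    Two n → ∀ s : ℝ, 1 ≤ s → Cnt n ρ s →
    ∃ Θ : V, Pool.Agent.Work.MP_7453a1_nt_norm.Admissible Θ ∧
      Pool.Agent.Work.MP_7453a1_nt_norm.G N Θ ≤ ENNReal.ofReal (ρ ^ s)

/-! ## 3. Counting the records -/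

/-- **EQD** (250 lines), uses nothing.  Irrational rotation.  Choose a rational `P / q`, `|α - P / q| < 1 / q ^ 2`, `q` large (`4 / q < ε`):
`Real.infinite_rat_abs_sub_lt_one_div_den_sq_iff_irrational`; infinitely many rationals near `α` have unbounded denominators.  In a block of `q` consecutive
`k = k₁ + i`, `0 ≤ i < q`: with `x' = x + k₁ α`, `|x' + i α - (x' + i P / q)| < 1 / q`; if `Int.fract (x' + i P / q) ∈ [1/q, ℓ - 1/q]` then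
`Int.fract (x' + i α) ≤ ℓ` (same floor).  The integers `t` with `x' + t / q ∈ [1/q, ℓ - 1/q]` are at least `q (ℓ - 2/q) - 1 = q ℓ - 3` many, distinct mod
`q` (as `ℓ < 1`), and `i ↦ i P mod q` is a bijection of `{0, .., q-1}`; so every block contains at least `q ℓ - 3 ≥ q (ℓ - ε)` good `k`; sum over the blocks,
`C = q` or so. -/
def Stmt_EQD : Prop :=
  ∀ α : ℝ, Irrational α → ∀ ℓ ε : ℝ, 0 < ℓ → ℓ < 1 → 0 < ε → ∃ C : ℝ, ∀ (x : ℝ) (K : ℕ),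
    (ℓ - ε) * K - C ≤ (((range K).filter (fun k : ℕ => Int.fract (x + k * α) ≤ ℓ)).card : ℝ)

/-- **IRR** (150 lines), uses LMB.  If `arg lam = π P / q`, `q ≥ 1`, then `lam ^ q` is real.  `lam ^ q = Ec (zv q)` (`zv q = U^[q] (1,0,0)` are the coordinates of
`ρ ^ q`: `LL ρ (zv q) = ρ ^ q`, `lam * Ec v = Ec (U v)`), `= (X - (ρ²-1) Z) + (Y - ρ Z) lam`, imaginary part `(Y - ρ Z) Im lam = 0`, so `Y = ρ Z`; `L ρ Y (-Z) 0 = 0`, so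
`Nf Y (-Z) 0 = 0` by `L_mul_Q`, `Y = Z = 0` by `Nf_eq_zero`.  Then `ρ ^ q = X` and `lam ^ q = X`, but `‖lam ^ q‖ < 1 < ρ ^ q`. -/
def Stmt_IRR : Prop :=
  ∀ ρ : ℝ, ρ ^ 3 = ρ + 1 → Irrational (Complex.arg (lam ρ) / π)

/-- **PHS** (250 lines), uses LMB EQD IRR.  `ω = arg lam`, `ζ = |ζ| exp (i φ₀)`; `lam ^ k ζ = |lam| ^ k |ζ| exp (i (φ₀ + k ω))`, `lam⁻¹ ^ k ζ` with `- ω`.  By homogeneity the first
condition of `Good δ'` holds if `φ₀ + k ω` is in one of the arcs; the second one always, as `n ζ ≤ θ n (ζ / lam ^ 2)`, if `(1 + δ') θ ≤ 1`.  `δ' = min δ (..)`, `≤ 1/100`.  The `k` with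
`φ₀ + k ω` in the arc of `c₁` (mod `π`): EQD with `α = ± ω / π`, `x = (φ₀ - c₁ + w) / π`, `ℓ = 2 w / π`; the two sets of `k` are disjoint by `2 w < c₂ - c₁ < π - 2 w`.
`ε = w / π ·` small: `2 (2 w / π - ε) ≥ 1 / s`. -/
def Stmt_PHS : Prop :=
  ∀ ρ : ℝ, ρ ^ 3 = ρ + 1 → ∀ (n : Seminorm ℝ ℂ) (θ : ℝ), 0 < θ → θ < 1 → (∀ ζ, n (lam ρ ^ 2 * ζ) ≤ θ * n ζ) →
    ∀ c₁ c₂ w δ : ℝ, 0 < δ → 0 < w → 2 * w < c₂ - c₁ → c₂ - c₁ < π - 2 * w →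
      (∀ φ : ℝ, (∃ k : ℤ, |φ - c₁ - k * π| ≤ w ∨ |φ - c₂ - k * π| ≤ w) →
        (1 + δ) * n (Complex.exp (φ * Complex.I)) ≤ n (Complex.exp (φ * Complex.I) / lam ρ)) →
    ∀ s : ℝ, 0 < s → 1 / s < 4 * w / π → Cnt n ρ s

/-- **CT1** (40 lines), uses LMB.  Every point of both orbits is `Good δ` with `(1 + δ) θ ≤ 1`: `S = range K`. -/
def Stmt_CT1 : Prop :=
  ∀ ρ : ℝ, ρ ^ 3 = ρ + 1 → ∀ (n : Seminorm ℝ ℂ) (θ : ℝ), 0 < θ → θ < 1 → (∀ ζ, n (lam ρ * ζ) ≤ θ * n ζ) → Cnt n ρ 1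

/-- **SPC** (250 lines), uses LMB PHS.  The sup norm of `ℂ`.  `lam = - p + i q` with `p = ρ/2 = 0.66236`, `q = 0.56228`; `lam ^ 2 = (p² - q²) - 2 p q i`,
`|p² - q²| + 2 p q ≤ 0.8675`, so `θ = 0.87`.  `1 / lam = ρ (- p - i q)`: `(x + i y) / lam = ρ ((- p x + q y) + i (- p y - q x))`.  The condition is
invariant under `φ ↦ φ + π/2` (multiplication by `i`).  For `φ ∈ (0, π/2)`, `x = cos φ`, `y = sin φ`, the second coordinate of the quotient has absolute value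
`ρ (p y + q x) = 0.8774 y + 0.7449 x`; it is `≥ 1.0005 max x y` if `0.2914 ≤ y / x ≤ 6.05`.  `c₁ = 0.84534`, `c₂ = c₁ + π/2`, `w = 0.5612`, `δ = 0.0005`
(`5 π / 28 < 0.5612`, `|φ - c₁| ≤ w` gives `φ ∈ [0.28414, 1.40654]`, `tan 0.28414 ≥ 0.29204`, `tan 1.40654 ≤ 6.035`; margin of the inequality: `0.0008`;
bounds for `sin`, `cos` at the two ends: `Real.sin_bound`, `Real.cos_bound` at `0.28414` and, for `1.40654 = π/2 - 0.16426`, at `0.16426`, with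
`Real.pi_gt_d6`, `Real.pi_lt_d6`; it suffices to check the two inequalities at the ends, as `y / x` is increasing).  `s = 7/5`: `5/7 < 4 w / π`. -/
def Stmt_SPC : Prop :=
  ∀ ρ : ℝ, ρ ^ 3 = ρ + 1 → ∀ n : Seminorm ℝ ℂ, (∀ ζ, n ζ = max |ζ.re| |ζ.im|) → Cnt n ρ (7 / 5)

/-! ## 4. The best ellipse -/

/-- the squares of the points where the norm touches the circle of radius `1` (`e = 1`) or is smallest (`e = d`) -/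
def Tch (n : Seminorm ℝ ℂ) (e : ℝ) : Set ℂ := {w | ∃ u : ℂ, ‖u‖ = 1 ∧ e * n u = 1 ∧ w = u ^ 2}

/-- the barycentric condition -/
def Bary (n : Seminorm ℝ ℂ) (d : ℝ) : Prop :=
  ∃ c : ℂ, c ∈ closure (convexHull ℝ (Tch n 1)) ∧ c ∈ closure (convexHull ℝ (Tch n d))

/-- the scalar product -/
def Sc (u v : ℂ) : ℝ := u.re * v.re + u.im * v.im

/-- **BEL** (250 lines), uses nothing.  The best ellipse.  Forms `P (z) = p z₀² + 2 q z₀ z₁ + r z₁²` on `V` with `N z ^ 2 ≤ P z ≤ D N z ^ 2`: start with one of them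
(`C (z₀² + z₁²)`, norms are equivalent).  For fixed `D` the set of `(p, q, r)` is compact (closed; bounded, as `P ≤ D N²` at `(1,0), (0,1), (1,1)`), these compact sets
decrease with `D`, so the infimum `D₀ ≥ 1` of the possible `D` is attained, by a form `P ≥ N²`, positive definite.  `P z = ‖A z‖ ^ 2` with `A z = √p z₀ + (q/√p) z₁ + i √(r - q²/p) z₁`,
`n = N ∘ A⁻¹`, `d = √D₀`.  A form `P'` on `ℂ` with `m₀ n² ≤ P' ≤ M₀ n²` gives `D = M₀ / m₀` on `V`, so `d² ≤ M₀ / m₀`. -/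
def Stmt_BEL : Prop :=
  ∀ N : Seminorm ℝ V, IsNorm N → ∃ (A : V ≃ₗ[ℝ] ℂ) (n : Seminorm ℝ ℂ) (d : ℝ), 1 ≤ d ∧ (∀ z, N z = n (A z)) ∧
    (∀ ζ, n ζ ≤ ‖ζ‖ ∧ ‖ζ‖ ≤ d * n ζ) ∧
    ∀ p q r m₀ M₀ : ℝ, 0 < m₀ →
      (∀ ζ : ℂ, m₀ * n ζ ^ 2 ≤ p * ζ.re ^ 2 + 2 * q * ζ.re * ζ.im + r * ζ.im ^ 2 ∧
        p * ζ.re ^ 2 + 2 * q * ζ.re * ζ.im + r * ζ.im ^ 2 ≤ M₀ * n ζ ^ 2) → d ^ 2 * m₀ ≤ M₀

/-- **BAR** (250 lines), uses nothing.  `F u = 1 / n u ^ 2 ∈ [1, d²]` on the unit circle.  If `d = 1`, both sets are all squares of unit numbers.  Let `d > 1`.  Both sets are compact;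
if one of them is empty the argument below works with a constant form (`P = ± ‖ζ‖²`; or: by minimality both `F = 1` and `F = d²` occur, since otherwise
`m₀` or `M₀` can be improved with the form `‖ζ‖²`).  If the closures of the convex hulls are disjoint (they are convex, closed, bounded, so
compact), `geometric_hahn_banach_compact_closed` gives `f : ℂ → ℝ` linear and `t` with `f < t` on `Tch n d`, `t < f` on `Tch n 1`.  `P ζ = f (ζ ^ 2) - t ‖ζ‖ ^ 2` is a form, `P > 0` where `F = 1`, `P < 0` where `F = d²` (unit vectors).  For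
small `ε > 0` the form `‖ζ‖ ^ 2 + ε P ζ` has quotient by `n ^ 2` in `[m₀, M₀]`, `m₀ > 1`, `M₀ < d²`: on the compact set of `u` with `P u ≥ 0` we have `F ≤ d² - η`, `F (1 + ε P) < d²` for small
`ε`; where `P u < 0`, `F (1 + ε P) < d²`; the maximum on the circle is attained.  In the same way for `m₀`.  Contradiction to minimality. -/
def Stmt_BAR : Prop :=
  ∀ (n : Seminorm ℝ ℂ) (d : ℝ), 1 ≤ d → (∀ ζ, n ζ ≤ ‖ζ‖ ∧ ‖ζ‖ ≤ d * n ζ) →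
    (∀ p q r m₀ M₀ : ℝ, 0 < m₀ →
      (∀ ζ : ℂ, m₀ * n ζ ^ 2 ≤ p * ζ.re ^ 2 + 2 * q * ζ.re * ζ.im + r * ζ.im ^ 2 ∧
        p * ζ.re ^ 2 + 2 * q * ζ.re * ζ.im + r * ζ.im ^ 2 ≤ M₀ * n ζ ^ 2) → d ^ 2 * m₀ ≤ M₀) → Bary n d

/-- **SPT** (60 lines), uses nothing.  `1 = n u ≤ n (u - t ζ) + t n ζ ≤ √(1 - 2 t (u, ζ) + t² ‖ζ‖²) + t n ζ ≤ 1 - t (u, ζ) + t² ‖ζ‖² / 2 + t n ζ`, `t → 0`;
then `- ζ`. -/
def Stmt_SPT : Prop :=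
  ∀ n : Seminorm ℝ ℂ, (∀ ζ, n ζ ≤ ‖ζ‖) → ∀ u : ℂ, ‖u‖ = 1 → n u = 1 → ∀ ζ : ℂ, |Sc u ζ| ≤ n ζ

/-- **SEP** (300 lines), uses SPT.  Angles relative to `ζ`.  `a₀ = arccos c₀ ∈ (0, π/2)`.  `I` = the unit `u` with `n u = 1`, written as `u = ± ζ exp (i α)`, `α ∈ [a₀, π - a₀]`
(`|cos α| ≤ c₀`); `O` = the unit `v` with `d n v = 1`, `v = ± ζ exp (i φ)`, `φ ∈ [0, π)`.  By SPT `|cos (α - φ)| ≤ n v = 1 / d ≤ c₀`, so `|α - φ| ∈ [a₀, π - a₀]`.  `I`, `O` are not empty (`Bary`); let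
`α₁`, `α₂` be the smallest and the largest `α` (compactness), `l = α₂ - α₁`, `γ` the middle.  Claim: some `v ∈ O` has `φ ∈ [α₁ + a₀, α₂ - a₀]` (so `l ≥ 2 a₀`, `φ ∈ [2 a₀, π - 2 a₀]`, and
`u, u'` = the points of `α₁`, `α₂`: `l ∈ [2 a₀, π - 2 a₀]`; `cos (2 a₀) = 2 c₀² - 1`).  Otherwise every `φ` is `≤ α₁ - a₀` or `≥ α₂ + a₀` (it is at distance `≥ a₀` from both
ends), so `|φ - γ| ≥ l/2 + a₀` and `|φ - γ| ≤ π - (l/2 + a₀)`, `cos (2 (φ - γ)) ≤ cos (l + 2 a₀)`; and `cos (2 (α - γ)) ≥ cos l` for all `α`; `0 ≤ l < l + 2 a₀ ≤ π`, so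
`cos (l + 2 a₀) < cos l`.  The linear function `w ↦ Re (w / (ζ² exp (2 i γ)))` is `≥ cos l` on `Tch n 1`, `≤ cos (l + 2 a₀)` on `Tch n d`: contradiction at the common point `c` of the closed hulls (half-planes are closed and convex). -/
def Stmt_SEP : Prop :=
  ∀ (n : Seminorm ℝ ℂ) (d c₀ : ℝ) (ζ : ℂ), (∀ z, n z ≤ ‖z‖) → 1 ≤ d → ‖ζ‖ = 1 → 0 < c₀ → c₀ < 1 → 1 ≤ c₀ * d → Bary n d →
    (∀ u, ‖u‖ = 1 → n u = 1 → |Sc u ζ| ≤ c₀) →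
    (∃ v, ‖v‖ = 1 ∧ d * n v = 1 ∧ |Sc v ζ| ≤ 2 * c₀ ^ 2 - 1) ∧
    ∃ u u', ‖u‖ = 1 ∧ n u = 1 ∧ ‖u'‖ = 1 ∧ n u' = 1 ∧ |Sc u u'| ≤ 2 * c₀ ^ 2 - 1

/-- **GEO** (250 lines), uses LMB SPT SEP.  (a) `d ≤ 1`: then `n = ‖ ‖`, all is clear (two orthogonal unit vectors); let `d > 1`.  An outer point `v` (`Bary`), `c₀ = 1 / d`, `ζ = v` in SEP (its hypothesis by SPT): `u, u'` with
`|(u, u')| ≤ 2 / d² - 1`; so `d² ≤ 2`.  (b) `‖ζ‖ = 1`.  If `n ζ ≥ 0.7625`, `n (lam² ζ) ≤ 1/ρ ≤ 0.7549 ≤ 0.995 n ζ`.  Let `n ζ < 0.7625`; then `1 / d ≤ n ζ < 0.7625`, SPT and SEP with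
`c₀ = 0.7625`: `v`, `n v = 1/d ≤ 0.7625`, `|(v, ζ)| ≤ 0.1629`.  `lam² ζ = (1/ρ) η`, `‖η‖ = 1`, `(η, ζ) = ρ Re lam² = ρ (1 - ρ²/2) = 0.1624` (`Re lam² = ρ²/2 - (ρ² - 1)`), so
`|(v, η)| ≥ √(1 - 0.1629²) √(1 - 0.1624²) - 0.1629 · 0.1624 ≥ 0.947` (coordinates with respect to `ζ`, `i ζ`), `n η ≤ 0.6 n v + ‖η ∓ 0.6 v‖ ≤ 0.4575 + √(1.36 - 1.2 · 0.947) ≤ 0.9305`,
`n (lam² ζ) ≤ 0.7549 · 0.9305 ≤ 0.7025 ≤ 0.995 · 0.7071 ≤ 0.995 / d ≤ 0.995 n ζ`. -/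
def Stmt_GEO : Prop :=
  ∀ ρ : ℝ, ρ ^ 3 = ρ + 1 → ∀ (n : Seminorm ℝ ℂ) (d : ℝ), 1 ≤ d → (∀ ζ, n ζ ≤ ‖ζ‖ ∧ ‖ζ‖ ≤ d * n ζ) → Bary n d →
    d ^ 2 ≤ 2 ∧ (∀ ζ, n (lam ρ ^ 2 * ζ) ≤ 0.995 * n ζ) ∧
    ∃ u u', ‖u‖ = 1 ∧ n u = 1 ∧ ‖u'‖ = 1 ∧ n u' = 1 ∧ |Sc u u'| ≤ 2 / d ^ 2 - 1

/-- **ALL** (200 lines), uses LMB PHS CT1 SPT GEO.  `Cnt` for the best ellipse.  If `d² ≤ 1.3243 < ρ`: `n (lam ζ) ≤ ‖ζ‖ / √ρ ≤ (d / √ρ) n ζ`, CT1 gives `Cnt n ρ 1`, which implies `Cnt n ρ (38/25)` (same `S`).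
Otherwise PHS with `θ = 0.995`, `u = exp (i c₁)`, `u' = ± exp (i c₂)` with `c₂ ∈ (c₁, c₁ + π)`: `|cos (c₂ - c₁)| ≤ 2 / d² - 1 < 0.5103`, `w = 0.5173` (`cos w ≥ 0.8691`,
`cos (2 w) ≥ 0.5106`, so `2 w < c₂ - c₁ < π - 2 w`), `δ = 0.0002`.  In the arcs `|(exp (i φ), u)| ≥ cos w ≥ 0.8691`; with `φ` the angle of `ζ / lam` !  (the condition of PHS is for
`exp (i φ)` with the quotient on the right): apply it to `φ' = φ - arg lam`, i.e. take the centres `c₁ + arg lam`, `c₂ + arg lam` in PHS: `n (exp (i φ)) ≤ 1`, and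
`exp (i φ) / lam = √ρ exp (i φ')`, `n ≥ √ρ |(exp (i φ'), u)| ≥ 1.15096 · 0.8691 > 1.0002`.  `s = 38/25`: `25/38 = 0.65790 < 4 w / π = 0.6586`. -/
def Stmt_ALL : Prop :=
  ∀ ρ : ℝ, ρ ^ 3 = ρ + 1 → ∀ (n : Seminorm ℝ ℂ) (d : ℝ), 1 ≤ d → (∀ ζ, n ζ ≤ ‖ζ‖ ∧ ‖ζ‖ ≤ d * n ζ) → Bary n d →
    Two n ∧ Cnt n ρ (38 / 25)

end Pool.GI
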