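import Pool.Agent.Work.MP_7453a1_gi.Interface
import Pool.Agent.Work.MP_7453a1_nt_two.Sym12
import Pool.Agent.Work.MP_7453a1_nt_two.UpC

set_option autoImplicit false

/-! # The second statement about best approximations (one form in two variables) -/

namespace Pool.GI

open Finset Real
open Pool.Agent.Work.MP_7453a1_nt_norm (IsNorm)
open Pool.Agent.Work.MP_7453a1_nt_sym.UPAux (Par Lam E LL)

/-- **UPB** (400 lines), uses LMB CHN SYM.  Adaptation of `up2` (`MP_7453a1_nt_two/UpC.lean`, `UpB.lean`, `UpA.lean`) in the same way: `params2` for `NA A`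
with `ε = cl δ / 100`; `A (bw .. w k) = (lam ρ)⁻¹ ^ k * A w` (`Laminv` is the inverse of `Lam`), so with `ζ₀ = A w`, `N (bw k) = n (lam⁻¹ ^ k ζ₀)`, and
`chain2` for `k` with `Good n ρ δ (lam⁻¹ ^ k ζ₀)`: `η = U^[k] v`, `|LL η| ≤ 1.02`, `N (E .. w v) = n (lam⁻¹ ^ k ζ₀ * Ec η)`, CHN.  (The lemmas `N_bw`, `N_bw_ge`,
`N_bw_le` are replaced by `‖ζ₀‖ ^ 2 / 2 ≤ ‖lam⁻¹ ^ k ζ₀‖ ^ 2 / 2 ≤ n (..) ^ 2` and `n (..) ≤ ‖lam⁻¹ ^ k ζ₀‖ = (√ρ) ^ k ‖ζ₀‖`; the small term `C0 |lf θ (Pk k)|` must be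
`≤ (δ / 100) n (lam⁻¹ ^ k ζ₀)`, true for `k ≥ k0`.)  Strict growth between good indices `k < k'`: if `N (xv (Pk k')) ≤ N (xv (Pk k))`, then, as
`|lf (Pk k')| < |lf (Pk k)|` and `Pk k` is best, `Pk k' = 0` or `± Pk k`, a contradiction (as `hmono`).  Enumeration of the good indices as in UPA, bound
`C (√ρ) ^ (k_j)`, `G_le_of_chain2` with `ρ ^ (s / 2)`. -/
def Stmt_UPB : Prop :=
  ∀ ρ : ℝ, ρ ^ 3 = ρ + 1 → ∀ (N : Seminorm ℝ V) (N₁ : Seminorm ℝ (Fin 1 → ℝ)) (A : V ≃ₗ[ℝ] ℂ) (n : Seminorm ℝ ℂ),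
    IsNorm N → IsNorm N₁ → (∀ z, N z = n (A z)) → Two n → ∀ s : ℝ, 1 ≤ s → Cnt n ρ s →
    ∃ Θ : Matrix (Fin 1) (Fin 2) ℝ, Pool.Agent.Work.MP_7453a1_nt_two.Admissible Θ ∧
      Pool.Agent.Work.MP_7453a1_nt_two.G N N₁ Θ ≤ ENNReal.ofReal (ρ ^ (s / 2))

end Pool.GI
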